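import Pool.Agent.Lib.MP_9a581e_an.Defs

/-! Left regular representation: projections of compact open subgroups, step functions. -/

set_option autoImplicit false
set_option linter.unusedSectionVars false

noncomputable section

namespace Pool.Agent.Lib.MP_9a581e_an.An88

open MeasureTheory Filter Topology
open scoped Pointwise ENNReal symmDiff

variable {G : Type} [Group G] [TopologicalSpace G] [IsTopologicalGroup G] [MeasurableSpace G]
  [BorelSpace G] (μ : Measure G) [μ.IsHaarMeasure]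

/-- compact open sets -/
def CO (s : Set G) : Prop := IsOpen s ∧ IsCompact s

lemma CO.meas {s : Set G} (h : CO s) : MeasurableSet s := h.1.measurableSet

lemma CO.fin {s : Set G} (h : CO s) : μ s ≠ ∞ := h.2.measure_lt_top.ne

lemma CO.smul {s : Set G} (h : CO s) (g : G) : CO (g • s) := ⟨h.1.smul g, h.2.smul g⟩

lemma CO.pos {s : Set G} (h : CO s) (hs : s.Nonempty) : 0 < μ.real s :=
  ENNReal.toReal_pos (h.1.measure_pos μ hs).ne' (h.fin μ)

lemma CO.pos' {K : Subgroup G} (h : CO (K : Set G)) : 0 < μ.real (K : Set G) :=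
  h.pos μ ⟨1, K.one_mem⟩

abbrev H := Lp ℂ 2 μ

def lam (g : G) : H μ →L[ℂ] H μ := (leftReg μ g).toContinuousLinearMap

lemma lam_apply (g : G) (ξ : H μ) : lam μ g ξ = leftReg μ g ξ := rfl

lemma lam_ae (g : G) (ξ : H μ) : lam μ g ξ =ᵐ[μ] fun x => ξ (g⁻¹ * x) :=
  Lp.coeFn_compMeasurePreserving ξ (measurePreserving_mul_left μ g⁻¹)

lemma lam_mul (g h : G) : lam μ (g * h) = lam μ g * lam μ h := by
  ext1 ξ
  change Lp.compMeasurePreserving (fun x => (g * h)⁻¹ * x) (measurePreserving_mul_left μ _) ξ =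
    Lp.compMeasurePreserving (fun x => g⁻¹ * x) (measurePreserving_mul_left μ _)
      (Lp.compMeasurePreserving (fun x => h⁻¹ * x) (measurePreserving_mul_left μ _) ξ)
  rw [← Lp.compMeasurePreserving_comp_apply]
  have : (fun x => (g * h)⁻¹ * x) = ((fun x => h⁻¹ * x) ∘ fun x => g⁻¹ * x) := by
    funext x; simp [mul_assoc]
  simp only [this]

lemma lam_one : lam μ 1 = 1 := by
  ext1 ξ
  change Lp.compMeasurePreserving (fun x => (1 : G)⁻¹ * x) (measurePreserving_mul_left μ _) ξ = ξ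
  have : (fun x : G => (1 : G)⁻¹ * x) = id := by funext x; simp
  simp only [this]
  exact Lp.compMeasurePreserving_id_apply ξ

lemma lam_lam (g h : G) (ξ : H μ) : lam μ g (lam μ h ξ) = lam μ (g * h) ξ := by
  rw [lam_mul]; rfl

lemma norm_lam (g : G) (ξ : H μ) : ‖lam μ g ξ‖ = ‖ξ‖ := (leftReg μ g).norm_map ξ

lemma inner_lam_lam (g : G) (ξ η : H μ) : inner ℂ (lam μ g ξ) (lam μ g η) = inner ℂ ξ η :=
  (leftReg μ g).inner_map_map ξ η

lemma inner_lam (g : G) (ξ η : H μ) : inner ℂ ξ (lam μ g η) = inner ℂ (lam μ g⁻¹ ξ) η := by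
  rw [← inner_lam_lam μ g (lam μ g⁻¹ ξ), lam_lam, mul_inv_cancel, lam_one]; rfl

lemma star_lam (g : G) : star (lam μ g) = lam μ g⁻¹ := by
  rw [ContinuousLinearMap.star_eq_adjoint]
  exact ((ContinuousLinearMap.eq_adjoint_iff _ _).2 fun ξ η => (inner_lam μ g ξ η).symm).symm

/-- the vectors fixed by a subgroup -/
def Fix (K : Subgroup G) : Submodule ℂ (H μ) := ⨅ u : K, (lam μ u - 1).ker

lemma mem_Fix {K : Subgroup G} {ξ : H μ} : ξ ∈ Fix μ K ↔ ∀ u ∈ K, lam μ u ξ = ξ := by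
  simp [Fix, Submodule.mem_iInf, sub_eq_zero]

lemma closed_Fix (K : Subgroup G) : IsClosed (Fix μ K : Set (H μ)) := by
  rw [Fix, Submodule.coe_iInf]
  exact isClosed_iInter fun u => ContinuousLinearMap.isClosed_ker _

instance (K : Subgroup G) : (Fix μ K).HasOrthogonalProjection :=
  haveI : CompleteSpace (Fix μ K) := (closed_Fix μ K).completeSpace_coe
  inferInstance

/-- the orthogonal projection onto the vectors fixed by `K` -/
def pr (K : Subgroup G) : H μ →L[ℂ] H μ := (Fix μ K).starProjection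

lemma pr_mem (K : Subgroup G) (ξ : H μ) : pr μ K ξ ∈ Fix μ K :=
  Submodule.starProjection_apply_mem _ ξ

lemma pr_eq {K : Subgroup G} {ξ : H μ} : pr μ K ξ = ξ ↔ ∀ u ∈ K, lam μ u ξ = ξ := by
  rw [← mem_Fix]; exact Submodule.starProjection_eq_self_iff

lemma inner_pr (K : Subgroup G) (ξ η : H μ) : inner ℂ (pr μ K ξ) η = inner ℂ ξ (pr μ K η) :=
  Submodule.inner_starProjection_left_eq_right _ ξ η

lemma star_pr (K : Subgroup G) : star (pr μ K) = pr μ K := by
  rw [ContinuousLinearMap.star_eq_adjoint]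
  exact ((ContinuousLinearMap.eq_adjoint_iff _ _).2 fun ξ η => inner_pr μ K ξ η).symm

lemma lam_pr {K : Subgroup G} {u : G} (hu : u ∈ K) : lam μ u * pr μ K = pr μ K := by
  ext1 ξ; exact (mem_Fix μ).1 (pr_mem μ K ξ) u hu

lemma pr_lam {K : Subgroup G} {u : G} (hu : u ∈ K) : pr μ K * lam μ u = pr μ K := by
  have := congrArg star (lam_pr μ (K.inv_mem hu))
  rwa [star_mul, star_pr, star_lam, inv_inv] at this

/-- an operator whose range is fixed by `K` is fixed by the projection -/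
lemma pr_mul_of {K : Subgroup G} {a : H μ →L[ℂ] H μ} (h : ∀ u ∈ K, lam μ u * a = a) :
    pr μ K * a = a := by
  ext1 ξ
  exact (pr_eq μ).2 fun u hu => congrArg (fun T : H μ →L[ℂ] H μ => T ξ) (h u hu)

lemma pr_pr_le {K L : Subgroup G} (h : L ≤ K) : pr μ L * pr μ K = pr μ K :=
  pr_mul_of μ fun _ hu => lam_pr μ (h hu)

lemma pr_pr_ge {K L : Subgroup G} (h : L ≤ K) : pr μ K * pr μ L = pr μ K := by
  have := congrArg star (pr_pr_le μ h)
  rwa [star_mul, star_pr, star_pr] at this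

lemma pr_pr (K : Subgroup G) : pr μ K * pr μ K = pr μ K := pr_pr_le μ le_rfl

/-- conjugation: `L = g K g⁻¹` -/
lemma lam_pr_conj {K L : Subgroup G} {g : G} (h : ∀ u, u ∈ L ↔ g⁻¹ * u * g ∈ K) :
    lam μ g * pr μ K = pr μ L * lam μ g := by
  have h1 : pr μ L * (lam μ g * pr μ K) = lam μ g * pr μ K := by
    refine pr_mul_of μ fun u hu => ?_
    rw [← mul_assoc, ← lam_mul, show u * g = g * (g⁻¹ * u * g) by group, lam_mul, mul_assoc,
      lam_pr μ ((h u).1 hu)]
  have h2 : pr μ K * (lam μ g⁻¹ * pr μ L) = lam μ g⁻¹ * pr μ L := by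
    refine pr_mul_of μ fun u hu => ?_
    rw [← mul_assoc, ← lam_mul, show u * g⁻¹ = g⁻¹ * (g * u * g⁻¹) by group, lam_mul, mul_assoc,
      lam_pr μ ((h _).2 (by simpa [mul_assoc] using hu))]
  have h3 := congrArg star h2
  simp only [star_mul, star_pr, star_lam, inv_inv] at h3
  rw [← h1, ← mul_assoc, h3]

/-- `r` is a transversal of `K / (K ⊓ L)` -/
def Trans {ι : Type} (K L : Subgroup G) (r : ι → G) : Prop :=
  (∀ i, r i ∈ K) ∧ ∀ k ∈ K, ∃! i, (r i)⁻¹ * k ∈ L

lemma Trans.ne {ι : Type} {K L : Subgroup G} {r : ι → G} (h : Trans K L r) : Nonempty ι :=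
  ⟨(h.2 1 K.one_mem).choose⟩

lemma exists_trans {K L : Subgroup G} (hK : IsCompact (K : Set G)) (hL : IsOpen (L : Set G)) :
    ∃ (n : ℕ) (r : Fin n → G), Trans K L r := by
  have : CompactSpace K := isCompact_iff_compactSpace.1 hK
  have ho : IsOpen ((L.subgroupOf K : Subgroup K) : Set K) := hL.preimage continuous_subtype_val
  have : Finite (K ⧸ L.subgroupOf K) := Subgroup.quotient_finite_of_isOpen _ ho
  obtain ⟨n, ⟨e⟩⟩ := Finite.exists_equiv_fin (K ⧸ L.subgroupOf K)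
  refine ⟨n, fun i => ((e.symm i).out : K), fun i => ((e.symm i).out).2, fun k hk => ?_⟩
  have key : ∀ i, (((e.symm i).out : K) : G)⁻¹ * k ∈ L ↔ i = e (⟨k, hk⟩ : K) := by
    intro i
    rw [← e.symm_apply_eq, ← QuotientGroup.out_eq' (e.symm i), QuotientGroup.eq,
      QuotientGroup.out_eq', Subgroup.mem_subgroupOf]
    rfl
  exact ⟨_, (key _).2 rfl, fun i hi => (key i).1 hi⟩

/-- the averaging formula -/
lemma pr_avg {ι : Type} [Fintype ι] {K L : Subgroup G} {r : ι → G} (h : Trans K L r)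
    {a : H μ →L[ℂ] H μ} (ha : ∀ u ∈ L, lam μ u * a = a) :
    pr μ K * a = (Fintype.card ι : ℂ)⁻¹ • ∑ i, lam μ (r i) * a := by
  have := h.ne
  have hc : (Fintype.card ι : ℂ) ≠ 0 := Nat.cast_ne_zero.2 Fintype.card_ne_zero
  have h1 : pr μ K * ∑ i, lam μ (r i) * a = ∑ i, lam μ (r i) * a := by
    refine pr_mul_of μ fun k hk => ?_
    choose σ hσ hσ' using fun i => h.2 (k * r i) (K.mul_mem hk (h.1 i))
    have hinj : Function.Injective σ := by
      intro i j hij
      have h2 : (r j)⁻¹ * r i ∈ L := by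
        have := L.mul_mem (L.inv_mem (hσ j)) (hij ▸ hσ i)
        simpa [mul_assoc] using this
      exact (h.2 (r i) (h.1 i)).unique (by simp) h2
    rw [Finset.mul_sum, ← Equiv.sum_comp (Equiv.ofBijective σ hinj.bijective_of_finite)
      (fun i => lam μ (r i) * a)]
    refine Finset.sum_congr rfl fun i _ => ?_
    rw [← mul_assoc, ← lam_mul, show k * r i = r (σ i) * ((r (σ i))⁻¹ * (k * r i)) by group,
      lam_mul, mul_assoc, ha _ (hσ i)]
    rfl
  rw [← h1, Finset.mul_sum, Finset.sum_congr rfl fun i _ => show pr μ K * (lam μ (r i) * a) =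
    pr μ K * a by rw [← mul_assoc, pr_lam μ (h.1 i)], Finset.sum_const, Finset.card_univ,
    ← Nat.cast_smul_eq_nsmul ℂ, smul_smul, inv_mul_cancel₀ hc, one_smul]

lemma pr_pr_avg {ι : Type} [Fintype ι] {K L : Subgroup G} {r : ι → G} (h : Trans K L r) :
    pr μ K * pr μ L = (Fintype.card ι : ℂ)⁻¹ • ∑ i, lam μ (r i) * pr μ L :=
  pr_avg μ h fun _ hu => lam_pr μ hu

lemma pr_avg_vec {ι : Type} [Fintype ι] {K L : Subgroup G} {r : ι → G} (h : Trans K L r)
    {ξ : H μ} (hξ : ∀ u ∈ L, lam μ u ξ = ξ) :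
    pr μ K ξ = (Fintype.card ι : ℂ)⁻¹ • ∑ i, lam μ (r i) ξ := by
  have h1 := congrArg (fun T : H μ →L[ℂ] H μ => T ξ) (pr_pr_avg μ h)
  simpa [(pr_eq μ).2 hξ] using h1

open Classical in
/-- the indicator function of a set, in `L^p` -/
def indp (p : ℝ≥0∞) (s : Set G) : Lp ℂ p μ :=
  if h : MeasurableSet s ∧ μ s ≠ ∞ then indicatorConstLp p h.1 h.2 1 else 0

lemma indp_eq (p : ℝ≥0∞) {s : Set G} (h1 : MeasurableSet s) (h2 : μ s ≠ ∞) :
    indp μ p s = indicatorConstLp p h1 h2 1 := dif_pos ⟨h1, h2⟩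

lemma indp_ae (p : ℝ≥0∞) {s : Set G} (h1 : MeasurableSet s) (h2 : μ s ≠ ∞) :
    indp μ p s =ᵐ[μ] s.indicator fun _ => 1 := by
  rw [indp_eq μ p h1 h2]; exact indicatorConstLp_coeFn

lemma indp_empty (p : ℝ≥0∞) : indp μ p ∅ = 0 := by
  rw [indp_eq μ p MeasurableSet.empty (by simp), indicatorConstLp_empty]

lemma indp_union (p : ℝ≥0∞) {s t : Set G} (hs : CO s) (ht : CO t) (h : Disjoint s t) :
    indp μ p (s ∪ t) = indp μ p s + indp μ p t := by
  rw [indp_eq μ p hs.meas (hs.fin μ), indp_eq μ p ht.meas (ht.fin μ),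
    ← indicatorConstLp_disjoint_union _ _ _ _ h, indp_eq]

/-- the indicator function of a set, in `L²` -/
abbrev ind (s : Set G) : H μ := indp μ 2 s

lemma lam_ind (g : G) {s : Set G} (hs : CO s) : lam μ g (ind μ s) = ind μ (g • s) := by
  apply Lp.ext
  have h1 := (measurePreserving_mul_left μ g⁻¹).quasiMeasurePreserving.ae_eq_comp
    (indp_ae μ 2 hs.meas (hs.fin μ))
  filter_upwards [lam_ae μ g (ind μ s), h1, indp_ae μ 2 (hs.smul g).meas ((hs.smul g).fin μ)]
    with x a b c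
  rw [a, c]
  refine b.trans ?_
  have e : x ∈ g • s ↔ g⁻¹ * x ∈ s := Set.mem_smul_set_iff_inv_smul_mem
  by_cases hx : g⁻¹ * x ∈ s <;> simp [e, hx]

lemma inner_ind {s t : Set G} (hs : CO s) (ht : CO t) :
    inner ℂ (ind μ s) (ind μ t) = (μ.real (s ∩ t) : ℂ) := by
  rw [ind, ind, indp_eq μ 2 hs.meas (hs.fin μ), indp_eq μ 2 ht.meas (ht.fin μ),
    L2.inner_indicatorConstLp_one_indicatorConstLp_one hs.meas ht.meas (hs.fin μ) (ht.fin μ)]
  rfl

lemma pr_ind {K : Subgroup G} {s : Set G} (hs : CO s) (h : ∀ u ∈ K, u • s = s) :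
    pr μ K (ind μ s) = ind μ s :=
  (pr_eq μ).2 fun u hu => by rw [lam_ind μ u hs, h u hu]

lemma smul_self {K : Subgroup G} {u : G} (hu : u ∈ K) : u • (K : Set G) = K := by
  ext x
  rw [Set.mem_smul_set_iff_inv_smul_mem, smul_eq_mul]
  exact K.mul_mem_cancel_left (K.inv_mem hu)

lemma pr_ind_self {K : Subgroup G} (hK : CO (K : Set G)) : pr μ K (ind μ K) = ind μ K :=
  pr_ind μ hK fun _ hu => smul_self hu

lemma ind_ne {s : Set G} (hs : CO s) (h : s.Nonempty) : ind μ s ≠ 0 := by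
  intro h0
  have h1 := inner_ind μ hs hs
  rw [h0, inner_zero_left, Set.inter_self] at h1
  exact (hs.pos μ h).ne (by exact_mod_cast h1)

end Pool.Agent.Lib.MP_9a581e_an.An88
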