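import Pool.Agent.Lib.MP_9a581e_an.An88

/-! Density of step functions, and the reduced group C*-algebra as a closed span. -/

set_option autoImplicit false
set_option linter.unusedSectionVars false

noncomputable section

namespace Pool.Agent.Lib.MP_9a581e_an.An88

open MeasureTheory Filter Topology
open scoped Pointwise ENNReal symmDiff

variable {G : Type} [Group G] [TopologicalSpace G] [IsTopologicalGroup G] [MeasurableSpace G]
  [BorelSpace G] (μ : Measure G) [μ.IsHaarMeasure]

lemma mem_coset {K : Subgroup G} {g x : G} : x ∈ g • (K : Set G) ↔ g⁻¹ * x ∈ K :=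
  Set.mem_smul_set_iff_inv_smul_mem

lemma coset_eq {K : Subgroup G} {g h : G} (H : g⁻¹ * h ∈ K) : g • (K : Set G) = h • (K : Set G) := by
  ext x
  rw [mem_coset, mem_coset, ← K.mul_mem_cancel_left (K.inv_mem H)]
  simp [mul_assoc]

lemma coset_disj {K : Subgroup G} {g h : G} (H : g⁻¹ * h ∉ K) :
    Disjoint (g • (K : Set G)) (h • (K : Set G)) := by
  refine Set.disjoint_left.2 fun x a b => H ?_
  rw [mem_coset] at a b
  simpa [mul_assoc] using K.mul_mem a (K.inv_mem b)

lemma CO.empty : CO (∅ : Set G) := ⟨isOpen_empty, isCompact_empty⟩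

lemma CO.union {s t : Set G} (hs : CO s) (ht : CO t) : CO (s ∪ t) :=
  ⟨hs.1.union ht.1, hs.2.union ht.2⟩

lemma CO.inf {K L : Subgroup G} (hK : CO (K : Set G)) (hL : IsOpen (L : Set G)) :
    CO ((K ⊓ L : Subgroup G) : Set G) :=
  ⟨hK.1.inter hL, hK.2.inter_right (L.isClosed_of_isOpen hL)⟩

lemma CO.biUnion {ι : Type} (F : Finset ι) {s : ι → Set G} (hs : ∀ i, CO (s i)) :
    CO (⋃ i ∈ F, s i) :=
  ⟨isOpen_biUnion fun i _ => (hs i).1, F.isCompact_biUnion fun i _ => (hs i).2⟩

lemma indp_biUnion (p : ℝ≥0∞) {ι : Type} (F : Finset ι) {s : ι → Set G} (hs : ∀ i, CO (s i))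
    (hd : Pairwise fun i j => Disjoint (s i) (s j)) :
    indp μ p (⋃ i ∈ F, s i) = ∑ i ∈ F, indp μ p (s i) := by
  classical
  induction F using Finset.induction_on with
  | empty => simp [indp_empty]
  | insert a F ha ih =>
    rw [Finset.set_biUnion_insert, Finset.sum_insert ha, indp_union μ p (hs a) (CO.biUnion F hs), ih]
    exact Set.disjoint_iUnion₂_right.2 fun i hi => hd fun h => ha (h ▸ hi)

/-- refinement of a coset -/
lemma indp_refine (p : ℝ≥0∞) {ι : Type} [Fintype ι] {K L : Subgroup G} {r : ι → G}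
    (h : Trans K L r) (hKL : CO ((K ⊓ L : Subgroup G) : Set G)) (g : G) :
    indp μ p (g • (K : Set G)) = ∑ i, indp μ p ((g * r i) • ((K ⊓ L : Subgroup G) : Set G)) := by
  rw [← indp_biUnion μ p _ (fun i => hKL.smul _)]
  · congr 1
    ext x
    simp only [Set.mem_iUnion, mem_coset, Finset.mem_univ, exists_prop, true_and, Subgroup.mem_inf,
      mul_inv_rev, mul_assoc]
    refine ⟨fun hx => ?_, fun ⟨i, hi⟩ => (K.mul_mem_cancel_left (K.inv_mem (h.1 i))).1 hi.1⟩
    obtain ⟨i, hi, -⟩ := h.2 _ hx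
    exact ⟨i, K.mul_mem (K.inv_mem (h.1 i)) hx, hi⟩
  · refine fun i j hij => coset_disj fun hm => hij ?_
    have h2 : (r i)⁻¹ * r j ∈ L := by simpa [mul_assoc] using hm.2
    exact (h.2 (r j) (h.1 j)).unique h2 (by simp)

lemma real_smul (g : G) (s : Set G) : μ.real (g • s) = μ.real s := by
  rw [Measure.real, Measure.real, measure_smul]

/-- the index formula -/
lemma real_index {ι : Type} [Fintype ι] {K L : Subgroup G} {r : ι → G} (h : Trans K L r)
    (hK : CO (K : Set G)) (hL : IsOpen (L : Set G)) :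
    μ.real (K : Set G) = Fintype.card ι * μ.real ((K ⊓ L : Subgroup G) : Set G) := by
  have hKL := hK.inf hL
  have h1 := congrArg (inner ℂ (ind μ K)) (indp_refine μ 2 h hKL 1)
  rw [one_smul, inner_ind μ hK hK, inner_sum, Set.inter_self, Finset.sum_congr rfl fun i _ =>
    show inner ℂ (ind μ K) (indp μ 2 ((1 * r i) • ((K ⊓ L : Subgroup G) : Set G))) =
      (μ.real ((K ⊓ L : Subgroup G) : Set G) : ℂ) from ?_, Finset.sum_const, Finset.card_univ,
    nsmul_eq_mul] at h1
  · exact_mod_cast h1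
  · rw [inner_ind μ hK (hKL.smul _), Set.inter_eq_right.2, real_smul]
    intro x hx
    rw [one_mul, mem_coset] at hx
    exact (K.mul_mem_cancel_left (K.inv_mem (h.1 i))).1 hx.1

/-- a basis of neighbourhoods of the identity made of compact open subgroups -/
def Bas {ι : Type} (B : ι → Subgroup G) : Prop :=
  (∀ i, CO (B i : Set G)) ∧ ∀ V ∈ 𝓝 (1 : G), ∃ i, (B i : Set G) ⊆ V

variable [SecondCountableTopology G] [LocallyCompactSpace G]

lemma regular : μ.Regular := by
  obtain ⟨K, hK, h1⟩ := exists_compact_mem_nhds (1 : G)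
  exact Measure.regular_of_isMulLeftInvariant hK ⟨1, mem_interior_iff_mem_nhds.2 h1⟩
    hK.measure_lt_top.ne

lemma approx {ι : Type} {B : ι → Subgroup G} (hB : Bas B) {s : Set G} (hs : MeasurableSet s)
    (hμ : μ s ≠ ∞) {ε : ℝ≥0∞} (hε : ε ≠ 0) :
    ∃ (i : ι) (F : Finset G), μ ((⋃ g ∈ F, g • (B i : Set G)) ∆ s) < ε := by
  have := regular μ
  have h2 : ε / 2 ≠ 0 := (ENNReal.half_pos hε).ne'
  obtain ⟨C, hCs, hC, -, hC2⟩ := hs.exists_isCompact_isClosed_sdiff_lt hμ h2
  obtain ⟨O, hsO, hO, -, hO2⟩ := hs.exists_isOpen_sdiff_lt hμ h2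
  obtain ⟨V, hV, hCV⟩ := compact_open_separated_mul_right hC hO (hCs.trans hsO)
  obtain ⟨i, hi⟩ := hB.2 V hV
  obtain ⟨F, hF1, hF2⟩ := hC.elim_nhds_subcover (fun g => g • (B i : Set G)) fun g _ =>
    ((hB.1 i).smul g).1.mem_nhds (mem_coset.2 (by simp))
  refine ⟨i, F, lt_of_le_of_lt (measure_union_le _ _) ?_⟩
  rw [← ENNReal.add_halves ε]
  refine ENNReal.add_lt_add (lt_of_le_of_lt (measure_mono (Set.diff_subset_diff_left ?_)) hO2)
    (lt_of_le_of_lt (measure_mono (Set.diff_subset_diff_right hF2)) hC2)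
  refine Set.iUnion₂_subset fun g hg x hx => hCV ?_
  exact ⟨g, hF1 g hg, g⁻¹ * x, hi (mem_coset.1 hx), by simp⟩

/-- a closed subspace of `L^p` containing the indicators of the cosets is everything -/
theorem dense_step (p : ℝ≥0∞) [Fact (1 ≤ p)] (hp : p ≠ ∞) {ι : Type} {B : ι → Subgroup G}
    (hB : Bas B) (S : Submodule ℂ (Lp ℂ p μ)) (hS : IsClosed (S : Set (Lp ℂ p μ)))
    (h : ∀ i (g : G), indp μ p (g • (B i : Set G)) ∈ S) (f : Lp ℂ p μ) : f ∈ S := by
  classical
  have h1 : ∀ i (F : Finset G), indp μ p (⋃ g ∈ F, g • (B i : Set G)) ∈ S := by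
    intro i F
    induction F using Finset.induction_on with
    | empty => simp [indp_empty]
    | insert a F ha ih =>
      rw [Finset.set_biUnion_insert]
      by_cases hx : ∃ g ∈ F, a⁻¹ * g ∈ B i
      · obtain ⟨g, hg, hx⟩ := hx
        rwa [Set.union_eq_right.2]
        rw [coset_eq hx]
        exact Set.subset_biUnion_of_mem (u := fun g => g • (B i : Set G)) hg
      · rw [indp_union μ p ((hB.1 i).smul a) (CO.biUnion F fun g => (hB.1 i).smul g)]
        · exact S.add_mem (h i a) ih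
        · exact Set.disjoint_iUnion₂_right.2 fun g hg => coset_disj fun h' => hx ⟨g, hg, h'⟩
  refine Lp.induction hp (fun f => f ∈ S) (fun c s hs hμ => ?_)
    (fun _ _ _ _ _ a b => S.add_mem a b) hS f
  have h2 : (Lp.simpleFunc.indicatorConst p hs hμ.ne c : Lp ℂ p μ) =
      c • indicatorConstLp p hs hμ.ne (1 : ℂ) := by
    rw [Lp.simpleFunc.coe_indicatorConst]
    apply Lp.ext
    filter_upwards [indicatorConstLp_coeFn (p := p) (hs := hs) (hμs := hμ.ne) (c := c),
      indicatorConstLp_coeFn (p := p) (hs := hs) (hμs := hμ.ne) (c := (1 : ℂ)),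
      Lp.coeFn_smul c (indicatorConstLp p hs hμ.ne (1 : ℂ))] with x a b d
    rw [a, d, Pi.smul_apply, b]
    by_cases hx : x ∈ s <;> simp [hx]
  rw [h2]
  refine S.smul_mem c ?_
  choose i F hF using fun n : ℕ => approx μ hB hs hμ.ne (ε := (n : ℝ≥0∞)⁻¹) (by simp)
  have hc := fun n => CO.biUnion (F n) fun g : G => (hB.1 (i n)).smul g
  refine hS.mem_of_tendsto (tendsto_indicatorConstLp_set (l := atTop) (ht := fun n => (hc n).meas)
    (hμt := fun n => (hc n).fin μ) hp ?_) (Eventually.of_forall fun n => ?_)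
  · exact tendsto_of_tendsto_of_tendsto_of_le_of_le tendsto_const_nhds
      ENNReal.tendsto_inv_nat_nhds_zero (fun _ => zero_le) fun n => (hF n).le
  · rw [← indp_eq]; exact h1 _ _

theorem dense_ind {ι : Type} {B : ι → Subgroup G} (hB : Bas B) :
    (Submodule.span ℂ (Set.range fun x : G × ι => ind μ (x.1 • (B x.2 : Set G)))).topologicalClosure
      = ⊤ :=
  eq_top_iff.2 fun f _ => dense_step μ 2 (by simp) hB _ (Submodule.isClosed_topologicalClosure _)
    (fun i g => Submodule.le_topologicalClosure _ (Submodule.subset_span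
      (Set.mem_range_self (f := fun x : G × ι => ind μ (x.1 • (B x.2 : Set G))) (g, i)))) f

lemma separable : TopologicalSpace.SeparableSpace (H μ) :=
  haveI : Fact ((2 : ℝ≥0∞) ≠ ∞) := ⟨by simp⟩
  inferInstance

lemma cont_lam (ξ : H μ) : Continuous fun g => lam μ g ξ := by
  have := regular μ
  let m : C(G × G, G) := ⟨fun x => x.1⁻¹ * x.2, by fun_prop⟩
  exact Continuous.compMeasurePreservingLp (g := m.curry) continuous_const m.curry.continuous
    (fun g => measurePreserving_mul_left μ g⁻¹) (by simp)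

lemma integrable_lam {f : G → ℂ} (hf : Integrable f μ) (ξ : H μ) :
    Integrable (fun g => f g • lam μ g ξ) μ :=
  (hf.norm.mul_const ‖ξ‖).mono' (hf.1.smul (cont_lam μ ξ).aestronglyMeasurable)
    (Eventually.of_forall fun g => by rw [norm_smul, norm_lam])

/-- the integrated form of the left regular representation -/
def piL : Lp ℂ 1 μ →L[ℂ] H μ →L[ℂ] H μ :=
  LinearMap.mkContinuous₂ (LinearMap.mk₂ ℂ (fun f ξ => ∫ g, f g • lam μ g ξ ∂μ)
    (fun f f' ξ => by
      rw [← integral_add (integrable_lam μ (L1.integrable_coeFn f) ξ)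
        (integrable_lam μ (L1.integrable_coeFn f') ξ)]
      refine integral_congr_ae ?_
      filter_upwards [Lp.coeFn_add f f'] with g hg
      rw [hg, Pi.add_apply, add_smul])
    (fun c f ξ => by
      rw [← integral_smul]
      refine integral_congr_ae ?_
      filter_upwards [Lp.coeFn_smul c f] with g hg
      rw [hg, Pi.smul_apply, smul_assoc])
    (fun f ξ η => by
      rw [← integral_add (integrable_lam μ (L1.integrable_coeFn f) ξ)
        (integrable_lam μ (L1.integrable_coeFn f) η)]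
      simp only [map_add, smul_add])
    (fun c f ξ => by
      rw [← integral_smul]
      simp only [map_smul, smul_comm c])) 1 fun f ξ => by
    refine (norm_integral_le_integral_norm _).trans (le_of_eq ?_)
    simp only [norm_smul, norm_lam]
    rw [integral_mul_const, one_mul, L1.norm_eq_integral_norm]

lemma piL_apply (f : Lp ℂ 1 μ) (ξ : H μ) : piL μ f ξ = ∫ g, f g • lam μ g ξ ∂μ := rfl

lemma inner_piL (f : Lp ℂ 1 μ) (ξ η : H μ) :
    inner ℂ η (piL μ f ξ) = ∫ g, f g * inner ℂ η (leftReg μ g ξ) ∂μ := by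
  rw [piL_apply, ← integral_inner (integrable_lam μ (L1.integrable_coeFn f) ξ)]
  simp only [inner_smul_right, lam_apply]

lemma cstar_range : CstarRed μ = closure (Set.range (piL μ)) := by
  unfold CstarRed closureOfL1
  congr 1
  ext T
  refine ⟨fun ⟨f, hf, h⟩ => ⟨hf.toL1 f, ?_⟩, ?_⟩
  · ext1 ξ
    refine ext_inner_left ℂ fun η => ?_
    rw [inner_piL, h]
    refine integral_congr_ae ?_
    filter_upwards [hf.coeFn_toL1] with g hg
    rw [hg]
  · rintro ⟨f, rfl⟩
    exact ⟨f, L1.integrable_coeFn f, inner_piL μ f⟩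

lemma piL_coset {K : Subgroup G} (hK : CO (K : Set G)) (g : G) :
    piL μ (indp μ 1 (g • (K : Set G))) = (μ.real (K : Set G) : ℂ) • (lam μ g * pr μ K) := by
  ext1 ξ
  let φ : G → ℂ := (K : Set G).indicator fun _ => 1
  have hφ : Integrable φ μ :=
    (integrable_indicator_iff hK.meas).2 (integrableOn_const (hK.fin μ))
  have h1 : ∀ h : G, lam μ h (∫ x, φ x • lam μ x ξ ∂μ) = ∫ x, φ (h⁻¹ * x) • lam μ x ξ ∂μ := by
    intro h
    rw [← (lam μ h).integral_comp_comm (integrable_lam μ hφ ξ),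
      ← integral_mul_left_eq_self (fun x => φ (h⁻¹ * x) • lam μ x ξ) h]
    simp only [map_smul, lam_lam, inv_mul_cancel_left]
  have h2 : pr μ K (∫ x, φ x • lam μ x ξ ∂μ) = ∫ x, φ x • lam μ x ξ ∂μ := by
    refine (pr_eq μ).2 fun u hu => ?_
    rw [h1]
    congr 1
    funext x
    have : u⁻¹ * x ∈ K ↔ x ∈ K := K.mul_mem_cancel_left (K.inv_mem hu)
    by_cases hx : x ∈ K <;> simp [φ, hx, this]
  have h3 : pr μ K (∫ x, φ x • lam μ x ξ ∂μ) = (μ.real (K : Set G) : ℂ) • pr μ K ξ := by
    rw [← (pr μ K).integral_comp_comm (integrable_lam μ hφ ξ)]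
    have : (fun x => pr μ K (φ x • lam μ x ξ)) = (K : Set G).indicator fun _ => pr μ K ξ := by
      funext x
      by_cases hx : x ∈ K
      · have := congrArg (fun T : H μ →L[ℂ] H μ => T ξ) (pr_lam μ hx)
        simpa [φ, hx] using this
      · simp [φ, hx]
    rw [this, integral_indicator_const _ hK.meas, Complex.coe_smul]
    rfl
  have h4 : piL μ (indp μ 1 (g • (K : Set G))) ξ = lam μ g (∫ x, φ x • lam μ x ξ ∂μ) := by
    rw [h1, piL_apply]
    refine integral_congr_ae ?_
    filter_upwards [indp_ae μ 1 (hK.smul g).meas ((hK.smul g).fin μ)] with x hx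
    rw [hx]
    by_cases h : g⁻¹ * x ∈ K <;> simp [φ, h, mem_coset]
  rw [h4, ← h2, h3, map_smul]
  rfl

/-- the reduced group C*-algebra is the closed span of the operators `lam g * pr (B i)` -/
theorem cstar_eq {ι : Type} {B : ι → Subgroup G} (hB : Bas B) :
    CstarRed μ = closure (Submodule.span ℂ
      (Set.range fun x : G × ι => lam μ x.1 * pr μ (B x.2)) : Set (H μ →L[ℂ] H μ)) := by
  rw [cstar_range]
  apply Set.Subset.antisymm
  · refine closure_minimal ?_ isClosed_closure
    rintro _ ⟨f, rfl⟩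
    refine dense_step μ 1 (by simp) hB ((Submodule.span ℂ (Set.range fun x : G × ι =>
      lam μ x.1 * pr μ (B x.2))).topologicalClosure.comap (piL μ).toLinearMap)
      ((Submodule.isClosed_topologicalClosure _).preimage (piL μ).continuous) (fun i g => ?_) f
    rw [Submodule.mem_comap, ContinuousLinearMap.coe_coe, piL_coset μ (hB.1 i)]
    exact Submodule.smul_mem _ _
      (Submodule.le_topologicalClosure _ (Submodule.subset_span ⟨(g, i), rfl⟩))
  · refine closure_mono (show _ ≤ (piL μ).toLinearMap.range from Submodule.span_le.2 ?_)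
    rintro _ ⟨⟨g, i⟩, rfl⟩
    refine ⟨(μ.real (B i : Set G) : ℂ)⁻¹ • indp μ 1 (g • (B i : Set G)), ?_⟩
    rw [map_smul, ContinuousLinearMap.coe_coe, piL_coset μ (hB.1 i), smul_smul,
      inv_mul_cancel₀ (by exact_mod_cast ((hB.1 i).pos' μ).ne'), one_smul]

end Pool.Agent.Lib.MP_9a581e_an.An88
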