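import Mathlib

set_option autoImplicit false

namespace Pool.Agent.Lib.MP_9a581e_an.Grp

open Submodule MulAction

variable {H : Type} [NormedAddCommGroup H] [InnerProductSpace ℂ H] [CompleteSpace H]

variable {G : Type} [Group G] {Ty : Type} [MulAction G Ty]

/-- the analytic facts on the regular representation and the projections of the subgroups `K T` -/
structure Sys (lam : G →* (H →L[ℂ] H)) (p : Ty → H →L[ℂ] H) (K : Ty → Subgroup G) : Prop where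
  lam_star : ∀ g, star (lam g) = lam g⁻¹
  p_star : ∀ T, star (p T) = p T
  p_idem : ∀ T, p T * p T = p T
  lam_p : ∀ T, ∀ k ∈ K T, lam k * p T = p T
  fix : ∀ T x, (∀ k ∈ K T, lam k x = x) → p T x = x
  equiv : ∀ g T, lam g * p T = p (g • T) * lam g
  avg : ∀ S T, p S * p T ∈ span ℂ {a | ∃ k ∈ K S, a = lam k * p T}
  dense : Dense (span ℂ {y | ∃ T x, y = p T x} : Set H)
  vec : ∀ T, ∃ y : G → H, (∀ g, y g ≠ 0) ∧ (∀ g, p T (y g) = y g) ∧
    ∀ s g h, (∀ k ∈ K T, ∀ k' ∈ K T, k * g ≠ s * k' * h) → inner ℂ (y g) (lam s (y h)) = 0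

/-- the combinatorial facts on the family of subgroups `K T` -/
structure Comb (size : Ty → ℕ) (sub : Ty → Set Ty) (K : Ty → Subgroup G) : Prop where
  size_smul : ∀ (g : G) T, size (g • T) = size T
  sub_fin : ∀ S, (sub S).Finite
  sub_size : ∀ S, ∀ S' ∈ sub S, size S' < size S
  K_le : ∀ S, ∀ S' ∈ sub S, K S ≤ K S'
  sub_stab : ∀ S, ∀ S' ∈ sub S, K S' ≤ stabilizer G S
  fin : ∀ S, 1 ≤ size S → Finite (stabilizer G S ⧸ (K S).subgroupOf (stabilizer G S))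
  fact : ∀ S T, 1 ≤ size S → size T ≤ size S → T ≠ S →
    ∃ S' ∈ sub S, ∀ k ∈ K S', ∃ k₁ ∈ K S, ∃ k₂ ∈ K T, k = k₁ * k₂
  K_stab : ∀ S, K S ≤ stabilizer G S
  orb : ∀ S, 1 ≤ size S → (orbit G S).Infinite
  nz : ∀ N, ∃ S, N < size S ∧ ∃ k₁ ∈ stabilizer G S, ∃ k₂ ∈ stabilizer G S, Commute k₁ k₂ ∧
    k₁ ∉ K S ∧ k₂ ∉ K S ∧ k₁ * k₂ ∉ K S ∧ ∀ S' ∈ sub S, k₁ ∈ K S' ∨ k₂ ∈ K S'

/-- the span of the operators `lam g * p T` with `T` in `Z` -/
def L (lam : G →* (H →L[ℂ] H)) (p : Ty → H →L[ℂ] H) (Z : Set Ty) : Submodule ℂ (H →L[ℂ] H) :=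
  span ℂ {a | ∃ g, ∃ T ∈ Z, a = lam g * p T}

/-- the span of the operators `lam s * p S` with `s` stabilising `S` -/
def B (lam : G →* (H →L[ℂ] H)) (p : Ty → H →L[ℂ] H) (S : Ty) : Submodule ℂ (H →L[ℂ] H) :=
  span ℂ {a | ∃ s ∈ stabilizer G S, a = lam s * p S}

end Pool.Agent.Lib.MP_9a581e_an.Grp
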