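import Mathlib

set_option autoImplicit false

namespace Pool.Agent.Lib.MP_9a581e_an

open MeasureTheory

/-- A d-regular tree with a legal colouring: a tree `G` on the vertex set `V` and a colouring `c`
of its edges (values of `c` on non-edges play no role) that restricts to a bijection from the
edges at each vertex onto the d colours. -/
structure LegalTree (d : ℕ) where
  V : Type
  G : SimpleGraph V
  isTree : G.IsTree
  c : Sym2 V → Fin d
  legal : ∀ v, Function.Bijective (fun e : G.incidenceSet v => c e.1)

/-- The Burger-Mozes subgroup of Aut(T): automorphisms g of the tree such that at every vertex v the local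
action of g (the permutation σ of the colours with c(g e) = σ (c e) for all edges e at v) lies
in F. -/
def USub {d : ℕ} (T : LegalTree d) (F : Subgroup (Equiv.Perm (Fin d))) :
    Subgroup (T.G ≃g T.G) where
  carrier := {g | ∀ v, ∃ σ ∈ F, ∀ w, T.G.Adj v w → T.c s(g v, g w) = σ (T.c s(v, w))}
  one_mem' := fun _ => ⟨1, F.one_mem, fun _ _ => rfl⟩
  mul_mem' := by
    intro g h hg hh v
    obtain ⟨σ, hσ, h1⟩ := hh v
    obtain ⟨τ, hτ, h2⟩ := hg (h v)
    refine ⟨τ * σ, F.mul_mem hτ hσ, fun w hw => ?_⟩
    have := h2 (h w) (h.map_adj_iff.2 hw)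
    rw [h1 w hw] at this
    exact this
  inv_mem' := by
    intro g hg v
    obtain ⟨σ, hσ, h1⟩ := hg (g.symm v)
    refine ⟨σ⁻¹, F.inv_mem hσ, fun w hw => ?_⟩
    have := h1 (g.symm w) (g.symm.map_adj_iff.2 hw)
    rw [g.apply_symm_apply, g.apply_symm_apply] at this
    rw [this]
    exact (σ.symm_apply_apply _).symm

/-- The Burger-Mozes group U(F), as a type. -/
def U {d : ℕ} (T : LegalTree d) (F : Subgroup (Equiv.Perm (Fin d))) : Type := USub T F

/-- U(F) is a group under composition. -/
instance {d : ℕ} (T : LegalTree d) (F : Subgroup (Equiv.Perm (Fin d))) : Group (U T F) :=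
  Subgroup.toGroup (USub T F)

/-- The vertex set carries the discrete topology. -/
instance {d : ℕ} (T : LegalTree d) : TopologicalSpace T.V := ⊥

instance {d : ℕ} (T : LegalTree d) : DiscreteTopology T.V := ⟨rfl⟩

/-- U(F) carries the topology of pointwise convergence on vertices. -/
instance {d : ℕ} (T : LegalTree d) (F : Subgroup (Equiv.Perm (Fin d))) :
    TopologicalSpace (U T F) :=
  TopologicalSpace.induced (fun (g : U T F) (v : T.V) => g.1 v) Pi.topologicalSpace

theorem continuous_eval {d : ℕ} (T : LegalTree d) (F : Subgroup (Equiv.Perm (Fin d))) (v : T.V) :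
    Continuous (fun g : U T F => g.1 v) :=
  (continuous_apply v).comp continuous_induced_dom

instance {d : ℕ} (T : LegalTree d) (F : Subgroup (Equiv.Perm (Fin d))) :
    IsTopologicalGroup (U T F) where
  continuous_mul := by
    refine continuous_induced_rng.2 (continuous_pi fun v => ?_)
    refine continuous_discrete_rng.2 fun w => ?_
    have : (fun p : U T F × U T F => (p.1 * p.2).1 v) ⁻¹' {w} =
        ⋃ u, ((fun p : U T F × U T F => p.2.1 v) ⁻¹' {u} ∩
          (fun p : U T F × U T F => p.1.1 u) ⁻¹' {w}) := by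
      ext p
      simp
      rfl
    refine (show IsOpen ((fun p : U T F × U T F => (p.1 * p.2).1 v) ⁻¹' {w}) from ?_)
    rw [this]
    exact isOpen_iUnion fun u =>
      (((continuous_eval T F v).comp continuous_snd).isOpen_preimage _ (isOpen_discrete _)).inter
        (((continuous_eval T F u).comp continuous_fst).isOpen_preimage _ (isOpen_discrete _))
  continuous_inv := by
    refine continuous_induced_rng.2 (continuous_pi fun v => ?_)
    refine continuous_discrete_rng.2 fun w => ?_
    have : (fun g : U T F => (g⁻¹).1 v) ⁻¹' {w} = (fun g : U T F => g.1 w) ⁻¹' {v} := by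
      ext g
      exact (g.1.toEquiv.symm_apply_eq).trans eq_comm
    refine (show IsOpen ((fun g : U T F => (g⁻¹).1 v) ⁻¹' {w}) from ?_)
    rw [this]
    exact (continuous_eval T F w).isOpen_preimage _ (isOpen_discrete _)

/-- U(F) carries its Borel sigma-algebra. -/
instance {d : ℕ} (T : LegalTree d) (F : Subgroup (Equiv.Perm (Fin d))) :
    MeasurableSpace (U T F) := borel _

instance {d : ℕ} (T : LegalTree d) (F : Subgroup (Equiv.Perm (Fin d))) :
    BorelSpace (U T F) := ⟨rfl⟩

section Cstar

/-- For a family π of isometries of a Hilbert space H indexed by G, the operator norm closure of the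
set of operators π(f) = ∫ f(g) π(g) dμ(g) (weak integral) with f integrable. -/
def closureOfL1 {G H : Type} [MeasurableSpace G] (μ : Measure G) [NormedAddCommGroup H]
    [InnerProductSpace ℂ H] (π : G → H →ₗᵢ[ℂ] H) : Set (H →L[ℂ] H) :=
  closure {T | ∃ f : G → ℂ, Integrable f μ ∧
    ∀ ξ η : H, inner ℂ η (T ξ) = ∫ g, f g * inner ℂ η (π g ξ) ∂μ}

/-- Two sets of bounded operators on Hilbert spaces H and K are carried onto each other by a
star-isomorphism B(H) → B(K) (which restricts to a star-isomorphism between them). -/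
def StarIso {H K : Type} [NormedAddCommGroup H] [InnerProductSpace ℂ H] [CompleteSpace H]
    [NormedAddCommGroup K] [InnerProductSpace ℂ K] [CompleteSpace K]
    (A : Set (H →L[ℂ] H)) (B : Set (K →L[ℂ] K)) : Prop :=
  ∃ Φ : (H →L[ℂ] H) ≃⋆ₐ[ℂ] (K →L[ℂ] K), Φ '' A = B

variable {G : Type} [Group G] [TopologicalSpace G] [IsTopologicalGroup G] [MeasurableSpace G]
  [BorelSpace G] (μ : Measure G) [μ.IsHaarMeasure]

/-- The left regular representation on L²(G): (λ(g) ξ)(x) = ξ(g⁻¹ x). -/
noncomputable def leftReg (g : G) : Lp ℂ 2 μ →ₗᵢ[ℂ] Lp ℂ 2 μ :=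
  Lp.compMeasurePreservingₗᵢ ℂ (fun x => g⁻¹ * x) (measurePreserving_mul_left μ g⁻¹)

/-- The reduced group C*-algebra: the operator norm closure of the image of L¹(G) under the left
regular representation. -/
def CstarRed : Set (Lp ℂ 2 μ →L[ℂ] Lp ℂ 2 μ) := closureOfL1 μ (leftReg μ)

/-- The reduced group C*-algebras of G and H are star-isomorphic, through a star-isomorphism
B(L²(G)) → B(L²(H)). -/
def CstarRedIso {H : Type} [Group H] [TopologicalSpace H] [IsTopologicalGroup H]
    [MeasurableSpace H] [BorelSpace H] (ν : Measure H) [ν.IsHaarMeasure] : Prop :=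
  StarIso (CstarRed μ) (CstarRed ν)

end Cstar

/-- Permutation isomorphism: a bijection of the underlying sets (so d₁ = d₂) conjugating F₁
onto F₂. -/
def PermIso {d₁ d₂ : ℕ} (F₁ : Subgroup (Equiv.Perm (Fin d₁)))
    (F₂ : Subgroup (Equiv.Perm (Fin d₂))) : Prop :=
  ∃ e : Fin d₁ ≃ Fin d₂, ∀ σ : Equiv.Perm (Fin d₁), σ ∈ F₁ ↔ e.permCongr σ ∈ F₂

end Pool.Agent.Lib.MP_9a581e_an
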