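import Mathlib
import Pool.Agent.Lib.MP_9a581e_an.Defs

set_option autoImplicit false
set_option linter.unusedSectionVars false

namespace Pool.Agent.Lib.MP_9a581e_an

open MeasureTheory

section Cstar

variable {G H : Type} [Group G] [TopologicalSpace G] [IsTopologicalGroup G] [MeasurableSpace G]
  [BorelSpace G] [Group H] [TopologicalSpace H] [IsTopologicalGroup H] [MeasurableSpace H]
  [BorelSpace H] (μ : Measure G) [μ.IsHaarMeasure] (ν : Measure H) [ν.IsHaarMeasure]

def imageL1 : Set (Lp ℂ 2 μ →L[ℂ] Lp ℂ 2 μ) :=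
  {T | ∃ f : G → ℂ, Integrable f μ ∧
    ∀ ξ η : Lp ℂ 2 μ, inner ℂ η (T ξ) = ∫ g, f g * inner ℂ η (leftReg μ g ξ) ∂μ}

noncomputable def unitaryOf (e : G ≃* H) (h1 : MeasurePreserving e μ ν)
    (h2 : MeasurePreserving e.symm ν μ) : Lp ℂ 2 μ ≃ₗᵢ[ℂ] Lp ℂ 2 ν :=
  LinearIsometryEquiv.ofSurjective (Lp.compMeasurePreservingₗᵢ ℂ e.symm h2) (by
    intro ξ
    refine ⟨Lp.compMeasurePreserving e h1 ξ, ?_⟩
    change Lp.compMeasurePreserving e.symm h2 (Lp.compMeasurePreserving e h1 ξ) = ξ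
    rw [← Lp.compMeasurePreserving_comp_apply]
    have : (e : G → H) ∘ e.symm = id := by funext x; simp
    simp only [this]
    exact Lp.compMeasurePreserving_id_apply ξ)

lemma unitaryOf_apply (e : G ≃* H) (h1 : MeasurePreserving e μ ν)
    (h2 : MeasurePreserving e.symm ν μ) (ξ : Lp ℂ 2 μ) :
    unitaryOf μ ν e h1 h2 ξ = Lp.compMeasurePreserving e.symm h2 ξ := rfl

lemma unitaryOf_leftReg (e : G ≃* H) (h1 : MeasurePreserving e μ ν)
    (h2 : MeasurePreserving e.symm ν μ) (g : G) (ξ : Lp ℂ 2 μ) :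
    unitaryOf μ ν e h1 h2 (leftReg μ g ξ) = leftReg ν (e g) (unitaryOf μ ν e h1 h2 ξ) := by
  change Lp.compMeasurePreserving e.symm h2
      (Lp.compMeasurePreserving (fun x => g⁻¹ * x) (measurePreserving_mul_left μ g⁻¹) ξ) =
    Lp.compMeasurePreserving (fun x => (e g)⁻¹ * x) (measurePreserving_mul_left ν (e g)⁻¹)
      (Lp.compMeasurePreserving e.symm h2 ξ)
  rw [← Lp.compMeasurePreserving_comp_apply, ← Lp.compMeasurePreserving_comp_apply]
  have : ((fun x => g⁻¹ * x) ∘ e.symm) = (e.symm ∘ fun x => (e g)⁻¹ * x) := by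
    funext x; simp
  simp only [this]

lemma conj_mem (e : G ≃* H) (he : Continuous e) (he' : Continuous e.symm)
    (h2 : MeasurePreserving e.symm ν μ) (W : Lp ℂ 2 μ ≃ₗᵢ[ℂ] Lp ℂ 2 ν)
    (hW : ∀ g ξ, W (leftReg μ g ξ) = leftReg ν (e g) (W ξ))
    (T : Lp ℂ 2 μ →L[ℂ] Lp ℂ 2 μ) (hT : T ∈ imageL1 μ) :
    W.conjStarAlgEquiv T ∈ imageL1 ν := by
  obtain ⟨f, hf, h⟩ := hT
  let E : H ≃ᵐ G := (Homeomorph.mk e.symm.toEquiv he' he).toMeasurableEquiv
  have hE : MeasurePreserving E ν μ := h2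
  refine ⟨f ∘ e.symm, h2.integrable_comp_of_integrable hf, fun ξ η => ?_⟩
  rw [LinearIsometryEquiv.conjStarAlgEquiv_apply_apply]
  have h3 : inner ℂ η (W (T (W.symm ξ))) = inner ℂ (W.symm η) (T (W.symm ξ)) := by
    rw [← W.inner_map_map (W.symm η), W.apply_symm_apply]
  rw [h3, h, ← hE.integral_comp']
  refine integral_congr_ae (Filter.Eventually.of_forall fun x => ?_)
  have h4 : (E x) = e.symm x := rfl
  simp only [h4, Function.comp]
  congr 1
  rw [← W.inner_map_map (W.symm η), W.apply_symm_apply, hW, W.apply_symm_apply, e.apply_symm_apply]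

theorem cstar_iso (e : G ≃* H) (he : Continuous e) (he' : Continuous e.symm)
    (h1 : MeasurePreserving e μ ν) :
    ∃ Φ : (Lp ℂ 2 μ →L[ℂ] Lp ℂ 2 μ) ≃⋆ₐ[ℂ] (Lp ℂ 2 ν →L[ℂ] Lp ℂ 2 ν),
      Φ '' CstarRed μ = CstarRed ν := by
  let E : G ≃ᵐ H := (Homeomorph.mk e.toEquiv he he').toMeasurableEquiv
  have hE : MeasurePreserving E μ ν := h1
  have h2 : MeasurePreserving e.symm ν μ := hE.symm
  let W := unitaryOf μ ν e h1 h2
  have hW : ∀ g ξ, W (leftReg μ g ξ) = leftReg ν (e g) (W ξ) := unitaryOf_leftReg μ ν e h1 h2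
  have hW' : ∀ g ξ, W.symm (leftReg ν g ξ) = leftReg μ (e.symm g) (W.symm ξ) := by
    intro g ξ
    apply W.injective
    rw [hW, W.apply_symm_apply, W.apply_symm_apply, e.apply_symm_apply]
  have hc : ∀ {A B : Type} [NormedAddCommGroup A] [InnerProductSpace ℂ A] [CompleteSpace A]
      [NormedAddCommGroup B] [InnerProductSpace ℂ B] [CompleteSpace B] (X : A ≃ₗᵢ[ℂ] B),
      Continuous X.conjStarAlgEquiv := by
    intro A B _ _ _ _ _ _ X
    have : (X.conjStarAlgEquiv : (A →L[ℂ] A) → (B →L[ℂ] B)) =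
        fun x => (X : A →L[ℂ] B) ∘L x ∘L (X.symm : B →L[ℂ] A) := rfl
    rw [this]
    exact continuous_const.clm_comp (continuous_id.clm_comp continuous_const)
  let Hm : (Lp ℂ 2 μ →L[ℂ] Lp ℂ 2 μ) ≃ₜ (Lp ℂ 2 ν →L[ℂ] Lp ℂ 2 ν) :=
    Homeomorph.mk W.conjStarAlgEquiv.toEquiv (hc W) (hc W.symm)
  refine ⟨W.conjStarAlgEquiv, ?_⟩
  have h3 : W.conjStarAlgEquiv '' imageL1 μ = imageL1 ν := by
    apply Set.Subset.antisymm
    · rintro _ ⟨T, hT, rfl⟩
      exact conj_mem μ ν e he he' h2 W hW T hT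
    · intro S hS
      refine ⟨W.symm.conjStarAlgEquiv S, conj_mem ν μ e.symm he' he h1 W.symm hW' S hS, ?_⟩
      exact W.conjStarAlgEquiv.apply_symm_apply S
  have h4 := Hm.image_closure (imageL1 μ)
  have h5 : Hm '' imageL1 μ = imageL1 ν := h3
  rw [h5] at h4
  exact h4

end Cstar

section Trees

variable {d : ℕ} (T : LegalTree d)

lemma exists_nbr (i : Fin d) (v : T.V) : ∃ w, T.G.Adj v w ∧ T.c s(v, w) = i := by
  obtain ⟨⟨e, he⟩, h⟩ := (T.legal v).2 i
  obtain ⟨w, rfl⟩ := Sym2.mem_iff_exists.1 he.2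
  exact ⟨w, he.1, h⟩

/-- the neighbour of `v` along the edge of colour `i` -/
noncomputable def LegalTree.s (i : Fin d) (v : T.V) : T.V := (exists_nbr T i v).choose

lemma adj_s (i : Fin d) (v : T.V) : T.G.Adj v (T.s i v) := (exists_nbr T i v).choose_spec.1

lemma c_s (i : Fin d) (v : T.V) : T.c s(v, T.s i v) = i := (exists_nbr T i v).choose_spec.2

lemma eq_s {v w : T.V} (h : T.G.Adj v w) : w = T.s (T.c s(v, w)) v := by
  have h1 : s(v, w) ∈ T.G.incidenceSet v := by simpa using h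
  have h2 : s(v, T.s (T.c s(v, w)) v) ∈ T.G.incidenceSet v := by simpa using adj_s T _ v
  have := (T.legal v).1 (a₁ := ⟨_, h1⟩) (a₂ := ⟨_, h2⟩) (by simp only [c_s])
  have h3 : s(v, w) = s(v, T.s (T.c s(v, w)) v) := congrArg Subtype.val this
  exact Sym2.congr_right.1 h3

lemma s_s (i : Fin d) (v : T.V) : T.s i (T.s i v) = v := by
  have h := eq_s T (adj_s T i v).symm
  rw [Sym2.eq_swap, c_s] at h
  exact h.symm

lemma s_inj {i j : Fin d} {v : T.V} (h : T.s i v = T.s j v) : i = j := by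
  rw [← c_s T i v, h, c_s]

lemma induct (v0 : T.V) (P : T.V → Prop) (h0 : P v0) (hs : ∀ i v, P v → P (T.s i v)) (w : T.V) :
    P w := by
  obtain ⟨p⟩ := T.isTree.connected.preconnected w v0
  induction p with
  | nil => exact h0
  | cons h p ih =>
    rw [eq_s T h.symm]
    exact hs _ _ (ih h0)

lemma mem_U {F : Subgroup (Equiv.Perm (Fin d))} (g : U T F) (v : T.V) :
    ∃ σ ∈ F, ∀ i, g.1 (T.s i v) = T.s (σ i) (g.1 v) := by
  obtain ⟨σ, hσ, h⟩ := g.2 v
  refine ⟨σ, hσ, fun i => ?_⟩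
  have h1 := h _ (adj_s T i v)
  rw [c_s] at h1
  rw [← h1]
  exact eq_s T (g.1.map_adj_iff.2 (adj_s T i v))

/-- build an element of `U` from a permutation of the vertices with good local actions -/
def mkU {F : Subgroup (Equiv.Perm (Fin d))} (f : T.V ≃ T.V)
    (hf : ∀ v, ∃ σ ∈ F, ∀ i, f (T.s i v) = T.s (σ i) (f v)) : U T F :=
  ⟨⟨f, by
      intro v w
      obtain ⟨σ, -, h⟩ := hf v
      constructor
      · intro h1
        have h2 := eq_s T h1
        have h3 := h (σ.symm (T.c s(f v, f w)))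
        rw [Equiv.apply_symm_apply, ← h2] at h3
        rw [← f.injective h3]
        exact adj_s T _ v
      · intro h1
        rw [eq_s T h1, h]
        exact adj_s T _ _⟩, by
    intro v
    obtain ⟨σ, hσ, h⟩ := hf v
    refine ⟨σ, hσ, fun w hw => ?_⟩
    change T.c s(f v, f w) = _
    conv_lhs => rw [eq_s T hw, h, c_s]⟩

lemma mkU_apply {F : Subgroup (Equiv.Perm (Fin d))} (f : T.V ≃ T.V)
    (hf : ∀ v, ∃ σ ∈ F, ∀ i, f (T.s i v) = T.s (σ i) (f v)) (v : T.V) :
    (mkU T f hf).1 v = f v := rfl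

lemma U_ext {F : Subgroup (Equiv.Perm (Fin d))} {g h : U T F} (H : ∀ v, g.1 v = h.1 v) : g = h :=
  Subtype.ext (RelIso.ext H)

theorem locallyCompact (F : Subgroup (Equiv.Perm (Fin d))) : LocallyCompactSpace (U T F) := by
  obtain ⟨v0⟩ := T.isTree.connected.nonempty
  let K : Set (U T F) := {g | g.1 v0 = v0}
  have hK : K ∈ nhds (1 : U T F) :=
    ((continuous_eval T F v0).isOpen_preimage {v0} (isOpen_discrete _)).mem_nhds rfl
  refine IsCompact.locallyCompactSpace_of_mem_nhds_of_group ?_ hK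
  have hind : Topology.IsInducing (fun (g : U T F) (v : T.V) => g.1 v) := ⟨rfl⟩
  rw [hind.isCompact_iff]
  have hfin : ∀ w, ∃ B : Set T.V, B.Finite ∧ ∀ g ∈ K, g.1 w ∈ B := by
    refine induct T v0 _ ⟨{v0}, Set.finite_singleton _, fun g hg => hg⟩ ?_
    rintro i v ⟨B, hB, h⟩
    refine ⟨⋃ j, T.s j '' B, Set.finite_iUnion fun j => hB.image _, fun g hg => ?_⟩
    obtain ⟨σ, -, h1⟩ := mem_U T g v
    rw [h1]
    exact Set.mem_iUnion.2 ⟨σ i, Set.mem_image_of_mem _ (h g hg)⟩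
  choose B hB1 hB2 using hfin
  have hcomp : IsCompact (Set.pi Set.univ B) := isCompact_univ_pi fun w => (hB1 w).isCompact
  refine hcomp.of_isClosed_subset ?_ ?_
  · have : (fun (g : U T F) (v : T.V) => g.1 v) '' K =
        {f : T.V → T.V | f v0 = v0} ∩ ((⋂ a, ⋂ b, {f : T.V → T.V | f a = f b → a = b}) ∩
          ⋂ v, ⋃ σ : F, ⋂ i, {f : T.V → T.V | f (T.s i v) = T.s (σ.1 i) (f v)}) := by
      ext f
      simp only [Set.mem_image, Set.mem_inter_iff, Set.mem_ofPred_eq, Set.mem_iInter,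
        Set.mem_iUnion]
      constructor
      · rintro ⟨g, hg, rfl⟩
        refine ⟨hg, fun a b h => g.1.injective h, fun v => ?_⟩
        obtain ⟨σ, hσ, h⟩ := mem_U T g v
        exact ⟨⟨σ, hσ⟩, h⟩
      · rintro ⟨h0, h1, h2⟩
        have hsurj : Function.Surjective f := by
          refine induct T v0 (fun w => ∃ u, f u = w) ⟨v0, h0⟩ ?_
          rintro i _ ⟨u, rfl⟩
          obtain ⟨σ, h⟩ := h2 u
          exact ⟨T.s (σ.1.symm i) u, by rw [h, Equiv.apply_symm_apply]⟩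
        refine ⟨mkU T (Equiv.ofBijective f ⟨fun a b h => h1 a b h, hsurj⟩) fun v => ?_, h0, rfl⟩
        obtain ⟨σ, h⟩ := h2 v
        exact ⟨σ.1, σ.2, h⟩
    rw [this]
    have key : ∀ (a b : T.V) (S : Set (T.V × T.V)),
        IsClosed ((fun f : T.V → T.V => (f a, f b)) ⁻¹' S) := fun a b S =>
      (isClosed_discrete S).preimage ((continuous_apply a).prodMk (continuous_apply b))
    refine IsClosed.inter (key v0 v0 {p | p.1 = v0}) (IsClosed.inter ?_ ?_)
    · exact isClosed_iInter fun a => isClosed_iInter fun b => key a b {p | p.1 = p.2 → a = b}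
    · exact isClosed_iInter fun v => isClosed_iUnion_of_finite fun σ => isClosed_iInter fun i =>
        key (T.s i v) v {p | p.1 = T.s (σ.1 i) p.2}
  · rintro _ ⟨g, hg, rfl⟩ w _
    exact hB2 w g hg

end Trees

section Build

/-- data presenting a legally coloured tree by involutions and a height function -/
structure TreeData (d : ℕ) (V : Type) where
  s : Fin d → V → V
  h : V → ℕ
  root : V
  inv : ∀ i v, s i (s i v) = v
  ne : ∀ i v, h (s i v) ≠ h v
  uniq : ∀ i j v, h (s i v) < h v → h (s j v) < h v → i = j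
  down : ∀ v, v ≠ root → ∃ i, h (s i v) < h v

variable {d : ℕ} {V : Type} (D : TreeData d V)

lemma TreeData.inj {i j : Fin d} {v : V} (h : D.s i v = D.s j v) : i = j := by
  rcases lt_or_gt_of_ne (D.ne i v) with h1 | h1
  · exact D.uniq i j v h1 (h ▸ h1)
  · refine D.uniq i j (D.s i v) ?_ ?_
    · rw [D.inv]; exact h1
    · rw [h, D.inv, ← h]; exact h1

def TreeData.graph : SimpleGraph V where
  Adj v w := ∃ i, w = D.s i v
  symm := ⟨by
    rintro v _ ⟨i, rfl⟩
    exact ⟨i, (D.inv i v).symm⟩⟩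
  loopless := ⟨by
    rintro v ⟨i, h⟩
    exact D.ne i v (by rw [← h])⟩

lemma TreeData.isTree : D.graph.IsTree := by
  classical
  refine ⟨?_, ?_⟩
  · have : Nonempty V := ⟨D.root⟩
    have key : ∀ n v, D.h v = n → D.graph.Reachable v D.root := by
      intro n
      induction n using Nat.strong_induction_on with
      | _ n ih =>
        intro v hv
        by_cases h : v = D.root
        · rw [h]
        · obtain ⟨i, hi⟩ := D.down v h
          exact (SimpleGraph.Adj.reachable (G := D.graph) ⟨i, rfl⟩).trans (ih _ (hv ▸ hi) _ rfl)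
    exact ⟨fun u v => (key _ u rfl).trans (key _ v rfl).symm⟩
  · intro v p hp
    obtain ⟨u, hu, hmax⟩ := p.support.toFinset.exists_max_image D.h ⟨v, by simp⟩
    have hu' : u ∈ p.support := by simpa using hu
    have hq := hp.rotate hu'
    have hsup : ∀ x ∈ (p.rotate u hu').support, D.h x ≤ D.h u := by
      intro x hx
      apply hmax
      rw [List.mem_toFinset]
      exact (SimpleGraph.Walk.mem_support_rotate_iff p u hu').1 hx
    have h1 := (p.rotate u hu').adj_snd hq.not_nil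
    have h2 := ((p.rotate u hu').adj_penultimate hq.not_nil).symm
    obtain ⟨i, hi⟩ := h1
    obtain ⟨j, hj⟩ := h2
    have h3 : D.h (D.s i u) ≤ D.h u := hi ▸ hsup _ (SimpleGraph.Walk.getVert_mem_support _ _)
    have h4 : D.h (D.s j u) ≤ D.h u := hj ▸ hsup _ (SimpleGraph.Walk.getVert_mem_support _ _)
    have := D.uniq i j u (lt_of_le_of_ne h3 (D.ne i u)) (lt_of_le_of_ne h4 (D.ne j u))
    apply hq.snd_ne_penultimate
    rw [hi, hj, this]

open Classical in
noncomputable def TreeData.col [NeZero d] (e : Sym2 V) : Fin d :=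
  if h : ∃ i v, e = s(v, D.s i v) then h.choose else 0

lemma TreeData.col_s [NeZero d] (i : Fin d) (v : V) : D.col s(v, D.s i v) = i := by
  have h : ∃ j u, s(v, D.s i v) = s(u, D.s j u) := ⟨i, v, rfl⟩
  rw [TreeData.col, dif_pos h]
  obtain ⟨u, hu⟩ := h.choose_spec
  generalize h.choose = j at hu
  rcases Sym2.eq_iff.1 hu with ⟨h1, h2⟩ | ⟨h1, h2⟩
  · subst h1
    exact (D.inj h2).symm
  · subst h2
    apply D.inj (v := D.s i v)
    rw [← h1, D.inv]

noncomputable def TreeData.tree [NeZero d] : LegalTree d where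
  V := V
  G := D.graph
  isTree := D.isTree
  c := D.col
  legal := by
    intro v
    constructor
    · rintro ⟨e, he⟩ ⟨e', he'⟩ h
      obtain ⟨w, rfl⟩ := Sym2.mem_iff_exists.1 he.2
      obtain ⟨w', rfl⟩ := Sym2.mem_iff_exists.1 he'.2
      obtain ⟨i, rfl⟩ : D.graph.Adj v w := he.1
      obtain ⟨j, rfl⟩ : D.graph.Adj v w' := he'.1
      simp only [D.col_s] at h
      subst h
      rfl
    · intro i
      exact ⟨⟨s(v, D.s i v), (D.graph.mk'_mem_incidenceSet_left_iff).2 ⟨i, rfl⟩⟩, D.col_s i v⟩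

lemma TreeData.tree_s [NeZero d] (i : Fin d) (v : V) : D.tree.s i v = D.s i v := by
  have h := eq_s D.tree (v := v) (w := D.s i v) ⟨i, rfl⟩
  have h2 : D.tree.c s(v, D.s i v) = i := D.col_s i v
  rw [h2] at h
  exact h.symm

end Build

end Pool.Agent.Lib.MP_9a581e_an
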