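import Mathlib
import Pool.Agent.Lib.MP_9a581e_an.General

set_option autoImplicit false

namespace Pool.Agent.Lib.MP_9a581e_an.T20

open Pool.Agent.Lib.MP_9a581e_an

variable {d : ℕ} (T : LegalTree d)

/-- the half tree beyond the edge of colour `i` at `x` -/
def half (x : T.V) (i : Fin d) : Set T.V := {y | T.G.dist y (T.s i x) < T.G.dist y x}

lemma dist_s (y x : T.V) (i : Fin d) :
    T.G.dist y x = T.G.dist y (T.s i x) + 1 ∨ T.G.dist y (T.s i x) = T.G.dist y x + 1 :=
  T.isTree.dist_eq_dist_add_one_of_adj y (adj_s T i x)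

lemma dist_of_mem {y x : T.V} {i : Fin d} (h : y ∈ half T x i) :
    T.G.dist y x = T.G.dist y (T.s i x) + 1 := by
  have h1 : T.G.dist y (T.s i x) < T.G.dist y x := h
  have := dist_s T y x i
  omega

lemma dist_of_not_mem {y x : T.V} {i : Fin d} (h : y ∉ half T x i) :
    T.G.dist y (T.s i x) = T.G.dist y x + 1 := by
  have h1 : ¬ T.G.dist y (T.s i x) < T.G.dist y x := h
  have := dist_s T y x i
  omega

lemma s_ne (i : Fin d) (x : T.V) : T.s i x ≠ x := (adj_s T i x).ne'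

lemma not_mem_half_iff {y x : T.V} {i : Fin d} : y ∉ half T x i ↔ y ∈ half T (T.s i x) i := by
  change ¬ T.G.dist y (T.s i x) < T.G.dist y x ↔
    T.G.dist y (T.s i (T.s i x)) < T.G.dist y (T.s i x)
  rw [s_s]
  have := dist_s T y x i
  omega

lemma self_not_mem (x : T.V) (i : Fin d) : x ∉ half T x i := by
  change ¬ T.G.dist x (T.s i x) < T.G.dist x x
  simp

lemma s_mem (x : T.V) (i : Fin d) : T.s i x ∈ half T x i := by
  by_contra h
  exact self_not_mem T _ i ((not_mem_half_iff T).1 h)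

lemma half_uniq {y x : T.V} {i j : Fin d} (hi : y ∈ half T x i) (hj : y ∈ half T x j) : i = j := by
  obtain ⟨p, hp⟩ := T.isTree.connected.exists_walk_length_eq_dist y (T.s i x)
  obtain ⟨q, hq⟩ := T.isTree.connected.exists_walk_length_eq_dist y (T.s j x)
  have h1 := (p.concat (adj_s T i x).symm).isPath_of_length_eq_dist (by
    rw [SimpleGraph.Walk.length_concat, hp, dist_of_mem T hi])
  have h2 := (q.concat (adj_s T j x).symm).isPath_of_length_eq_dist (by
    rw [SimpleGraph.Walk.length_concat, hq, dist_of_mem T hj])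
  have h3 : p.concat (adj_s T i x).symm = q.concat (adj_s T j x).symm :=
    congrArg Subtype.val ((T.isTree.isAcyclic.subsingleton_path y x).elim ⟨_, h1⟩ ⟨_, h2⟩)
  have h4 := congrArg SimpleGraph.Walk.penultimate h3
  rw [SimpleGraph.Walk.penultimate_concat, SimpleGraph.Walk.penultimate_concat] at h4
  exact s_inj T h4

lemma half_exists {y x : T.V} (h : y ≠ x) : ∃ i, y ∈ half T x i := by
  obtain ⟨p, hp⟩ := T.isTree.connected.exists_walk_length_eq_dist x y
  cases p with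
  | nil => exact absurd rfl h
  | cons hadj p =>
    have key : ∀ i, T.s i x = _ → y ∈ half T x i := fun i (hi : T.s i x = p.getVert 0) => by
      change T.G.dist y (T.s i x) < T.G.dist y x
      rw [hi, SimpleGraph.Walk.getVert_zero, SimpleGraph.dist_comm,
        SimpleGraph.dist_comm (u := y), ← hp, SimpleGraph.Walk.length_cons]
      exact Nat.lt_succ_of_le (SimpleGraph.dist_le p)
    exact ⟨_, key _ (by rw [SimpleGraph.Walk.getVert_zero]; exact (eq_s T hadj).symm)⟩

lemma s_mem_iff {x : T.V} {i j : Fin d} : T.s j x ∈ half T x i ↔ j = i :=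
  ⟨fun h => half_uniq T (s_mem T x j) h, fun h => h ▸ s_mem T x j⟩

/-- a neighbour of a point of a half tree lies in it or is the base point -/
lemma nbr_half {y x : T.V} {i : Fin d} (h : y ∈ half T x i) (k : Fin d) :
    T.s k y ∈ half T x i ∨ (T.s k y = x ∧ y = T.s i x ∧ k = i) := by
  by_cases hy : y = T.s i x
  · by_cases hk : k = i
    · right
      rw [hy, hk, s_s]
      exact ⟨rfl, rfl, rfl⟩
    · left
      by_contra hcon
      rw [not_mem_half_iff, hy, s_mem_iff] at hcon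
      exact hk hcon
  left
  by_contra hcon
  obtain ⟨l, hl⟩ := half_exists T (Ne.symm hy)
  have a1 := dist_of_mem T h
  have a2 := dist_of_not_mem T hcon
  have a3 := dist_of_mem T hl
  have a4 := dist_s T x y k
  have a5 := dist_s T (T.s i x) y k
  have a6 := dist_s T (T.s l y) x i
  have a7 := dist_s T x y l
  rw [SimpleGraph.dist_comm (u := y)] at a1
  rw [SimpleGraph.dist_comm (u := y)] at a1
  rw [SimpleGraph.dist_comm (u := T.s k y)] at a2
  rw [SimpleGraph.dist_comm (u := T.s k y)] at a2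
  rw [SimpleGraph.dist_comm (u := T.s l y)] at a6
  rw [SimpleGraph.dist_comm (u := T.s l y)] at a6
  have b1 : x ∈ half T y k := by
    change T.G.dist x (T.s k y) < T.G.dist x y
    omega
  have b2 : x ∈ half T y l := by
    change T.G.dist x (T.s l y) < T.G.dist x y
    omega
  have := half_uniq T b1 b2
  subst this
  omega

lemma nbr_not_half {y x : T.V} {i : Fin d} (h : y ∉ half T x i) (k : Fin d) :
    T.s k y ∉ half T x i ∨ (y = x ∧ k = i) := by
  rcases nbr_half T ((not_mem_half_iff T).1 h) k with h1 | ⟨-, h2, h3⟩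
  · exact Or.inl ((not_mem_half_iff T).2 h1)
  · exact Or.inr ⟨by rw [h2, s_s], h3⟩

variable {F : Subgroup (Equiv.Perm (Fin d))}

lemma mul_app (g h : U T F) (v : T.V) : (g * h).1 v = g.1 (h.1 v) := rfl

lemma one_app (v : T.V) : (1 : U T F).1 v = v := rfl

lemma inv_app (g : U T F) (v : T.V) : (g⁻¹).1 (g.1 v) = v := g.1.symm_apply_apply v

lemma app_inv (g : U T F) (v : T.V) : g.1 ((g⁻¹).1 v) = v := g.1.apply_symm_apply v

lemma dist_app_le (g : U T F) (u v : T.V) : T.G.dist (g.1 u) (g.1 v) ≤ T.G.dist u v := by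
  obtain ⟨p, hp⟩ := T.isTree.connected.exists_walk_length_eq_dist u v
  have := SimpleGraph.dist_le (p.map g.1.toHom)
  rwa [SimpleGraph.Walk.length_map, hp] at this

lemma dist_app (g : U T F) (u v : T.V) : T.G.dist (g.1 u) (g.1 v) = T.G.dist u v := by
  refine le_antisymm (dist_app_le T g u v) ?_
  have := dist_app_le T g⁻¹ (g.1 u) (g.1 v)
  rwa [inv_app, inv_app] at this

lemma app_mem_half (g : U T F) {x x' : T.V} {i j : Fin d} (h1 : g.1 x = x')
    (h2 : g.1 (T.s i x) = T.s j x') (y : T.V) : g.1 y ∈ half T x' j ↔ y ∈ half T x i := by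
  change T.G.dist (g.1 y) (T.s j x') < T.G.dist (g.1 y) x' ↔ T.G.dist y (T.s i x) < T.G.dist y x
  rw [← h2, ← h1, dist_app, dist_app]

/-- independence: an element fixing an edge can be cut along it -/
theorem cut (g : U T F) {x : T.V} {i : Fin d} (h1 : g.1 x = x) (h2 : g.1 (T.s i x) = T.s i x) :
    ∃ g1 : U T F, (∀ y ∈ half T x i, g1.1 y = g.1 y) ∧ ∀ y ∉ half T x i, g1.1 y = y := by
  classical
  have h3 : (g⁻¹).1 x = x := by rw [← h1, inv_app, h1]
  have h4 : (g⁻¹).1 (T.s i x) = T.s i x := by rw [← h2, inv_app, h2]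
  let f : T.V ≃ T.V :=
    { toFun := fun y => if y ∈ half T x i then g.1 y else y
      invFun := fun y => if y ∈ half T x i then (g⁻¹).1 y else y
      left_inv := fun y => by
        by_cases h : y ∈ half T x i
        · simp only [h, if_true, (app_mem_half T g h1 h2 y).2 h, inv_app]
        · simp only [h, if_false]
      right_inv := fun y => by
        by_cases h : y ∈ half T x i
        · simp only [h, if_true, (app_mem_half T g⁻¹ h3 h4 y).2 h, app_inv]
        · simp only [h, if_false] }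
  have f1 : ∀ y ∈ half T x i, f y = g.1 y := fun y h => if_pos h
  have f2 : ∀ y ∉ half T x i, f y = y := fun y h => if_neg h
  refine ⟨mkU T f fun v => ?_, f1, f2⟩
  by_cases h : v ∈ half T x i
  · obtain ⟨σ, hσ, hs⟩ := mem_U T g v
    refine ⟨σ, hσ, fun k => ?_⟩
    rw [f1 v h, ← hs]
    rcases nbr_half T h k with h5 | ⟨h5, -, -⟩
    · exact f1 _ h5
    · rw [h5, h1]
      exact f2 _ (self_not_mem T x i)
  · refine ⟨1, F.one_mem, fun k => ?_⟩
    rw [f2 v h]
    rcases nbr_not_half T h k with h5 | ⟨h5, h6⟩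
    · exact f2 _ h5
    · rw [h5, h6, f1 _ (s_mem T x i), h2]
      rfl

/-- the two factors of the cut -/
theorem split (g : U T F) {x : T.V} {i : Fin d} (h1 : g.1 x = x) (h2 : g.1 (T.s i x) = T.s i x) :
    ∃ g1 g2 : U T F, g = g1 * g2 ∧ (∀ y ∈ half T x i, g1.1 y = g.1 y) ∧
      (∀ y ∉ half T x i, g1.1 y = y) ∧ (∀ y ∈ half T x i, g2.1 y = y) ∧
      ∀ y ∉ half T x i, g2.1 y = g.1 y := by
  obtain ⟨g1, a1, a2⟩ := cut T g h1 h2
  refine ⟨g1, g1⁻¹ * g, by group, a1, a2, fun y hy => ?_, fun y hy => ?_⟩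
  · rw [mul_app, ← a1 y hy, inv_app]
  · rw [mul_app]
    have := a2 (g.1 y) (fun h => hy ((app_mem_half T g h1 h2 y).1 h))
    conv_lhs => rw [← this, inv_app]

lemma exists_map (v v' : T.V) (σ : Equiv.Perm (Fin d)) :
    ∃ f : T.V → T.V, f v = v' ∧ ∀ u i, f (T.s i u) = T.s (σ i) (f u) := by
  classical
  let dir : (u : T.V) → v ≠ u → Fin d := fun u h => (half_exists T h).choose
  have hdir : ∀ u h, v ∈ half T u (dir u h) := fun u h => (half_exists T h).choose_spec
  let φ : ℕ → T.V → T.V := fun n => Nat.rec (fun _ => v')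
    (fun _ ih u => if h : v ≠ u then T.s (σ (dir u h)) (ih (T.s (dir u h) u)) else v') n
  have key : ∀ u i, v ∈ half T u i →
      φ (T.G.dist v u) u = T.s (σ i) (φ (T.G.dist v (T.s i u)) (T.s i u)) := by
    intro u i h
    have hne : v ≠ u := fun e => self_not_mem T u i (e ▸ h)
    rw [dist_of_mem T h]
    change (if h : v ≠ u then T.s (σ (dir u h)) (φ _ (T.s (dir u h) u)) else v') = _
    rw [dif_pos hne, half_uniq T (hdir u hne) h]
  refine ⟨fun u => φ (T.G.dist v u) u, by simp [φ], fun u i => ?_⟩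
  by_cases h : v ∈ half T u i
  · simp only [key u i h, s_s]
  · have := key _ i ((not_mem_half_iff T).1 h)
    rw [s_s] at this
    exact this

/-- extension: every local action is realised by an element with constant local action -/
theorem extend (v v' : T.V) (σ : Equiv.Perm (Fin d)) (hσ : σ ∈ F) :
    ∃ g : U T F, g.1 v = v' ∧ ∀ u i, g.1 (T.s i u) = T.s (σ i) (g.1 u) := by
  obtain ⟨f, f0, f1⟩ := exists_map T v v' σ
  obtain ⟨f', g0, g1⟩ := exists_map T v' v σ.symm
  have l1 : ∀ u, f' (f u) = u := induct T v _ (by rw [f0, g0]) fun i u h => by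
    rw [f1, g1, h, Equiv.symm_apply_apply]
  have l2 : ∀ u, f (f' u) = u := induct T v' _ (by rw [g0, f0]) fun i u h => by
    rw [g1, f1, h, Equiv.apply_symm_apply]
  exact ⟨mkU T ⟨f, f', l1, l2⟩ fun u => ⟨σ, hσ, f1 u⟩, f0, f1⟩

/-- an element acting at `b` by a permutation fixing the colour `j`, trivially beyond the edge
of colour `j` -/
theorem extend_local (b : T.V) (j : Fin d) (ρ : Equiv.Perm (Fin d)) (hρ : ρ ∈ F) (hj : ρ j = j) :
    ∃ m : U T F, m.1 b = b ∧ (∀ l, m.1 (T.s l b) = T.s (ρ l) b) ∧ ∀ y ∈ half T b j, m.1 y = y := by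
  obtain ⟨g, g0, g1⟩ := extend T b b ρ hρ
  obtain ⟨-, m, -, -, -, a1, a2⟩ := split T g g0 (i := j) (by rw [g1, g0, hj])
  refine ⟨m, by rw [a2 b (self_not_mem T b j), g0], fun l => ?_, a1⟩
  by_cases h : l = j
  · rw [h, hj]
    exact a1 _ (s_mem T b j)
  · rw [a2 _ (fun e => h ((s_mem_iff T).1 e)), g1, g0]

/-- orbits on pairs of darts only depend on the orbits of the local group on ordered pairs -/
theorem orb {F₁ F₂ : Subgroup (Equiv.Perm (Fin d))}
    (h : ∀ σ ∈ F₁, ∀ i j, ∃ τ ∈ F₂, τ i = σ i ∧ τ j = σ j) (g : U T F₁) (a : T.V) (k : Fin d)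
    (b : T.V) (l : Fin d) :
    ∃ g' : U T F₂, g'.1 a = g.1 a ∧ g'.1 (T.s k a) = g.1 (T.s k a) ∧ g'.1 b = g.1 b ∧
      g'.1 (T.s l b) = g.1 (T.s l b) := by
  induction hn : T.G.dist a b using Nat.strong_induction_on generalizing b l with
  | _ n ih =>
  obtain ⟨σ, hσ, hs⟩ := mem_U T g b
  by_cases hab : a = b
  · subst hab
    obtain ⟨τ, hτ, h1, h2⟩ := h σ hσ k l
    obtain ⟨g', g0, g1⟩ := extend T a (g.1 a) τ hτ
    exact ⟨g', g0, by rw [g1, g0, hs, h1], g0, by rw [g1, g0, hs, h2]⟩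
  obtain ⟨j, hj⟩ := half_exists T hab
  obtain ⟨g', a1, a2, a3, a4⟩ := ih _ (hn ▸ hj) (T.s j b) j rfl
  rw [s_s] at a4
  obtain ⟨τ, hτ, ht⟩ := mem_U T g' b
  obtain ⟨υ, hυ, h1, h2⟩ := h σ hσ j l
  have e1 : τ j = σ j := by
    apply s_inj T (v := g.1 b)
    rw [← hs, ← a3, ht, a4]
  obtain ⟨m, m0, m1, m2⟩ := extend_local T b j (τ⁻¹ * υ) (F₂.mul_mem (F₂.inv_mem hτ) hυ) (by
    rw [Equiv.Perm.mul_apply, h1, ← e1]
    exact τ.symm_apply_apply j)
  refine ⟨g' * m, by rw [mul_app, m2 a hj, a1], ?_, by rw [mul_app, m0, a4], ?_⟩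
  · rw [mul_app, ← a2]
    rcases nbr_half T hj k with h3 | ⟨h3, -, -⟩
    · rw [m2 _ h3]
    · rw [h3, m0]
  · rw [mul_app, m1, ht, hs, a4, ← h2]
    exact congrArg (fun z => T.s z (g.1 b)) (τ.apply_symm_apply (υ l))

/-- convex vertex sets -/
def Cvx (I : Set T.V) : Prop :=
  ∀ x y z i j, y ∈ I → z ∈ I → y ∈ half T x i → z ∈ half T x j → i ≠ j → x ∈ I

/-- closed neighbourhood -/
def nb (I : Set T.V) : Set T.V := {y | ∃ x ∈ I, y = x ∨ ∃ j, y = T.s j x}

/-- `(x, i)` is an exit of `I` -/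
def Child (I : Set T.V) (x : T.V) (i : Fin d) : Prop := x ∈ I ∧ ∀ y ∈ I, y ≠ x → y ∈ half T x i

/-- the vertex set attached to an exit -/
def chSet (I : Set T.V) (x : T.V) (i : Fin d) : Set T.V := nb T (I \ {x}) ∪ {x, T.s i x}

/-- `B` is seen from every vertex outside `J` in one direction -/
def OneSide (J B : Set T.V) : Prop := ∀ x ∉ J, ∃ i, ∀ b ∈ B, b = x ∨ b ∈ half T x i

lemma subset_nb (I : Set T.V) : I ⊆ nb T I := fun x hx => ⟨x, hx, Or.inl rfl⟩

lemma nb_mono {I J : Set T.V} (h : I ⊆ J) : nb T I ⊆ nb T J :=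
  fun _ ⟨x, hx, h1⟩ => ⟨x, h hx, h1⟩

lemma nb_finite {I : Set T.V} (h : I.Finite) : (nb T I).Finite := by
  refine (h.union (Set.finite_iUnion fun j : Fin d => h.image (T.s j))).subset ?_
  rintro y ⟨x, hx, rfl | ⟨j, rfl⟩⟩
  · exact Or.inl hx
  · exact Or.inr (Set.mem_iUnion.2 ⟨j, x, hx, rfl⟩)

lemma Cvx.step {I : Set T.V} (hI : Cvx T I) {x y : T.V} {j : Fin d} (hx : x ∈ I) (hy : y ∈ I)
    (h : y ∈ half T x j) : T.s j x ∈ I := by
  by_cases e : y = T.s j x
  · exact e ▸ hy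
  obtain ⟨k, hk⟩ := half_exists T e
  refine hI _ x y j k hx hy ((not_mem_half_iff T).1 (self_not_mem T x j)) hk ?_
  rintro rfl
  exact (not_mem_half_iff T).2 hk h

lemma oneSide_nb {J : Set T.V} (hJ : Cvx T J) (hne : J.Nonempty) : OneSide T J (nb T J) := by
  intro x hx
  obtain ⟨y0, hy0⟩ := hne
  obtain ⟨i, hi⟩ := half_exists T (show y0 ≠ x from fun e => hx (e ▸ hy0))
  have key : ∀ y ∈ J, y ∈ half T x i := by
    intro y hy
    obtain ⟨j, hj⟩ := half_exists T (show y ≠ x from fun e => hx (e ▸ hy))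
    by_cases e : i = j
    · exact e ▸ hj
    · exact absurd (hJ x y0 y i j hy0 hy hi hj e) hx
  refine ⟨i, ?_⟩
  rintro b ⟨y, hy, rfl | ⟨j, rfl⟩⟩
  · exact Or.inr (key _ hy)
  · rcases nbr_half T (key y hy) j with h | h
    · exact Or.inr h
    · exact Or.inl h.1

lemma oneSide_dart (a : T.V) (k : Fin d) : OneSide T ∅ {a, T.s k a} := by
  intro x _
  by_cases e : a = x
  · subst e
    refine ⟨k, ?_⟩
    rintro b (rfl | rfl)
    · exact Or.inl rfl
    · exact Or.inr (s_mem T a k)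
  · obtain ⟨i, hi⟩ := half_exists T e
    refine ⟨i, ?_⟩
    rintro b (rfl | rfl)
    · exact Or.inr hi
    · rcases nbr_half T hi k with h | h
      · exact Or.inr h
      · exact Or.inl h.1

theorem exists_child {I J B : Set T.V} (hI : Cvx T I) (hfin : I.Finite) (hB : B.Nonempty)
    (hJB : J ⊆ B) (hP : OneSide T J B) (hIJ : ¬ I ⊆ J) :
    ∃ x i, Child T I x i ∧ ∀ b ∈ B, b = x ∨ b ∈ half T x i := by
  obtain ⟨b0, hb0⟩ := hB
  obtain ⟨x, ⟨hx, hxJ⟩, hmax⟩ := Set.exists_max_image (I \ J) (fun x => T.G.dist b0 x)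
    (hfin.subset Set.sdiff_subset) (Set.sdiff_nonempty.2 hIJ)
  obtain ⟨i, hi⟩ := hP x hxJ
  refine ⟨x, i, ⟨hx, fun y hy hne => ?_⟩, hi⟩
  obtain ⟨j, hj⟩ := half_exists T hne
  by_cases e : j = i
  · exact e ▸ hj
  exfalso
  have h1 := Cvx.step T hI hx hy hj
  have h2 : b0 ∉ half T x j := by
    rcases hi b0 hb0 with h | h
    · exact h ▸ self_not_mem T b0 j
    · exact fun h' => e (half_uniq T h' h)
  have h3 := dist_of_not_mem T h2
  by_cases h4 : T.s j x ∈ J
  · rcases hi _ (hJB h4) with h | h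
    · exact s_ne T j x h
    · exact e ((s_mem_iff T).1 h)
  · have := hmax _ ⟨h1, h4⟩
    omega

/-- Olshanskii factorisation -/
theorem fac {I J B : Set T.V} (hI : Cvx T I) (hfin : I.Finite) (hB : B.Nonempty)
    (hJB : J ⊆ B) (hP : OneSide T J B) (hIJ : ¬ I ⊆ J) :
    ∃ x i, Child T I x i ∧ ∀ g : U T F, (∀ y ∈ chSet T I x i, g.1 y = y) →
      ∃ g1 g2 : U T F, g = g1 * g2 ∧ (∀ y ∈ nb T I, g1.1 y = y) ∧ ∀ y ∈ B, g2.1 y = y := by
  obtain ⟨x, i, hc, hi⟩ := exists_child T hI hfin hB hJB hP hIJ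
  refine ⟨x, i, hc, fun g hg => ?_⟩
  have h1 : g.1 x = x := hg x (Or.inr (Or.inl rfl))
  have h2 : g.1 (T.s i x) = T.s i x := hg _ (Or.inr (Or.inr rfl))
  obtain ⟨g1, g2, e, a1, a2, a3, a4⟩ := split T g h1 h2
  refine ⟨g1, g2, e, fun y hy => ?_, fun y hy => ?_⟩
  · by_cases h : y ∈ half T x i
    · rw [a1 y h]
      obtain ⟨z, hz, h3⟩ := hy
      by_cases e' : z = x
      · subst e'
        rcases h3 with rfl | ⟨j, rfl⟩
        · exact h1
        · rw [(s_mem_iff T).1 h]
          exact h2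
      · exact hg y (Or.inl ⟨z, ⟨hz, e'⟩, h3⟩)
    · exact a2 y h
  · rcases hi y hy with rfl | h
    · rw [a4 _ (self_not_mem T _ i), h1]
    · exact a3 y h

lemma Child.cvx {I : Set T.V} (hI : Cvx T I) {x : T.V} {i : Fin d} (hc : Child T I x i) :
    Cvx T (I \ {x}) := by
  intro u y z j k hy hz h1 h2 hne
  refine ⟨hI u y z j k hy.1 hz.1 h1 h2 hne, ?_⟩
  rintro rfl
  exact hne ((half_uniq T h1 (hc.2 y hy.1 hy.2)).trans (half_uniq T (hc.2 z hz.1 hz.2) h2))

lemma chSet_subset {I : Set T.V} {x : T.V} {i : Fin d} (hc : Child T I x i) :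
    chSet T I x i ⊆ nb T I := by
  rintro y (h | rfl | rfl)
  · exact nb_mono T Set.sdiff_subset h
  · exact subset_nb T I hc.1
  · exact ⟨x, hc.1, Or.inr ⟨i, rfl⟩⟩

lemma subset_chSet (I : Set T.V) (x : T.V) (i : Fin d) : I ⊆ chSet T I x i := by
  intro y hy
  by_cases e : y = x
  · exact Or.inr (Or.inl e)
  · exact Or.inl (subset_nb T _ ⟨hy, e⟩)

/-- the set of an exit is the neighbourhood of the smaller convex set, or a dart -/
lemma chSet_eq {I : Set T.V} (hI : Cvx T I) {x : T.V} {i : Fin d} (hc : Child T I x i) :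
    ((I \ {x}).Nonempty ∧ chSet T I x i = nb T (I \ {x})) ∨ chSet T I x i = {x, T.s i x} := by
  rcases (I \ {x}).eq_empty_or_nonempty with h | ⟨y, hy⟩
  · right
    unfold chSet
    rw [h]
    refine Set.union_eq_right.2 ?_
    rintro _ ⟨_, h1, -⟩
    exact h1.elim
  · left
    refine ⟨⟨y, hy⟩, Set.union_eq_left.2 ?_⟩
    have h1 : T.s i x ∈ I \ {x} :=
      ⟨Cvx.step T hI hc.1 hy.1 (hc.2 y hy.1 hy.2), s_ne T i x⟩
    rintro z (rfl | rfl)
    · exact ⟨_, h1, Or.inr ⟨i, (s_s T i z).symm⟩⟩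
    · exact subset_nb T _ h1

lemma app_nb (g : U T F) (I : Set T.V) (y : T.V) : g.1 y ∈ nb T (g.1 '' I) ↔ y ∈ nb T I := by
  constructor
  · rintro ⟨_, ⟨x, hx, rfl⟩, h | ⟨j, h⟩⟩
    · exact ⟨x, hx, Or.inl (g.1.injective h)⟩
    · obtain ⟨σ, -, hs⟩ := mem_U T g x
      refine ⟨x, hx, Or.inr ⟨σ.symm j, g.1.injective ?_⟩⟩
      rw [hs, h, Equiv.apply_symm_apply]
  · rintro ⟨x, hx, rfl | ⟨j, rfl⟩⟩
    · exact ⟨_, ⟨y, hx, rfl⟩, Or.inl rfl⟩
    · obtain ⟨σ, -, hs⟩ := mem_U T g x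
      exact ⟨_, ⟨x, hx, rfl⟩, Or.inr ⟨σ j, hs j⟩⟩

lemma image_nb (g : U T F) (I : Set T.V) : g.1 '' nb T I = nb T (g.1 '' I) := by
  ext y
  obtain ⟨z, rfl⟩ := g.1.surjective y
  rw [app_nb]
  exact g.1.injective.mem_set_image

lemma Cvx.image {I : Set T.V} (hI : Cvx T I) (g : U T F) : Cvx T (g.1 '' I) := by
  rintro x _ _ i j ⟨y, hy, rfl⟩ ⟨z, hz, rfl⟩ h1 h2 hne
  obtain ⟨x, rfl⟩ := g.1.surjective x
  obtain ⟨σ, -, hs⟩ := mem_U T g x
  refine ⟨x, hI x y z (σ.symm i) (σ.symm j) hy hz ?_ ?_ (fun e => hne (σ.symm.injective e)), rfl⟩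
  · exact (app_mem_half T g rfl (by rw [hs, Equiv.apply_symm_apply]) y).1 h1
  · exact (app_mem_half T g rfl (by rw [hs, Equiv.apply_symm_apply]) z).1 h2

lemma Child.image {I : Set T.V} {x : T.V} {i : Fin d} (hc : Child T I x i) (g : U T F) :
    ∃ j, Child T (g.1 '' I) (g.1 x) j ∧ g.1 '' chSet T I x i = chSet T (g.1 '' I) (g.1 x) j := by
  obtain ⟨σ, -, hs⟩ := mem_U T g x
  refine ⟨σ i, ⟨⟨x, hc.1, rfl⟩, ?_⟩, ?_⟩
  · rintro _ ⟨y, hy, rfl⟩ hne
    exact (app_mem_half T g rfl (hs i) y).2 (hc.2 y hy fun e => hne (e ▸ rfl))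
  · unfold chSet
    rw [Set.image_union, image_nb, Set.image_sdiff g.1.injective, Set.image_singleton,
      Set.image_pair, hs]

lemma dist_le_of_half {v x y : T.V} {i : Fin d} (hy : y ∈ half T x i) (hv : v ∉ half T x i) :
    T.G.dist v x ≤ T.G.dist v y := by
  induction hm : T.G.dist v y using Nat.strong_induction_on generalizing y with
  | _ m ih =>
  have hne : v ≠ y := fun e => hv (e ▸ hy)
  obtain ⟨k, hk⟩ := half_exists T hne
  have h3 := dist_of_mem T hk
  rcases nbr_half T hy k with h | h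
  · have := ih _ (by omega) h rfl
    omega
  · rw [h.1] at h3
    omega

/-- balls are finite convex sets -/
lemma cvx_ball (v : T.V) (n : ℕ) : Cvx T {y | T.G.dist v y ≤ n} := by
  intro x y z i j hy hz h1 h2 hne
  by_cases h : v ∈ half T x i
  · exact (dist_le_of_half T h2 fun h' => hne (half_uniq T h h')).trans hz
  · exact (dist_le_of_half T h1 h).trans hy

lemma finite_ball (v : T.V) (n : ℕ) : {y | T.G.dist v y ≤ n}.Finite := by
  induction n with
  | zero =>
    refine (Set.finite_singleton v).subset fun y hy => ?_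
    exact (T.isTree.connected.dist_eq_zero_iff.1 (Nat.le_zero.1 hy)).symm
  | succ n ih =>
    refine ((Set.finite_singleton v).union (nb_finite T ih)).subset fun y hy => ?_
    by_cases e : v = y
    · exact Or.inl e.symm
    · obtain ⟨k, hk⟩ := half_exists T e
      have h3 := dist_of_mem T hk
      have h4 : T.G.dist v y ≤ n + 1 := hy
      exact Or.inr ⟨T.s k y, (by omega : T.G.dist v (T.s k y) ≤ n), Or.inr ⟨k, (s_s T k y).symm⟩⟩

lemma countable_V : Countable T.V := by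
  obtain ⟨v⟩ := T.isTree.connected.nonempty
  refine Set.countable_univ_iff.1 ?_
  refine (Set.countable_iUnion fun n : ℕ => (finite_ball T v n).countable).mono fun y _ => ?_
  exact Set.mem_iUnion.2 ⟨T.G.dist v y, le_refl (T.G.dist v y)⟩

/-- nested half trees -/
lemma nested {u v w : T.V} {j l : Fin d} (hu : u ∈ half T v j) (hv : v ∈ half T u l)
    (hw : w ∉ half T v j) : w ∈ half T u l := by
  induction hm : T.G.dist v w using Nat.strong_induction_on generalizing w with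
  | _ m ih =>
  by_cases e : v = w
  · exact e ▸ hv
  obtain ⟨k, hk⟩ := half_exists T e
  have h3 := dist_of_mem T hk
  have h4 : T.s k w ∉ half T v j := by
    rcases nbr_not_half T hw k with h | h
    · exact h
    · exact absurd h.1.symm e
  rcases nbr_half T (ih _ (by omega) h4 rfl) k with h | h
  · rwa [s_s] at h
  · rw [s_s] at h
    exact absurd (h.1 ▸ hu) hw

/-- the geodesic segment -/
def seg (v w : T.V) : Set T.V := {u | ∀ j, ¬ (v ∈ half T u j ∧ w ∈ half T u j)}

lemma seg_comm (v w : T.V) : seg T v w = seg T w v := by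
  ext u
  exact forall_congr' fun j => not_congr and_comm

lemma left_mem_seg (v w : T.V) : v ∈ seg T v w := fun j h => self_not_mem T v j h.1

lemma right_mem_seg (v w : T.V) : w ∈ seg T v w := fun j h => self_not_mem T w j h.2

lemma cvx_seg (v w : T.V) : Cvx T (seg T v w) := by
  intro x y z a b hy hz h1 h2 hne c ⟨hv, hw⟩
  have key : ∀ (y : T.V) (a : Fin d), y ∈ seg T v w → y ∈ half T x a → a = c := by
    intro y a hy h1
    by_contra e
    obtain ⟨l, hl⟩ := half_exists T (show x ≠ y from fun e => self_not_mem T x a (e ▸ h1))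
    exact hy l ⟨nested T h1 hl fun h => e (half_uniq T h hv),
      nested T h1 hl fun h => e (half_uniq T h hw)⟩
  exact hne ((key y a hy h1).trans (key z b hz h2).symm)

lemma dist_le_of_seg {v w u : T.V} (h : u ∈ seg T v w) : T.G.dist v u ≤ T.G.dist v w := by
  by_cases e : w = u
  · rw [e]
  obtain ⟨j, hj⟩ := half_exists T e
  exact dist_le_of_half T hj fun h' => h j ⟨h', hj⟩

lemma finite_seg (v w : T.V) : (seg T v w).Finite :=
  (finite_ball T v (T.G.dist v w)).subset fun _ h => dist_le_of_seg T h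

lemma child_seg {v w : T.V} {i : Fin d} (hw : w ∈ half T v i) : Child T (seg T v w) v i := by
  refine ⟨left_mem_seg T v w, fun u hu hne => ?_⟩
  obtain ⟨j, hj⟩ := half_exists T hne
  by_cases e : j = i
  · exact e ▸ hj
  obtain ⟨l, hl⟩ := half_exists T hne.symm
  exact absurd ⟨hl, nested T hj hl fun h => e (half_uniq T h hw)⟩ (hu l)

lemma child_seg_cases {v w x : T.V} {i j : Fin d} (hw : w ∈ half T v i) (hv : v ∈ half T w i)
    (hc : Child T (seg T v w) x j) : (x = v ∨ x = w) ∧ j = i := by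
  have hne : w ≠ v := fun e => self_not_mem T v i (e ▸ hw)
  by_cases e : x = v
  · subst e
    exact ⟨Or.inl rfl, half_uniq T (hc.2 w (right_mem_seg T x w) hne) hw⟩
  by_cases e' : x = w
  · subst e'
    exact ⟨Or.inr rfl, half_uniq T (hc.2 v (left_mem_seg T v x) hne.symm) hv⟩
  exact absurd ⟨hc.2 v (left_mem_seg T v w) (Ne.symm e), hc.2 w (right_mem_seg T v w) (Ne.symm e')⟩
    (hc.1 j)

lemma chSet_half {I : Set T.V} {x : T.V} {i : Fin d} (hc : Child T I x i) {y : T.V}
    (hy : y ∈ chSet T I x i) : y = x ∨ y ∈ half T x i := by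
  rcases hy with ⟨z, hz, rfl | ⟨j, rfl⟩⟩ | rfl | rfl
  · exact Or.inr (hc.2 _ hz.1 hz.2)
  · rcases nbr_half T (hc.2 _ hz.1 hz.2) j with h | h
    · exact Or.inr h
    · exact Or.inl h.1
  · exact Or.inl rfl
  · exact Or.inr (s_mem T x i)

lemma long_seg (v : T.V) {i j : Fin d} (hij : j ≠ i) (n : ℕ) :
    ∃ w, w ∈ half T v i ∧ v ∈ half T w i ∧ n ≤ (seg T v w).ncard := by
  induction n with
  | zero => exact ⟨T.s i v, s_mem T v i, (not_mem_half_iff T).1 (self_not_mem T v i), Nat.zero_le _⟩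
  | succ n ih =>
    obtain ⟨w, h1, h2, h3⟩ := ih
    have a1 : v ∉ half T w j := fun h => hij (half_uniq T h h2)
    have a2 : v ∉ half T (T.s j w) i := fun h =>
      hij (half_uniq T ((not_mem_half_iff T).1 a1) h)
    have d1 := dist_of_not_mem T a1
    have d2 := dist_of_not_mem T a2
    refine ⟨T.s i (T.s j w), ?_, (not_mem_half_iff T).1 a2, ?_⟩
    · rcases nbr_half T h1 j with h | h
      · rcases nbr_half T h i with h' | h'
        · exact h'
        · rw [h'.1, SimpleGraph.dist_self] at d2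
          omega
      · exact absurd h.2.2 hij
    · refine Nat.succ_le_of_lt (lt_of_le_of_lt h3 (Set.ncard_lt_ncard ⟨?_, ?_⟩ (finite_seg T _ _)))
      · intro u hu l ⟨b1, b2⟩
        have d3 := dist_le_of_seg T hu
        rcases nbr_half T b2 i with h | h
        · rw [s_s] at h
          rcases nbr_half T h j with h' | h'
          · rw [s_s] at h'
            exact hu l ⟨b1, h'⟩
          · rw [s_s] at h'
            obtain ⟨rfl, -, rfl⟩ := h'
            exact a1 b1
        · rw [s_s] at h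
          rw [h.1] at d1
          omega
      · intro h
        have := dist_le_of_seg T (h (right_mem_seg T v _))
        omega

/-- convex sets of unbounded size whose exits are all killed by one of two commuting elements -/
theorem many {τ : Equiv.Perm (Fin d)} (hτ : τ ∈ F) (h1 : τ ≠ 1) {i : Fin d} (hi : τ i = i)
    (n : ℕ) :
    ∃ I : Set T.V, Cvx T I ∧ I.Finite ∧ I.Nonempty ∧ n ≤ I.ncard ∧ ∃ k1 k2 : U T F,
      k1 * k2 = k2 * k1 ∧ (∀ y ∈ I, k1.1 y = y) ∧ (∀ y ∈ I, k2.1 y = y) ∧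
      (¬ ∀ y ∈ nb T I, k1.1 y = y) ∧ (¬ ∀ y ∈ nb T I, k2.1 y = y) ∧
      (¬ ∀ y ∈ nb T I, (k1 * k2).1 y = y) ∧
      ∀ x j, Child T I x j →
        (∀ y ∈ chSet T I x j, k1.1 y = y) ∨ ∀ y ∈ chSet T I x j, k2.1 y = y := by
  obtain ⟨v⟩ := T.isTree.connected.nonempty
  obtain ⟨l, hl⟩ : ∃ l, τ l ≠ l := by
    by_contra h
    exact h1 (Equiv.ext fun l => by_contra fun e => h ⟨l, e⟩)
  have hli : l ≠ i := fun e => hl (e ▸ hi)
  obtain ⟨w, hw, hv, hn⟩ := long_seg T v hli n
  obtain ⟨k1, a0, a1, a2⟩ := extend_local T v i τ hτ hi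
  obtain ⟨k2, b0, b1, b2⟩ := extend_local T w i τ hτ hi
  have c1 : ∀ y, y ∉ half T v i → y ∈ half T w i := fun y hy => nested T hw hv hy
  have c2 : ∀ y, y ∉ half T w i → y ∈ half T v i := fun y hy => nested T hv hw hy
  have e1 : ∀ y, y = v ∨ y ∈ half T v i → k1.1 y = y := by
    rintro y (rfl | h)
    · exact a0
    · exact a2 y h
  have e2 : ∀ y, y = w ∨ y ∈ half T w i → k2.1 y = y := by
    rintro y (rfl | h)
    · exact b0
    · exact b2 y h
  have n1 : T.s l v ∈ nb T (seg T v w) := ⟨v, left_mem_seg T v w, Or.inr ⟨l, rfl⟩⟩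
  have n2 : T.s l w ∈ nb T (seg T v w) := ⟨w, right_mem_seg T v w, Or.inr ⟨l, rfl⟩⟩
  have ch1 := child_seg T hw
  have ch2 := child_seg T hv
  rw [seg_comm] at ch2
  refine ⟨seg T v w, cvx_seg T v w, finite_seg T v w, ⟨v, left_mem_seg T v w⟩, hn, k1, k2,
    U_ext T fun y => ?_, fun y hy => e1 y (chSet_half T ch1 (subset_chSet T _ _ _ hy)),
    fun y hy => e2 y (chSet_half T ch2 (subset_chSet T _ _ _ hy)), fun h => ?_, fun h => ?_,
    fun h => ?_, fun x j hc => ?_⟩
  · rw [mul_app, mul_app]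
    by_cases p1 : y ∈ half T v i
    · by_cases p2 : y ∈ half T w i
      · rw [b2 y p2, a2 y p1, b2 y p2]
      · rw [a2 y p1]
        exact a2 _ (c2 _ fun h => p2 ((app_mem_half T k2 b0 (by rw [b1, hi]) y).1 h))
    · rw [b2 y (c1 y p1)]
      exact (b2 _ (c1 _ fun h => p1 ((app_mem_half T k1 a0 (by rw [a1, hi]) y).1 h))).symm
  · exact hl (s_inj T ((a1 l).symm.trans (h _ n1)))
  · exact hl (s_inj T ((b1 l).symm.trans (h _ n2)))
  · have := h _ n1
    rw [mul_app, b2 _ (c1 _ fun e => hli ((s_mem_iff T).1 e)), a1] at this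
    exact hl (s_inj T this)
  · obtain ⟨rfl | rfl, rfl⟩ := child_seg_cases T hw hv hc
    · exact Or.inl fun y hy => e1 y (chSet_half T hc hy)
    · exact Or.inr fun y hy => e2 y (chSet_half T hc hy)

lemma infinite_V {i j : Fin d} (hij : j ≠ i) : Infinite T.V := by
  obtain ⟨v⟩ := T.isTree.connected.nonempty
  by_contra h
  have : Finite T.V := not_infinite_iff_finite.1 h
  obtain ⟨w, -, -, hn⟩ := long_seg T v hij (Nat.card T.V + 1)
  have := Set.ncard_le_card (seg T v w)
  omega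

/-- a finite nonempty set has infinitely many translates -/
theorem infinite_translates {i j : Fin d} (hij : j ≠ i) {S : Set T.V} (hS : S.Finite)
    (hne : S.Nonempty) : {J : Set T.V | ∃ g : U T F, J = g.1 '' S}.Infinite := by
  intro h
  have := infinite_V T hij
  obtain ⟨x, hx⟩ := hne
  refine Set.infinite_univ (α := T.V) ((h.sUnion ?_).subset fun y _ => ?_)
  · rintro _ ⟨g, rfl⟩
    exact hS.image _
  · obtain ⟨g, hg, -⟩ := extend T x y 1 F.one_mem
    exact ⟨_, ⟨g, rfl⟩, x, hx, hg⟩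

end Pool.Agent.Lib.MP_9a581e_an.T20
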