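import Mathlib
import Pool.Agent.Lib.MP_9a581e_an.Tree20

set_option autoImplicit false

namespace Pool.Agent.Lib.MP_9a581e_an.T20

open Pool.Agent.Lib.MP_9a581e_an

variable {d : ℕ} (T : LegalTree d) (F : Subgroup (Equiv.Perm (Fin d)))

/-- oriented edges -/
def Dart : Type := {x : T.V × T.V // T.G.Adj x.1 x.2}

/-- finite nonempty convex vertex sets -/
def CSet : Type := {I : Set T.V // Cvx T I ∧ I.Finite ∧ I.Nonempty}

/-- types: oriented edges and finite nonempty convex sets -/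
def Ty : Type := Dart T ⊕ CSet T

lemma image_mul (g h : U T F) (X : Set T.V) : (g * h).1 '' X = g.1 '' (h.1 '' X) := by
  rw [Set.image_image]
  rfl

lemma image_one (X : Set T.V) : (1 : U T F).1 '' X = X := Set.image_id' X

instance : MulAction (U T F) (Dart T) where
  smul g x := ⟨(g.1 x.1.1, g.1 x.1.2), g.1.map_adj_iff.2 x.2⟩
  one_smul _ := rfl
  mul_smul _ _ _ := rfl

instance : MulAction (U T F) (CSet T) where
  smul g I := ⟨g.1 '' I.1, Cvx.image T I.2.1 g, I.2.2.1.image _, I.2.2.2.image _⟩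
  one_smul I := Subtype.ext (image_one T F I.1)
  mul_smul g h I := Subtype.ext (image_mul T F g h I.1)

instance : MulAction (U T F) (Ty T) := inferInstanceAs (MulAction (U T F) (Dart T ⊕ CSet T))

variable {T F}

lemma smul_dart (g : U T F) (x : Dart T) : (g • x).1 = (g.1 x.1.1, g.1 x.1.2) := rfl

lemma smul_cset (g : U T F) (I : CSet T) : (g • I).1 = g.1 '' I.1 := rfl

/-- a dart as a type -/
def Ty.dart (x : Dart T) : Ty T := Sum.inl x

/-- a convex set as a type -/
def Ty.cset (I : CSet T) : Ty T := Sum.inr I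

lemma smul_ty_dart (g : U T F) (x : Dart T) : g • Ty.dart x = Ty.dart (g • x) := rfl

lemma smul_ty_cset (g : U T F) (I : CSet T) : g • Ty.cset I = Ty.cset (g • I) := rfl

lemma Ty.cases (S : Ty T) : (∃ x, S = Ty.dart x) ∨ ∃ I, S = Ty.cset I := by
  rcases S with x | I
  · exact Or.inl ⟨x, rfl⟩
  · exact Or.inr ⟨I, rfl⟩

/-- the dart of colour `i` at `v` -/
noncomputable def mkDart (v : T.V) (i : Fin d) : Dart T := ⟨(v, T.s i v), adj_s T i v⟩

lemma exists_mkDart (x : Dart T) : ∃ v i, x = mkDart v i :=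
  ⟨x.1.1, _, Subtype.ext (Prod.ext rfl (eq_s T x.2))⟩

/-- the vertex set of a type -/
def supp : Ty T → Set T.V
  | Sum.inl x => {x.1.1, x.1.2}
  | Sum.inr I => nb T I.1

lemma supp_dart (x : Dart T) : supp (Ty.dart x) = {x.1.1, x.1.2} := rfl

lemma supp_cset (I : CSet T) : supp (Ty.cset I) = nb T I.1 := rfl

/-- the size of a type -/
noncomputable def size : Ty T → ℕ
  | Sum.inl _ => 0
  | Sum.inr I => I.1.ncard

lemma size_dart (x : Dart T) : size (Ty.dart x) = 0 := rfl

lemma size_cset (I : CSet T) : size (Ty.cset I) = I.1.ncard := rfl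

lemma size_eq_zero {S : Ty T} : size S = 0 ↔ ∃ x, S = Ty.dart x := by
  rcases Ty.cases S with ⟨x, rfl⟩ | ⟨I, rfl⟩
  · exact ⟨fun _ => ⟨x, rfl⟩, fun _ => rfl⟩
  · refine ⟨fun h => ?_, fun ⟨x, h⟩ => by cases h⟩
    exact absurd ((Set.ncard_eq_zero I.2.2.1).1 h) I.2.2.2.ne_empty

/-- the types attached to the exits -/
def sub : Ty T → Set (Ty T)
  | Sum.inl _ => ∅
  | Sum.inr I => {S | size S < I.1.ncard ∧ ∃ x i, Child T I.1 x i ∧ supp S = chSet T I.1 x i}

variable (F) in
/-- the pointwise fixator of the vertex set of a type -/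
def KT (S : Ty T) : Subgroup (U T F) where
  carrier := {g | ∀ y ∈ supp S, g.1 y = y}
  one_mem' := fun _ _ => rfl
  mul_mem' := fun hg hh y hy => by rw [mul_app, hh y hy, hg y hy]
  inv_mem' := fun {g} hg y hy => by
    conv_lhs => rw [← hg y hy, inv_app]

lemma mem_KT {S : Ty T} {g : U T F} : g ∈ KT F S ↔ ∀ y ∈ supp S, g.1 y = y := Iff.rfl

lemma supp_finite (S : Ty T) : (supp S).Finite := by
  rcases Ty.cases S with ⟨x, rfl⟩ | ⟨I, rfl⟩
  · exact (Set.finite_singleton _).insert _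
  · exact nb_finite T I.2.2.1

lemma supp_nonempty (S : Ty T) : (supp S).Nonempty := by
  rcases Ty.cases S with ⟨x, rfl⟩ | ⟨I, rfl⟩
  · exact ⟨_, Or.inl rfl⟩
  · exact I.2.2.2.mono (subset_nb T _)

lemma supp_smul (g : U T F) (S : Ty T) : supp (g • S) = g.1 '' supp S := by
  rcases Ty.cases S with ⟨x, rfl⟩ | ⟨I, rfl⟩
  · exact (Set.image_pair g.1 x.1.1 x.1.2).symm
  · exact (image_nb T g I.1).symm

lemma mem_KT_smul (g u : U T F) (S : Ty T) : u ∈ KT F (g • S) ↔ g⁻¹ * u * g ∈ KT F S := by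
  rw [mem_KT, mem_KT, supp_smul]
  constructor
  · intro h y hy
    rw [mul_app, mul_app, h _ ⟨y, hy, rfl⟩, inv_app]
  · rintro h _ ⟨y, hy, rfl⟩
    have := congrArg g.1 (h y hy)
    rwa [mul_app, mul_app, app_inv] at this

lemma mem_KT_dart {x : Dart T} {g : U T F} : g ∈ KT F (Ty.dart x) ↔ g • x = x := by
  constructor
  · intro h
    exact Subtype.ext (Prod.ext (h _ (Or.inl rfl)) (h _ (Or.inr rfl)))
  · rintro h y (rfl | rfl)
    · exact congrArg (fun z : Dart T => z.1.1) h
    · exact congrArg (fun z : Dart T => z.1.2) h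

lemma exists_supp {X : Set T.V} (hX : X.Finite) : ∃ S : Ty T, X ⊆ supp S := by
  obtain ⟨v⟩ := T.isTree.connected.nonempty
  obtain ⟨n, hn⟩ := (hX.image (T.G.dist v)).bddAbove
  exact ⟨Ty.cset ⟨_, cvx_ball T v n, finite_ball T v n, v, by simp⟩,
    fun y hy => subset_nb T _ (hn ⟨y, hy, rfl⟩)⟩

lemma countable_dart : Countable (Dart T) := by
  have := countable_V T
  exact Subtype.countable

lemma countable_ty : Countable (Ty T) := by
  have := countable_V T
  have h1 : Countable (Dart T) := countable_dart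
  have h2 : Countable (CSet T) :=
    (Set.countable_ofPred_finite_subset (Set.countable_univ (α := T.V))).mono
      (s₁ := {I | Cvx T I ∧ I.Finite ∧ I.Nonempty})
      (fun I hI => And.intro hI.2.1 (Set.subset_univ _))
  exact inferInstanceAs (Countable (Dart T ⊕ CSet T))

/-- orbits on pairs of darts only depend on the orbits of the local group on ordered pairs -/
theorem orb_dart {F₁ F₂ : Subgroup (Equiv.Perm (Fin d))}
    (h : ∀ σ ∈ F₁, ∀ i j, ∃ τ ∈ F₂, τ i = σ i ∧ τ j = σ j) (g : U T F₁) (x y : Dart T) :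
    ∃ g' : U T F₂, g' • x = g • x ∧ g' • y = g • y := by
  obtain ⟨a, k, rfl⟩ := exists_mkDart x
  obtain ⟨b, l, rfl⟩ := exists_mkDart y
  obtain ⟨g', h1, h2, h3, h4⟩ := orb T h g a k b l
  exact ⟨g', Subtype.ext (Prod.ext h1 h2), Subtype.ext (Prod.ext h3 h4)⟩

end Pool.Agent.Lib.MP_9a581e_an.T20
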