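import Mathlib
import Pool.Agent.Lib.MP_9a581e_an.Ty20
import Pool.Agent.Lib.MP_9a581e_an.Grp38Defs

set_option autoImplicit false

namespace Pool.Agent.Lib.MP_9a581e_an.T20

open Pool.Agent.Lib.MP_9a581e_an MulAction

variable {d : ℕ} {T : LegalTree d} {F : Subgroup (Equiv.Perm (Fin d))}

lemma finite_supp_subset {Y : Set T.V} (hY : Y.Finite) : {S : Ty T | supp S ⊆ Y}.Finite := by
  have h1 : {x : Dart T | supp (Ty.dart x) ⊆ Y}.Finite :=
    ((hY.prod hY).preimage (f := fun x : Dart T => x.1) Subtype.val_injective.injOn).subset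
      fun x hx => ⟨hx (Or.inl rfl), hx (Or.inr rfl)⟩
  have h2 : {I : CSet T | supp (Ty.cset I) ⊆ Y}.Finite :=
    (hY.finite_subsets.preimage (f := fun I : CSet T => I.1) Subtype.val_injective.injOn).subset
      fun I hI => (subset_nb T I.1).trans hI
  refine ((h1.image Ty.dart).union (h2.image Ty.cset)).subset fun S hS => ?_
  rcases Ty.cases S with ⟨x, rfl⟩ | ⟨I, rfl⟩
  · exact Or.inl ⟨x, hS, rfl⟩
  · exact Or.inr ⟨I, hS, rfl⟩

lemma stab_cset {I : CSet T} {g : U T F} (h : ∀ y ∈ I.1, g.1 y = y) :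
    g ∈ stabilizer (U T F) (Ty.cset I) := by
  refine congrArg Ty.cset (Subtype.ext ?_)
  ext y
  constructor
  · rintro ⟨z, hz, rfl⟩
    rwa [h z hz]
  · exact fun hy => ⟨y, hy, h y hy⟩

lemma exists_sub (I : CSet T) {x : T.V} {i : Fin d} (hc : Child T I.1 x i) :
    ∃ S ∈ sub (Ty.cset I), supp S = chSet T I.1 x i := by
  rcases chSet_eq T I.2.1 hc with ⟨h1, h2⟩ | h
  · exact ⟨Ty.cset ⟨_, Child.cvx T I.2.1 hc, I.2.2.1.subset Set.sdiff_subset, h1⟩,
      ⟨Set.ncard_sdiff_singleton_lt_of_mem hc.1 I.2.2.1, x, i, hc, h2.symm⟩, h2.symm⟩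
  · exact ⟨Ty.dart (mkDart x i), ⟨(Set.ncard_pos I.2.2.1).2 I.2.2.2, x, i, hc, h.symm⟩, h.symm⟩

lemma finite_quot (S : Ty T) :
    Finite (stabilizer (U T F) S ⧸ (KT F S).subgroupOf (stabilizer (U T F) S)) := by
  have hfin : Finite (supp S) := (supp_finite S).to_subtype
  let r : stabilizer (U T F) S → (supp S → supp S) := fun h y => ⟨h.1.1 y, by
    have h1 := supp_smul h.1 S
    rw [h.2] at h1
    exact h1.ge ⟨y, y.2, rfl⟩⟩
  refine Finite.of_injective (fun q => r (Quotient.out q)) fun p q e => ?_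
  rw [← Quotient.out_eq p, ← Quotient.out_eq q]
  refine Quotient.sound (QuotientGroup.leftRel_apply.2 fun y hy => ?_)
  have h1 : (Quotient.out p).1.1 y = (Quotient.out q).1.1 y :=
    congrArg Subtype.val (congrFun e ⟨y, hy⟩)
  change ((Quotient.out p).1⁻¹).1 ((Quotient.out q).1.1 y) = y
  rw [← h1, inv_app]

/-- the combinatorial facts on the fixators of types -/
theorem comb {τ : Equiv.Perm (Fin d)} (hτ : τ ∈ F) (h1 : τ ≠ 1) {i : Fin d} (hi : τ i = i) :
    Grp.Comb (G := U T F) (size (T := T)) sub (KT F) where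
  size_smul g S := by
    rcases Ty.cases S with ⟨x, rfl⟩ | ⟨I, rfl⟩
    · rfl
    · exact Set.ncard_image_of_injective _ g.1.injective
  sub_fin S := by
    rcases Ty.cases S with ⟨x, rfl⟩ | ⟨I, rfl⟩
    · exact Set.finite_empty
    · refine (finite_supp_subset (nb_finite T I.2.2.1)).subset ?_
      rintro S ⟨-, x, j, hc, h⟩
      exact h.trans_subset (chSet_subset T hc)
  sub_size S S' h := by
    rcases Ty.cases S with ⟨x, rfl⟩ | ⟨I, rfl⟩
    · exact h.elim
    · exact h.1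
  K_le S S' h := by
    rcases Ty.cases S with ⟨x, rfl⟩ | ⟨I, rfl⟩
    · exact h.elim
    · obtain ⟨-, x, j, hc, h⟩ := h
      exact fun g hg y hy => hg y (chSet_subset T hc (h ▸ hy))
  sub_stab S S' h := by
    rcases Ty.cases S with ⟨x, rfl⟩ | ⟨I, rfl⟩
    · exact h.elim
    · obtain ⟨-, x, j, -, h⟩ := h
      exact fun g hg => stab_cset fun y hy => hg y (h ▸ subset_chSet T _ x j hy)
  fin S _ := finite_quot S
  fact S S₂ hS hle hne := by
    rcases Ty.cases S with ⟨x, rfl⟩ | ⟨I, rfl⟩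
    · exact absurd hS (by rw [size_dart]; omega)
    have key : ∃ J, J ⊆ supp S₂ ∧ OneSide T J (supp S₂) ∧ ¬ I.1 ⊆ J := by
      rcases Ty.cases S₂ with ⟨x, rfl⟩ | ⟨J, rfl⟩
      · obtain ⟨v, k, rfl⟩ := exists_mkDart x
        exact ⟨∅, Set.empty_subset _, oneSide_dart T v k,
          fun h => I.2.2.2.ne_empty (Set.subset_empty_iff.1 h)⟩
      · exact ⟨J.1, subset_nb T _, oneSide_nb T J.2.1 J.2.2.2, fun h => hne (congrArg Ty.cset
          (Subtype.ext (Set.eq_of_subset_of_ncard_le h hle J.2.2.1).symm))⟩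
    obtain ⟨J, a1, a2, a3⟩ := key
    obtain ⟨x, j, hc, hf⟩ := fac T (F := F) I.2.1 I.2.2.1 (supp_nonempty S₂) a1 a2 a3
    obtain ⟨S', b1, b2⟩ := exists_sub I hc
    refine ⟨S', b1, fun k hk => ?_⟩
    obtain ⟨g1, g2, e, c1, c2⟩ := hf k fun y hy => hk y (b2 ▸ hy)
    exact ⟨g1, c1, g2, c2, e⟩
  K_stab S := by
    rcases Ty.cases S with ⟨x, rfl⟩ | ⟨I, rfl⟩
    · exact fun g hg => congrArg Ty.dart (mem_KT_dart.1 hg)
    · exact fun g hg => stab_cset fun y hy => hg y (subset_nb T _ hy)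
  orb S _ := by
    obtain ⟨l, hl⟩ : ∃ l, τ l ≠ l := by
      by_contra h
      exact h1 (Equiv.ext fun l => by_contra fun e => h ⟨l, e⟩)
    intro h
    refine infinite_translates T (F := F) (i := i) (j := l) (fun e => hl (e ▸ hi))
      (supp_finite S) (supp_nonempty S) ((h.image supp).subset ?_)
    rintro _ ⟨g, rfl⟩
    exact ⟨g • S, ⟨g, rfl⟩, supp_smul g S⟩
  nz N := by
    obtain ⟨I, hc, hI, hne, hn, k1, k2, hk, f1, f2, n1, n2, n3, hch⟩ := many T hτ h1 hi (N + 1)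
    refine ⟨Ty.cset ⟨I, hc, hI, hne⟩, hn, k1, stab_cset f1, k2, stab_cset f2, hk, n1, n2, n3, ?_⟩
    rintro S' ⟨-, x, j, h, e⟩
    rcases hch x j h with h' | h'
    · exact Or.inl fun y hy => h' y (e ▸ hy)
    · exact Or.inr fun y hy => h' y (e ▸ hy)

end Pool.Agent.Lib.MP_9a581e_an.T20
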