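import Mathlib
import Pool.Agent.Lib.MP_9a581e_an.Defs

set_option autoImplicit false

namespace Pool.Agent.Lib.MP_9a581e_an.Gram

open Pool.Agent.Lib.MP_9a581e_an

variable {H K : Type} [NormedAddCommGroup H] [InnerProductSpace ℂ H] [CompleteSpace H]
  [NormedAddCommGroup K] [InnerProductSpace ℂ K] [CompleteSpace K]

theorem exists_unitary {α : Type*} (x : α → H) (y : α → K)
    (hx : Dense (Submodule.span ℂ (Set.range x) : Set H))
    (hy : Dense (Submodule.span ℂ (Set.range y) : Set K))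
    (hg : ∀ a b, inner ℂ (x a) (x b) = inner ℂ (y a) (y b)) :
    ∃ W : H ≃ₗᵢ[ℂ] K, ∀ a, W (x a) = y a := by
  have h1 : DenseRange (Finsupp.linearCombination ℂ x) := by
    rw [← Finsupp.range_linearCombination] at hx
    exact hx
  have h2 : DenseRange (Finsupp.linearCombination ℂ y) := by
    rw [← Finsupp.range_linearCombination] at hy
    exact hy
  have h3 : ∀ f : α →₀ ℂ, ‖Finsupp.linearCombination ℂ y (LinearEquiv.refl ℂ _ f)‖ =
      ‖Finsupp.linearCombination ℂ x f‖ := by
    intro f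
    have : inner ℂ (Finsupp.linearCombination ℂ y f) (Finsupp.linearCombination ℂ y f) =
        inner ℂ (Finsupp.linearCombination ℂ x f) (Finsupp.linearCombination ℂ x f) := by
      simp only [Finsupp.linearCombination_apply, Finsupp.sum, sum_inner, inner_sum,
        inner_smul_left, inner_smul_right, hg]
    rw [LinearEquiv.refl_apply, @norm_eq_sqrt_re_inner ℂ, @norm_eq_sqrt_re_inner ℂ, this]
  refine ⟨(LinearEquiv.refl ℂ (α →₀ ℂ)).extendOfIsometry _ _ h1 h2 h3, fun a => ?_⟩
  have := (LinearEquiv.refl ℂ (α →₀ ℂ)).extendOfIsometry_eq _ _ h1 h2 h3 (Finsupp.single a 1)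
  simpa using this

theorem conj_cont (X : H ≃ₗᵢ[ℂ] K) : Continuous X.conjStarAlgEquiv := by
  have : (X.conjStarAlgEquiv : (H →L[ℂ] H) → (K →L[ℂ] K)) =
      fun x => (X : H →L[ℂ] K) ∘L x ∘L (X.symm : K →L[ℂ] H) := rfl
  rw [this]
  exact continuous_const.clm_comp (continuous_id.clm_comp continuous_const)

theorem gram_iso {α β : Type*} (x : α → H) (y : α → K)
    (hx : Dense (Submodule.span ℂ (Set.range x) : Set H))
    (hy : Dense (Submodule.span ℂ (Set.range y) : Set K))
    (hg : ∀ a b, inner ℂ (x a) (x b) = inner ℂ (y a) (y b))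
    (S : β → H →L[ℂ] H) (T : β → K →L[ℂ] K)
    (hT : ∀ a b c, inner ℂ (x a) (S b (x c)) = inner ℂ (y a) (T b (y c))) :
    StarIso (closure (Submodule.span ℂ (Set.range S) : Set (H →L[ℂ] H)))
      (closure (Submodule.span ℂ (Set.range T) : Set (K →L[ℂ] K))) := by
  obtain ⟨W, hW⟩ := exists_unitary x y hx hy hg
  have h1 : ∀ b, W.conjStarAlgEquiv (S b) = T b := by
    intro b
    refine ContinuousLinearMap.ext_on hy ?_
    rintro _ ⟨c, rfl⟩
    rw [LinearIsometryEquiv.conjStarAlgEquiv_apply_apply, ← hW c, W.symm_apply_apply, hW c]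
    have h2 : innerSL ℂ (W (S b (x c))) = innerSL ℂ (T b (y c)) := by
      refine ContinuousLinearMap.ext_on hy ?_
      rintro _ ⟨a, rfl⟩
      rw [innerSL_apply_apply, innerSL_apply_apply, ← inner_conj_symm, ← hW a, W.inner_map_map, hT,
        inner_conj_symm, hW a]
    exact ext_inner_right ℂ fun v => by
      have := congrArg (fun L : K →L[ℂ] ℂ => L v) h2
      simpa using this
  let Hm : (H →L[ℂ] H) ≃ₜ (K →L[ℂ] K) :=
    Homeomorph.mk W.conjStarAlgEquiv.toEquiv (conj_cont W) (conj_cont W.symm)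
  refine ⟨W.conjStarAlgEquiv, ?_⟩
  have h4 := Hm.image_closure (Submodule.span ℂ (Set.range S) : Set (H →L[ℂ] H))
  have h5 : Hm '' (Submodule.span ℂ (Set.range S) : Set (H →L[ℂ] H)) =
      (Submodule.span ℂ (Set.range T) : Set (K →L[ℂ] K)) := by
    let L : (H →L[ℂ] H) →ₗ[ℂ] (K →L[ℂ] K) := W.conjStarAlgEquiv.toAlgEquiv.toLinearMap
    have h6 : Submodule.map L (Submodule.span ℂ (Set.range S)) =
        Submodule.span ℂ (Set.range T) := by
      rw [Submodule.map_span, ← Set.range_comp]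
      exact congrArg (fun f => Submodule.span ℂ (Set.range f)) (funext h1)
    rw [← h6, Submodule.map_coe]
    rfl
  rw [h5] at h4
  exact h4

end Pool.Agent.Lib.MP_9a581e_an.Gram
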