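import Mathlib
import Pool.Agent.Lib.MP_9a581e_an.Gram38

set_option autoImplicit false
set_option linter.unusedSectionVars false

namespace Pool.Agent.Lib.MP_9a581e_an.Cusp

open Submodule

variable {H : Type} [NormedAddCommGroup H] [InnerProductSpace ℂ H] [CompleteSpace H]

omit [CompleteSpace H] in
theorem countable_of_orthonormal [TopologicalSpace.SeparableSpace H] {ι : Type*} (v : ι → H)
    (hv : Orthonormal ℂ v) : Countable ι := by
  refine Pairwise.countable_of_isOpen_disjoint (s := fun i => Metric.ball (v i) (1 / 2))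
    (fun i j hij => Metric.ball_disjoint_ball ?_) (fun i => Metric.isOpen_ball)
    (fun i => Metric.nonempty_ball.2 (by norm_num))
  have h1 : ‖v i - v j‖ ^ 2 = 2 := by
    rw [@norm_sub_sq ℂ, hv.inner_eq_zero hij, hv.1 i, hv.1 j]
    norm_num
  rw [dist_eq_norm]
  nlinarith [norm_nonneg (v i - v j)]

/-- a closed subspace of a separable Hilbert space with an orthogonal sequence of nonzero vectors
has an orthonormal basis indexed by the naturals -/
theorem exists_onb [TopologicalSpace.SeparableSpace H] (M : Submodule ℂ H)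
    (hM : IsClosed (M : Set H)) (z : ℕ → H) (hz : ∀ n, z n ∈ M) (hz0 : ∀ n, z n ≠ 0)
    (hzo : Pairwise fun n m => inner ℂ (z n) (z m) = 0) :
    ∃ m : ℕ → H, Orthonormal ℂ m ∧ (∀ i, m i ∈ M) ∧
      ∀ x ∈ M, x ∈ closure (span ℂ (Set.range m) : Set H) := by
  have : CompleteSpace M := hM.completeSpace_coe
  obtain ⟨w, b, hb⟩ := exists_hilbertBasis ℂ M
  have ho : Orthonormal ℂ (fun i : w => ((b i : M) : H)) :=
    b.orthonormal.comp_linearIsometry M.subtypeₗᵢ
  have : Countable w := countable_of_orthonormal _ ho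
  have : Infinite w := by
    rw [← not_finite_iff_infinite]
    intro hfin
    have h1 : FiniteDimensional ℂ (span ℂ (Set.range b)) :=
      FiniteDimensional.span_of_finite ℂ (Set.finite_range b)
    have h2 : span ℂ (Set.range b) = ⊤ := by
      rw [← b.dense_span]
      exact (IsClosed.submodule_topologicalClosure_eq (closed_of_finiteDimensional _)).symm
    rw [h2] at h1
    have h3 : FiniteDimensional ℂ M := Module.Finite.equiv (Submodule.topEquiv)
    have h4 : LinearIndependent ℂ (fun n => (⟨z n, hz n⟩ : M)) :=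
      linearIndependent_of_ne_zero_of_inner_eq_zero (fun n h => hz0 n (congrArg Subtype.val h))
        (fun n m h => hzo h)
    have := h4.finite
    exact not_finite ℕ
  obtain ⟨e⟩ : Nonempty (ℕ ≃ w) := nonempty_equiv_of_countable
  refine ⟨fun i => (b (e i) : M), ho.comp e e.injective, fun i => (b (e i)).2, fun x hx => ?_⟩
  have h1 : (⟨x, hx⟩ : M) ∈ closure (span ℂ (Set.range b) : Set M) := by
    rw [← topologicalClosure_coe, b.dense_span]
    trivial
  have h2 := image_closure_subset_closure_image (f := M.subtypeL) M.subtypeL.continuous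
    (Set.mem_image_of_mem _ h1)
  refine closure_mono ?_ h2
  rintro _ ⟨y, hy, rfl⟩
  have h3 : map M.subtype (span ℂ (Set.range b)) ≤ span ℂ (Set.range fun i => ((b (e i) : M) : H)) := by
    rw [map_span, span_le]
    rintro _ ⟨_, ⟨i, rfl⟩, rfl⟩
    exact subset_span ⟨e.symm i, by simp⟩
  exact h3 (mem_map_of_mem hy)

theorem exists_unit {r : H →L[ℂ] H} (hrr : r * r = r) (hr0 : r ≠ 0) :
    ∃ η : H, ‖η‖ = 1 ∧ r η = η := by
  obtain ⟨ξ, hξ⟩ : ∃ ξ, r ξ ≠ 0 := by
    by_contra h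
    exact hr0 (ContinuousLinearMap.ext fun ξ => by simpa using not_exists.1 h ξ)
  refine ⟨((‖r ξ‖⁻¹ : ℝ) : ℂ) • r ξ, ?_, ?_⟩
  · rw [norm_smul, Complex.norm_real, norm_inv, norm_norm, inv_mul_cancel₀ (norm_ne_zero_iff.2 hξ)]
  · rw [map_smul, ← mul_apply_eq_comp, hrr]

theorem inner_op (a b : H →L[ℂ] H) (ξ η : H) :
    inner ℂ (a ξ) (b η) = inner ℂ ξ ((star a * b) η) := by
  rw [mul_apply_eq_comp, ContinuousLinearMap.star_eq_adjoint,
    ContinuousLinearMap.adjoint_inner_right]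

theorem norm_le_eval {r a : H →L[ℂ] H} (hrs : star r = r) (hrr : r * r = r) {η : H}
    (h1 : ‖η‖ = 1) (h2 : r η = η) {c : ℂ} (hc : star a * a = c • r) : ‖a‖ ≤ ‖a η‖ := by
  have hr1 : ‖r‖ ≤ 1 := by
    have h3 : ‖r‖ * ‖r‖ = ‖r‖ := by
      rw [← CStarRing.norm_star_mul_self, hrs, hrr]
    nlinarith [norm_nonneg r]
  have h3 : inner ℂ (a η) (a η) = c := by
    rw [inner_op, hc, smul_apply, h2, inner_smul_right,
      inner_self_eq_norm_sq_to_K, h1]
    simp
  have h4 : ‖c‖ = ‖a η‖ * ‖a η‖ := by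
    rw [← h3, inner_self_eq_norm_sq_to_K]
    simp [sq]
  have h5 : ‖a‖ * ‖a‖ ≤ ‖a η‖ * ‖a η‖ := by
    rw [← CStarRing.norm_star_mul_self, hc, norm_smul, ← h4]
    nlinarith [norm_nonneg c]
  exact nonneg_le_nonneg_of_sq_le_sq (norm_nonneg _) h5

/-- matrix units for one minimal projection -/
theorem block [TopologicalSpace.SeparableSpace H] (A : Submodule ℂ (H →L[ℂ] H))
    (hcl : IsClosed (A : Set (H →L[ℂ] H))) (hmul : ∀ a ∈ A, ∀ b ∈ A, a * b ∈ A)
    (hst : ∀ a ∈ A, star a ∈ A) {r : H →L[ℂ] H} (hr : r ∈ A) (hrs : star r = r)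
    (hrr : r * r = r) (hr0 : r ≠ 0) (hmin : ∀ a ∈ A, ∃ c : ℂ, r * a * r = c • r)
    (z : ℕ → H →L[ℂ] H) (hz : ∀ n, z n ∈ A) (hz0 : ∀ n, z n * r ≠ 0)
    (hzo : Pairwise fun n m => r * star (z n) * z m * r = 0) :
    ∃ v : ℕ → H →L[ℂ] H, (∀ i, v i ∈ A) ∧ (∀ i, v i * r = v i) ∧
      (∀ i j, star (v i) * v j = if i = j then r else 0) ∧
      ∀ a ∈ A, a * r ∈ closure (span ℂ (Set.range v) : Set (H →L[ℂ] H)) := by
  obtain ⟨η, h1, h2⟩ := exists_unit hrr hr0
  let R : (H →L[ℂ] H) →L[ℂ] (H →L[ℂ] H) := (ContinuousLinearMap.mul ℂ (H →L[ℂ] H)).flip r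
  let B : Submodule ℂ (H →L[ℂ] H) := A ⊓ LinearMap.eqLocus R.toLinearMap LinearMap.id
  have hB : ∀ a, a ∈ B ↔ a ∈ A ∧ a * r = a := fun a => Iff.rfl
  have hBc : IsClosed (B : Set (H →L[ℂ] H)) :=
    hcl.inter (isClosed_eq R.continuous continuous_id)
  have hsc : ∀ a ∈ B, ∀ b ∈ B, star a * b = (inner ℂ (a η) (b η) : ℂ) • r := by
    intro a ha b hb
    obtain ⟨c, hc⟩ := hmin _ (hmul _ (hst _ ha.1) _ hb.1)
    have h3 : r * (star a * b) * r = star a * b := by
      have h4 : r * star a = star a := by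
        have h5 := congrArg star ((hB a).1 ha).2
        rwa [star_mul, hrs] at h5
      rw [← mul_assoc, h4, mul_assoc, ((hB b).1 hb).2]
    rw [h3] at hc
    rw [inner_op, hc, smul_apply, h2, inner_smul_right,
      inner_self_eq_norm_sq_to_K, h1]
    simp
  have hle : ∀ a ∈ B, ‖a‖ ≤ ‖a η‖ := fun a ha => norm_le_eval hrs hrr h1 h2 (hsc a ha a ha)
  let ev : (H →L[ℂ] H) →L[ℂ] H := ContinuousLinearMap.apply ℂ H η
  have : CompleteSpace B := hBc.completeSpace_coe
  have hanti : AntilipschitzWith 1 (ev.comp B.subtypeL) :=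
    ContinuousLinearMap.antilipschitz_of_bound _ fun a => by
      rw [NNReal.coe_one, one_mul]
      exact hle a.1 a.2
  have hM : IsClosed ((B.map ev.toLinearMap : Submodule ℂ H) : Set H) := by
    have h3 := hanti.isClosed_range (ev.comp B.subtypeL).uniformContinuous
    have h4 : ((B.map ev.toLinearMap : Submodule ℂ H) : Set H) = Set.range (ev.comp B.subtypeL) := by
      ext x
      constructor
      · rintro ⟨a, ha, rfl⟩
        exact ⟨⟨a, ha⟩, rfl⟩
      · rintro ⟨a, rfl⟩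
        exact ⟨a.1, a.2, rfl⟩
    rwa [h4]
  have hzB : ∀ a ∈ A, a * r ∈ B := fun a ha => ⟨hmul _ ha _ hr, by
    change a * r * r = a * r
    rw [mul_assoc, hrr]⟩
  obtain ⟨m, hm1, hm2, hm3⟩ := exists_onb (B.map ev.toLinearMap) hM (fun n => (z n * r) η)
    (fun n => ⟨_, hzB _ (hz n), rfl⟩)
    (fun n h => hz0 n (by
      have := hle _ (hzB _ (hz n))
      rw [h, norm_zero] at this
      exact norm_le_zero_iff.1 this))
    (fun n k h => by
      have h3 : star (z n * r) * (z k * r) = 0 := by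
        rw [star_mul, hrs, ← mul_assoc]
        exact hzo h
      change inner ℂ ((z n * r) η) ((z k * r) η) = 0
      rw [inner_op, h3]
      simp)
  choose v hv1 hv2 using hm2
  have hv3 : ∀ i, v i η = m i := hv2
  refine ⟨v, fun i => (hv1 i).1, fun i => (hv1 i).2, fun i j => ?_, fun a ha => ?_⟩
  · rw [hsc _ (hv1 i) _ (hv1 j), hv3, hv3, orthonormal_iff_ite.1 hm1]
    split_ifs <;> simp
  · have h3 := hm3 _ ⟨_, hzB a ha, rfl⟩
    rw [Metric.mem_closure_iff] at h3 ⊢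
    intro ε hε
    obtain ⟨y, hy, hd⟩ := h3 ε hε
    have h4 : span ℂ (Set.range m) = map ev.toLinearMap (span ℂ (Set.range v)) := by
      rw [map_span, ← Set.range_comp]
      exact congrArg (fun f => span ℂ (Set.range f)) (funext fun i => (hv3 i).symm)
    rw [h4] at hy
    obtain ⟨s, hs, rfl⟩ := hy
    have h5 : s ∈ B := (span_le.2 (Set.range_subset_iff.2 hv1)) hs
    refine ⟨s, hs, lt_of_le_of_lt ?_ hd⟩
    rw [dist_eq_norm, dist_eq_norm]
    exact hle _ (B.sub_mem (hzB a ha) h5)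

theorem mem_clos_apply {ι κ : Type*} (v : ι → H →L[ℂ] H) (η : κ → H) {a : H →L[ℂ] H} {x : H}
    (ha : a ∈ closure (span ℂ (Set.range v) : Set (H →L[ℂ] H)))
    (hx : x ∈ closure (span ℂ (Set.range η) : Set H)) (C : Submodule ℂ H)
    (hC : IsClosed (C : Set H)) (h : ∀ i j, v i (η j) ∈ C) : a x ∈ C := by
  have h1 : ∀ i, v i x ∈ C := fun i =>
    closure_minimal (t := (C.comap (v i).toLinearMap : Set H))
      (span_le.2 (Set.range_subset_iff.2 (h i))) (hC.preimage (v i).continuous) hx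
  exact closure_minimal
    (t := (C.comap (ContinuousLinearMap.apply ℂ H x).toLinearMap : Set (H →L[ℂ] H)))
    (span_le.2 (Set.range_subset_iff.2 h1))
    (hC.preimage (ContinuousLinearMap.apply ℂ H x).continuous) ha

theorem mem_clos_mul {ι : Type*} (v : ι → H →L[ℂ] H) {a b : H →L[ℂ] H}
    (ha : a ∈ closure (span ℂ (Set.range v) : Set (H →L[ℂ] H)))
    (hb : b ∈ closure (span ℂ (Set.range v) : Set (H →L[ℂ] H))) (C : Submodule ℂ (H →L[ℂ] H))
    (hC : IsClosed (C : Set (H →L[ℂ] H))) (h : ∀ i j, v i * star (v j) ∈ C) :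
    a * star b ∈ C := by
  have h1 : ∀ i, v i * star b ∈ C := by
    intro i
    refine closure_minimal (t := {y | v i * star y ∈ C}) (fun y hy => ?_)
      (hC.preimage (continuous_const.mul continuous_star)) hb
    induction hy using span_induction with
    | mem y hy => obtain ⟨j, rfl⟩ := hy; exact h i j
    | zero => simp
    | add y z _ _ hy hz =>
      change v i * star (y + z) ∈ C
      rw [star_add, mul_add]
      exact C.add_mem hy hz
    | smul c y _ hy =>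
      change v i * star (c • y) ∈ C
      rw [star_smul, mul_smul_comm]
      exact C.smul_mem _ hy
  let R : (H →L[ℂ] H) →L[ℂ] (H →L[ℂ] H) :=
    (ContinuousLinearMap.mul ℂ (H →L[ℂ] H)).flip (star b)
  exact closure_minimal (t := (C.comap R.toLinearMap : Set (H →L[ℂ] H)))
    (span_le.2 (Set.range_subset_iff.2 h1)) (hC.preimage R.continuous) ha

/-- the data of an operator algebra that splits into a part spanned by `T` and a part generated
by minimal projections -/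
structure Data {P Q : Type} (A : Submodule ℂ (H →L[ℂ] H)) (u : P → H) (T : Q → H →L[ℂ] H)
    (R : Set (H →L[ℂ] H)) : Prop where
  closed : IsClosed (A : Set (H →L[ℂ] H))
  mul : ∀ a ∈ A, ∀ b ∈ A, a * b ∈ A
  st : ∀ a ∈ A, star a ∈ A
  T_mem : ∀ b, T b ∈ A
  T_ran : ∀ b x, T b x ∈ closure (span ℂ (Set.range u) : Set H)
  T_star_ran : ∀ b x, star (T b) x ∈ closure (span ℂ (Set.range u) : Set H)
  R_mem : ∀ r ∈ R, r ∈ A
  R_star : ∀ r ∈ R, star r = r
  R_idem : ∀ r ∈ R, r * r = r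
  R_ne : ∀ r ∈ R, r ≠ 0
  R_min : ∀ r ∈ R, ∀ a ∈ A, ∃ c : ℂ, r * a * r = c • r
  R_kill : ∀ r ∈ R, ∀ a ∈ A, ∀ p, r (a (u p)) = 0
  R_alg : ∀ r ∈ R, ∃ z : ℕ → H →L[ℂ] H, (∀ n, z n ∈ A) ∧ (∀ n, z n * r ≠ 0) ∧
    Pairwise fun n m => r * star (z n) * z m * r = 0
  R_vec : ∀ r ∈ R, ∃ y : ℕ → H, (∀ n, r (y n) ≠ 0) ∧
    Pairwise fun n m => inner ℂ (r (y n)) (r (y m)) = 0
  gen : ∀ a ∈ A, a ∈ closure (span ℂ (Set.range T ∪
    {x | ∃ r ∈ R, ∃ a ∈ A, ∃ b ∈ A, x = a * r * b}) : Set (H →L[ℂ] H))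
  nondeg : Dense (span ℂ {y | ∃ a ∈ A, ∃ x, y = a x} : Set H)
  many : ∃ r : ℕ → H →L[ℂ] H, (∀ n, r n ∈ R) ∧
    Pairwise fun n m => ∀ a ∈ A, r n * a * r m = 0

namespace Data

variable {P Q : Type} {A : Submodule ℂ (H →L[ℂ] H)} {u : P → H} {T : Q → H →L[ℂ] H}
  {R : Set (H →L[ℂ] H)} (D : Data A u T R)
include D

theorem link {r s x : H →L[ℂ] H} (hr : r ∈ R) (hs : s ∈ R) (hx : x ∈ A) (h : r * x * s ≠ 0) :
    ∃ c : ℂ, c ≠ 0 ∧ star (r * x * s) * (r * x * s) = c • s := by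
  obtain ⟨c, hc⟩ := D.R_min s hs (star x * r * x)
    (D.mul _ (D.mul _ (D.st _ hx) _ (D.R_mem r hr)) _ hx)
  have h1 : star (r * x * s) * (r * x * s) = c • s := by
    rw [← hc, star_mul, star_mul, D.R_star r hr, D.R_star s hs]
    calc s * (star x * r) * (r * x * s) = s * (star x * (r * r) * x) * s := by
          simp only [mul_assoc]
      _ = _ := by rw [D.R_idem r hr]
  refine ⟨c, fun h0 => h ?_, h1⟩
  rw [h0, zero_smul] at h1
  exact (CStarRing.star_mul_self_eq_zero_iff _).1 h1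

theorem link_symm {r s x : H →L[ℂ] H} (hr : r ∈ R) (hs : s ∈ R) (h : r * x * s ≠ 0) :
    s * star x * r ≠ 0 := by
  intro h0
  have h1 := congrArg star h0
  rw [star_mul, star_mul, star_star, D.R_star r hr, D.R_star s hs, star_zero, ← mul_assoc] at h1
  exact h h1

/-- two minimal projections are equivalent if the algebra links them -/
def rel : Setoid R where
  r r s := ∃ x ∈ A, r.1 * x * s.1 ≠ 0
  iseqv := by
    refine ⟨fun r => ⟨r.1, D.R_mem _ r.2, ?_⟩, fun {r s} ⟨x, hx, h⟩ =>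
      ⟨star x, D.st _ hx, D.link_symm r.2 s.2 h⟩, fun {r s t} ⟨x, hx, h⟩ ⟨y, hy, h'⟩ =>
      ⟨x * s.1 * y, D.mul _ (D.mul _ hx _ (D.R_mem _ s.2)) _ hy, fun h0 => ?_⟩⟩
    · rw [D.R_idem _ r.2, D.R_idem _ r.2]
      exact D.R_ne _ r.2
    · obtain ⟨c, hc, h1⟩ := D.link r.2 s.2 hx h
      have h2 : star (r.1 * x * s.1) * (r.1 * (x * s.1 * y) * t.1) = c • (s.1 * y * t.1) := by
        rw [← smul_mul_assoc, ← smul_mul_assoc, ← h1]
        simp only [mul_assoc]
      rw [h0, mul_zero] at h2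
      exact h' ((smul_eq_zero.1 h2.symm).resolve_left hc)

theorem reps [TopologicalSpace.SeparableSpace H] :
    ∃ r : ℕ → H →L[ℂ] H, (∀ n, r n ∈ R) ∧ (Pairwise fun n m => ∀ a ∈ A, r n * a * r m = 0) ∧
      ∀ s ∈ R, ∃ n, ∃ x ∈ A, s * x * r n ≠ 0 := by
  have hq : ∀ p q : Quotient D.rel, p ≠ q → ∀ a ∈ A, p.out.1 * a * q.out.1 = 0 := by
    intro p q hpq a ha
    by_contra h
    exact hpq (Quotient.out_equiv_out.1 ⟨a, ha, h⟩)
  choose η h1 h2 using fun p : Quotient D.rel =>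
    exists_unit (D.R_idem _ p.out.2) (D.R_ne _ p.out.2)
  have ho : Orthonormal ℂ η := by
    refine ⟨h1, fun p q hpq => ?_⟩
    have h3 := hq p q hpq _ (D.R_mem _ q.out.2)
    rw [mul_assoc, D.R_idem _ q.out.2] at h3
    change inner ℂ (η p) (η q) = 0
    rw [← h2 p, ← h2 q, inner_op, D.R_star _ p.out.2, h3]
    simp
  have : Countable (Quotient D.rel) := countable_of_orthonormal η ho
  obtain ⟨r, hr1, hr2⟩ := D.many
  have : Infinite (Quotient D.rel) :=
    Infinite.of_injective (fun n => (Quotient.mk D.rel ⟨r n, hr1 n⟩)) fun n m h => by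
      by_contra hnm
      obtain ⟨x, hx, h3⟩ := Quotient.exact h
      exact h3 (hr2 hnm x hx)
  obtain ⟨e⟩ : Nonempty (ℕ ≃ Quotient D.rel) := nonempty_equiv_of_countable
  refine ⟨fun n => (e n).out.1, fun n => (e n).out.2,
    fun n m h => hq _ _ (e.injective.ne h), fun s hs => ⟨e.symm (Quotient.mk D.rel ⟨s, hs⟩), ?_⟩⟩
  simp only [e.apply_symm_apply]
  exact D.rel.symm (Quotient.mk_out (s := D.rel) ⟨s, hs⟩)

theorem kill {r a : H →L[ℂ] H} (hr : r ∈ R) (ha : a ∈ A) {x : H}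
    (hx : x ∈ closure (span ℂ (Set.range u) : Set H)) : r (a x) = 0 :=
  closure_minimal (t := (LinearMap.ker (r * a).toLinearMap : Set H))
    (span_le.2 (Set.range_subset_iff.2 (D.R_kill r hr a ha))) (r * a).isClosed_ker hx

theorem model [TopologicalSpace.SeparableSpace H] :
    ∃ (ξ : ℕ × ℕ × ℕ → H) (E : ℕ × ℕ × ℕ → H →L[ℂ] H),
      Dense (span ℂ (Set.range (Sum.elim u ξ)) : Set H) ∧
      (A : Set (H →L[ℂ] H)) = closure (span ℂ (Set.range (Sum.elim T E)) : Set (H →L[ℂ] H)) ∧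
      Orthonormal ℂ ξ ∧ (∀ i, ∀ x ∈ closure (span ℂ (Set.range u) : Set H), inner ℂ (ξ i) x = 0) ∧
      (∀ b i, T b (ξ i) = 0) ∧ (∀ i p, E i (u p) = 0) ∧
      ∀ n i j m k l, E (n, i, j) (ξ (m, k, l)) = if n = m ∧ j = k then ξ (n, i, l) else 0 := by
  obtain ⟨r, hr, hro, hrep⟩ := D.reps
  have hv := fun n => (D.R_alg _ (hr n)).elim fun z hz =>
    block A D.closed D.mul D.st (D.R_mem _ (hr n)) (D.R_star _ (hr n)) (D.R_idem _ (hr n))
      (D.R_ne _ (hr n)) (D.R_min _ (hr n)) z hz.1 hz.2.1 hz.2.2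
  choose v hv1 hv2 hv3 hv4 using hv
  have hη : ∀ n, ∃ m : ℕ → H, Orthonormal ℂ m ∧ (∀ i, r n (m i) = m i) ∧
      ∀ x, r n x ∈ closure (span ℂ (Set.range m) : Set H) := by
    intro n
    obtain ⟨y, hy1, hy2⟩ := D.R_vec _ (hr n)
    have h0 : ∀ x, r n (r n x) = r n x := fun x => by
      rw [← mul_apply_eq_comp, D.R_idem _ (hr n)]
    obtain ⟨m, hm1, hm2, hm3⟩ := exists_onb (LinearMap.eqLocus (r n).toLinearMap LinearMap.id)
      (isClosed_eq (r n).continuous continuous_id) (fun k => r n (y k)) (fun k => h0 _) hy1 hy2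
    exact ⟨m, hm1, hm2, fun x => hm3 _ (h0 x)⟩
  choose η hη1 hη2 hη3 using hη
  have hsv : ∀ n i, r n * star (v n i) = star (v n i) := fun n i => by
    have h5 := congrArg star (hv2 n i)
    rwa [star_mul, D.R_star _ (hr n)] at h5
  have hvv : ∀ n i m k, star (v n i) * v m k = if n = m ∧ i = k then r n else 0 := by
    intro n i m k
    by_cases h : n = m
    · subst h
      simp [hv3]
    · rw [if_neg (fun h' => h h'.1), ← hsv, ← hv2 m k, ← hro h _ (D.mul _ (D.st _ (hv1 n i)) _ (hv1 m k))]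
      simp only [mul_assoc]
  have hku : ∀ n i, ∀ x ∈ closure (span ℂ (Set.range u) : Set H), star (v n i) x = 0 := by
    intro n i x hx
    rw [← hsv, mul_apply_eq_comp]
    exact D.kill (hr n) (D.st _ (hv1 n i)) hx
  let ξ : ℕ × ℕ × ℕ → H := fun t => v t.1 t.2.1 (η t.1 t.2.2)
  let E : ℕ × ℕ × ℕ → H →L[ℂ] H := fun t => v t.1 t.2.1 * star (v t.1 t.2.2)
  let C := (span ℂ (Set.range (Sum.elim T E))).topologicalClosure
  have hC : ∀ a ∈ A, a ∈ C := by
    intro a ha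
    refine closure_minimal (t := (C : Set (H →L[ℂ] H))) (span_le.2 ?_)
      (isClosed_topologicalClosure _) (D.gen a ha)
    rintro _ (⟨b, rfl⟩ | ⟨s, hs, a, ha, b, hb, rfl⟩)
    · exact le_topologicalClosure _ (subset_span ⟨Sum.inl b, rfl⟩)
    · obtain ⟨n, x, hx, h1⟩ := hrep s hs
      obtain ⟨c, hc, h2⟩ := D.link (hr n) hs (D.st _ hx) (D.link_symm hs (hr n) h1)
      have h3 : a * s * b = c⁻¹ • ((a * s * x * r n) * star (star b * s * x * r n)) := by
        rw [eq_inv_smul_iff₀ hc, ← smul_mul_assoc, ← mul_smul_comm, ← h2]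
        simp only [star_mul, star_star, D.R_star _ hs, D.R_star _ (hr n), mul_assoc]
      rw [h3]
      refine C.smul_mem _ (mem_clos_mul (v n)
        (hv4 n _ (D.mul _ (D.mul _ ha _ (D.R_mem _ hs)) _ hx))
        (hv4 n _ (D.mul _ (D.mul _ (D.st _ hb) _ (D.R_mem _ hs)) _ hx)) C
        (isClosed_topologicalClosure _) fun i j =>
          le_topologicalClosure _ (subset_span ⟨Sum.inr (n, i, j), rfl⟩))
  refine ⟨ξ, E, ?_, ?_, ?_, ?_, ?_, ?_, ?_⟩
  · let M := (span ℂ (Set.range (Sum.elim u ξ))).topologicalClosure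
    have hM : IsClosed (M : Set H) := isClosed_topologicalClosure _
    have h1 : span ℂ {y | ∃ a ∈ A, ∃ x, y = a x} ≤ M := by
      rw [span_le]
      rintro _ ⟨a, ha, x, rfl⟩
      refine mem_clos_apply (Sum.elim T E) (fun _ : Unit => x) (hC a ha)
        (subset_closure (subset_span ⟨(), rfl⟩)) M hM ?_
      rintro (b | ⟨n, i, j⟩) -
      · refine closure_mono (span_mono ?_) (D.T_ran b x)
        rintro _ ⟨p, rfl⟩
        exact ⟨Sum.inl p, rfl⟩
      · change v n i (star (v n j) x) ∈ M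
        rw [← hsv, mul_apply_eq_comp]
        exact mem_clos_apply (fun _ : Unit => v n i) (η n) (subset_closure (subset_span ⟨(), rfl⟩))
          (hη3 n _) M hM fun _ l => le_topologicalClosure _ (subset_span ⟨Sum.inr (n, i, l), rfl⟩)
    exact dense_closure.1 (D.nondeg.mono h1)
  · refine Set.Subset.antisymm hC (closure_minimal (span_le.2 ?_) D.closed)
    rintro _ ⟨b | ⟨n, i, j⟩, rfl⟩
    · exact D.T_mem b
    · exact D.mul _ (hv1 n i) _ (D.st _ (hv1 n j))
  · rw [orthonormal_iff_ite]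
    rintro ⟨n, i, j⟩ ⟨m, k, l⟩
    change inner ℂ (v n i (η n j)) (v m k (η m l)) = _
    rw [inner_op, hvv]
    by_cases h : n = m ∧ i = k
    · obtain ⟨rfl, rfl⟩ := h
      rw [if_pos ⟨rfl, rfl⟩, hη2, orthonormal_iff_ite.1 (hη1 n)]
      simp
    · rw [if_neg h, if_neg (fun h' => h ⟨congrArg Prod.fst h', congrArg (fun t => t.2.1) h'⟩)]
      simp
  · rintro ⟨n, i, j⟩ x hx
    change inner ℂ (v n i (η n j)) ((1 : H →L[ℂ] H) x) = 0
    rw [inner_op, mul_one, hku n i x hx, inner_zero_right]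
  · rintro b ⟨n, i, j⟩
    have h1 : star (v n i) * star (T b) = 0 :=
      ContinuousLinearMap.ext fun x => hku n i _ (D.T_star_ran b x)
    have h2 := congrArg star h1
    rw [star_mul, star_star, star_star, star_zero] at h2
    change (T b * v n i) (η n j) = 0
    rw [h2]
    rfl
  · rintro ⟨n, i, j⟩ p
    change v n i (star (v n j) (u p)) = 0
    rw [hku n j _ (subset_closure (subset_span ⟨p, rfl⟩)), map_zero]
  · intro n i j m k l
    change v n i ((star (v n j) * v m k) (η m l)) = _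
    rw [hvv]
    split_ifs with h
    · obtain ⟨rfl, rfl⟩ := h
      rw [hη2]
    · simp

end Data

theorem abstract_iso {K : Type} [NormedAddCommGroup K] [InnerProductSpace ℂ K] [CompleteSpace K]
    [TopologicalSpace.SeparableSpace H] [TopologicalSpace.SeparableSpace K] {P Q : Type}
    {A₁ : Submodule ℂ (H →L[ℂ] H)} {u₁ : P → H} {T₁ : Q → H →L[ℂ] H} {R₁ : Set (H →L[ℂ] H)}
    {A₂ : Submodule ℂ (K →L[ℂ] K)} {u₂ : P → K} {T₂ : Q → K →L[ℂ] K} {R₂ : Set (K →L[ℂ] K)}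
    (D₁ : Data A₁ u₁ T₁ R₁) (D₂ : Data A₂ u₂ T₂ R₂)
    (hg : ∀ p q, inner ℂ (u₁ p) (u₁ q) = inner ℂ (u₂ p) (u₂ q))
    (hT : ∀ p b q, inner ℂ (u₁ p) (T₁ b (u₁ q)) = inner ℂ (u₂ p) (T₂ b (u₂ q))) :
    StarIso (A₁ : Set (H →L[ℂ] H)) (A₂ : Set (K →L[ℂ] K)) := by
  obtain ⟨ξ, E, a1, a2, a3, a4, a5, a6, a7⟩ := D₁.model
  obtain ⟨ζ, F, b1, b2, b3, b4, b5, b6, b7⟩ := D₂.model
  have a8 : ∀ i p, inner ℂ (ξ i) (u₁ p) = 0 := fun i p =>
    a4 i _ (subset_closure (subset_span ⟨p, rfl⟩))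
  have b8 : ∀ i p, inner ℂ (ζ i) (u₂ p) = 0 := fun i p =>
    b4 i _ (subset_closure (subset_span ⟨p, rfl⟩))
  have hG : ∀ a b, inner ℂ (Sum.elim u₁ ξ a) (Sum.elim u₁ ξ b) =
      inner ℂ (Sum.elim u₂ ζ a) (Sum.elim u₂ ζ b) := by
    rintro (p | i) (q | j)
    · exact hg p q
    · exact (inner_eq_zero_symm.1 (a8 j p)).trans (inner_eq_zero_symm.1 (b8 j p)).symm
    · exact (a8 i q).trans (b8 i q).symm
    · exact (orthonormal_iff_ite.1 a3 i j).trans (orthonormal_iff_ite.1 b3 i j).symm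
  rw [a2, b2]
  refine Gram.gram_iso _ _ a1 b1 hG _ _ ?_
  rintro a (b | ⟨n, i, j⟩) (q | ⟨m, k, l⟩)
  · rcases a with p | i
    · exact hT p b q
    · exact (a4 i _ (D₁.T_ran b _)).trans (b4 i _ (D₂.T_ran b _)).symm
  · simp only [Sum.elim_inl, Sum.elim_inr, a5, b5, inner_zero_right]
  · simp only [Sum.elim_inl, Sum.elim_inr, a6, b6, inner_zero_right]
  · simp only [Sum.elim_inr, a7, b7]
    split_ifs
    · exact hG a (Sum.inr (n, i, l))
    · simp only [inner_zero_right]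

end Pool.Agent.Lib.MP_9a581e_an.Cusp
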