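import Mathlib
import Pool.Agent.Lib.MP_9a581e_an.General

set_option autoImplicit false

namespace Pool.Agent.Lib.MP_9a581e_an.Ex85

section Tree

variable {d : ℕ} (T : LegalTree d)

lemma ht_step (v0 : T.V) (i : Fin d) (v : T.V) :
    T.G.dist v0 v = T.G.dist v0 (T.s i v) + 1 ∨ T.G.dist v0 (T.s i v) = T.G.dist v0 v + 1 :=
  T.isTree.dist_eq_dist_add_one_of_adj v0 (adj_s T i v)

lemma ht_pen (v0 : T.V) {i : Fin d} {v : T.V} (h : T.G.dist v0 (T.s i v) < T.G.dist v0 v)
    (p : T.G.Walk v0 v) (hp : p.IsPath) : T.s i v = p.penultimate := by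
  obtain ⟨q, hq, hl⟩ := T.isTree.connected.exists_path_of_dist v0 (T.s i v)
  have h1 : (q.concat (adj_s T i v).symm).IsPath := by
    apply SimpleGraph.Walk.isPath_of_length_eq_dist
    rw [SimpleGraph.Walk.length_concat, hl]
    rcases ht_step T v0 i v with h2 | h2 <;> omega
  have h2 : p = q.concat (adj_s T i v).symm :=
    Subtype.mk.inj ((T.isTree.isAcyclic.subsingleton_path v0 v).elim ⟨p, hp⟩ ⟨_, h1⟩)
  rw [h2, SimpleGraph.Walk.penultimate_concat]

lemma ht_uniq (v0 : T.V) {i j : Fin d} {v : T.V} (hi : T.G.dist v0 (T.s i v) < T.G.dist v0 v)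
    (hj : T.G.dist v0 (T.s j v) < T.G.dist v0 v) : i = j := by
  obtain ⟨p, hp, -⟩ := T.isTree.connected.exists_path_of_dist v0 v
  exact s_inj T ((ht_pen T v0 hi p hp).trans (ht_pen T v0 hj p hp).symm)

lemma ht_down (v0 : T.V) {v : T.V} (hv : T.G.dist v0 v ≠ 0) :
    ∃ i, T.G.dist v0 (T.s i v) + 1 = T.G.dist v0 v := by
  obtain ⟨p, -, hl⟩ := T.isTree.connected.exists_path_of_dist v0 v
  have hn : ¬ p.Nil := by
    rw [← SimpleGraph.Walk.length_eq_zero_iff, hl]
    exact hv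
  have h1 := (p.adj_penultimate hn).symm
  refine ⟨T.c s(v, p.penultimate), ?_⟩
  have h2 := ht_step T v0 (T.c s(v, p.penultimate)) v
  rw [← eq_s T h1] at h2 ⊢
  have h3 := SimpleGraph.dist_le p.dropLast
  have h4 := p.length_dropLast_add_one hn
  omega

/-- definition of a function on the tree by transport along the coloured edges -/
theorem princ {X : Type} (φ : Fin d → T.V → X → X) (hφ : ∀ i v x, φ i (T.s i v) (φ i v x) = x)
    (v0 : T.V) (x0 : X) : ∃ f : T.V → X, f v0 = x0 ∧ ∀ i v, f (T.s i v) = φ i v (f v) := by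
  classical
  choose par hpar using fun v (hv : T.G.dist v0 v ≠ 0) => ht_down T v0 hv
  let g : ℕ → T.V → X := fun n => Nat.rec (fun _ => x0) (fun _ r v =>
    if hv : T.G.dist v0 v ≠ 0 then φ (par v hv) (T.s (par v hv) v) (r (T.s (par v hv) v))
    else x0) n
  have key : ∀ i v, T.G.dist v0 v = T.G.dist v0 (T.s i v) + 1 →
      g (T.G.dist v0 v) v = φ i (T.s i v) (g (T.G.dist v0 (T.s i v)) (T.s i v)) := by
    intro i v h
    have hv : T.G.dist v0 v ≠ 0 := by omega
    have h1 : par v hv = i := ht_uniq T v0 (v := v) (by have := hpar v hv; omega) (by omega)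
    rw [h]
    simp only [g]
    rw [dif_pos hv, h1]
  refine ⟨fun v => g (T.G.dist v0 v) v, by simp [g], fun i v => ?_⟩
  rcases ht_step T v0 i v with h | h
  · have h1 := hφ i (T.s i v) (g (T.G.dist v0 (T.s i v)) (T.s i v))
    rw [s_s, ← key i v h] at h1
    exact h1.symm
  · have h1 := key i (T.s i v) (by rw [s_s]; exact h)
    rw [s_s] at h1
    exact h1

/-- the automorphism with constant local action `τ` that sends `v` to `w` -/
theorem rot (τ : Equiv.Perm (Fin d)) (v w : T.V) :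
    ∃ r : T.V ≃ T.V, r v = w ∧ ∀ i u, r (T.s i u) = T.s (τ i) (r u) := by
  obtain ⟨f, hf, hf'⟩ := princ T (fun i _ x => T.s (τ i) x) (fun i _ x => s_s T _ x) v w
  obtain ⟨g, hg, hg'⟩ := princ T (fun i _ x => T.s (τ.symm i) x) (fun i _ x => s_s T _ x) w v
  refine ⟨⟨f, g, induct T v _ (by rw [hf, hg]) fun i u h => ?_,
    induct T w _ (by rw [hg, hf]) fun i u h => ?_⟩, hf, hf'⟩
  · rw [hf', hg', h, Equiv.symm_apply_apply]
  · rw [hg', hf', h, Equiv.apply_symm_apply]

theorem rotU {F : Subgroup (Equiv.Perm (Fin d))} {τ : Equiv.Perm (Fin d)} (hτ : τ ∈ F)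
    (v w : T.V) : ∃ g : U T F, g.1 v = w ∧ ∀ i u, g.1 (T.s i u) = T.s (τ i) (g.1 u) := by
  obtain ⟨r, h1, h2⟩ := rot T τ v w
  exact ⟨mkU T r fun u => ⟨τ, hτ, fun i => h2 i u⟩, h1, h2⟩

lemma mul_app {F : Subgroup (Equiv.Perm (Fin d))} (g h : U T F) (v : T.V) :
    (g * h).1 v = g.1 (h.1 v) := rfl

lemma one_app {F : Subgroup (Equiv.Perm (Fin d))} (v : T.V) : (1 : U T F).1 v = v := rfl

/-- an element of order four in `F` gives an element of order four in `U(F)` -/
theorem order_four {F : Subgroup (Equiv.Perm (Fin d))} {τ : Equiv.Perm (Fin d)} (hτ : τ ∈ F)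
    (h4 : τ ^ 4 = 1) (h2 : τ ^ 2 ≠ 1) : ∃ g : U T F, g ^ 4 = 1 ∧ g ^ 2 ≠ 1 := by
  obtain ⟨v⟩ := T.isTree.connected.nonempty
  obtain ⟨g, hg, hg'⟩ := rotU T hτ v v
  refine ⟨g, U_ext T ?_, fun h => h2 (Equiv.ext fun i => ?_)⟩
  · have e : g ^ 4 = g * (g * (g * g)) := by
      simp only [pow_succ, pow_zero, one_mul, mul_assoc]
    have e' : ∀ i, τ (τ (τ (τ i))) = i := fun i => by
      have := congrArg (fun σ : Equiv.Perm (Fin d) => σ i) h4
      simpa [pow_succ] using this
    rw [e]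
    refine induct T v _ (by simp only [mul_app, one_app, hg]) fun i u hu => ?_
    simp only [mul_app, one_app] at hu ⊢
    rw [hg', hg', hg', hg', e', hu]
  · have h1 := congrArg (fun x : U T F => x.1 (T.s i v)) h
    simp only [pow_two, mul_app, one_app] at h1
    rw [hg', hg', hg, hg] at h1
    simpa [pow_two] using s_inj T h1

lemma path_map {F : Subgroup (Equiv.Perm (Fin d))} (g : U T F) {a b : T.V} (p : T.G.Walk a b)
    (hp : p.IsPath) (q : T.G.Walk (g.1 a) (g.1 b)) (hq : q.IsPath) (k : ℕ) :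
    g.1 (p.getVert k) = q.getVert k := by
  have h1 : (p.map g.1.toHom).IsPath := hp.map (f := g.1.toHom) g.1.injective
  have h2 : q = p.map g.1.toHom :=
    Subtype.mk.inj ((T.isTree.isAcyclic.subsingleton_path _ _).elim ⟨q, hq⟩ ⟨_, h1⟩)
  rw [h2, SimpleGraph.Walk.getVert_map]
  rfl

lemma parity {F : Subgroup (Equiv.Perm (Fin d))} (g : U T F) (v : T.V) :
    ¬ T.G.Adj v (g.1 (g.1 v)) := by
  have h1 : ∀ u, (T.G.dist v (g.1 u) + T.G.dist v u) % 2 = (T.G.dist v (g.1 v)) % 2 := by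
    refine induct T v _ (by simp) fun i u hu => ?_
    obtain ⟨σ, -, h⟩ := mem_U T g u
    rw [h]
    rcases ht_step T v i u with h2 | h2 <;> rcases ht_step T v (σ i) (g.1 u) with h3 | h3 <;> omega
  intro h
  have h2 := h1 (g.1 v)
  rw [SimpleGraph.dist_eq_one_iff_adj.2 h] at h2
  omega

/-- if point stabilisers of `F` have no involution and `F` has no element of order four, then
`U(F)` has no element of order four -/
theorem no_four {F : Subgroup (Equiv.Perm (Fin d))}
    (hA : ∀ σ ∈ F, σ ^ 2 = 1 → ∀ x, σ x = x → σ = 1) (hB : ∀ σ ∈ F, σ ^ 4 = 1 → σ ^ 2 = 1)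
    (g : U T F) (hg : g ^ 4 = 1) : g ^ 2 = 1 := by
  obtain ⟨v⟩ := T.isTree.connected.nonempty
  have e4 : ∀ u, g.1 (g.1 (g.1 (g.1 u))) = u := fun u => by
    have := congrArg (fun x : U T F => x.1 u) hg
    simpa only [pow_succ, pow_zero, one_mul, mul_app, one_app] using this
  have edge : ∀ u i, (g * g).1 u = u → (g * g).1 (T.s i u) = T.s i u →
      ∀ j, (g * g).1 (T.s j u) = T.s j u := by
    intro u i h1 h2 j
    obtain ⟨σ, hσ, h⟩ := mem_U T (g * g) u
    have h3 : σ = 1 := by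
      refine hA σ hσ (Equiv.ext fun k => ?_) i ?_
      · have h4 : (g * g).1 ((g * g).1 (T.s k u)) = T.s k u := e4 _
        rw [h, h1, h, h1] at h4
        simpa [pow_two] using s_inj T h4
      · rw [h, h1] at h2
        exact s_inj T h2
    rw [h, h1, h3]
    rfl
  have fix : ∃ u, (g * g).1 u = u := by
    obtain ⟨p, hp, -⟩ := T.isTree.connected.exists_path_of_dist v ((g * g).1 v)
    have h1 : (g * g).1 ((g * g).1 v) = v := e4 v
    have h2 := path_map T (g * g) p hp (p.reverse.copy rfl h1.symm)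
      (by simpa using hp.reverse) (p.length / 2)
    rw [SimpleGraph.Walk.getVert_copy, SimpleGraph.Walk.getVert_reverse] at h2
    by_cases h3 : p.length % 2 = 0
    · exact ⟨_, h2.trans (by congr 1; omega)⟩
    · exfalso
      apply parity T g (p.getVert (p.length / 2))
      have h4 : p.length - p.length / 2 = p.length / 2 + 1 := by omega
      rw [← mul_app, h2, h4]
      exact p.adj_getVert_succ (by omega)
  obtain ⟨u, hu⟩ := fix
  have base : ∀ j, (g * g).1 (T.s j u) = T.s j u := by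
    by_cases h0 : g.1 u = u
    · obtain ⟨σ, hσ, h⟩ := mem_U T g u
      have h1 : σ ^ 2 = 1 := by
        refine hB σ hσ (Equiv.ext fun k => ?_)
        have h4 := e4 (T.s k u)
        rw [h, h0, h, h0, h, h0, h, h0] at h4
        simpa [pow_succ] using s_inj T h4
      intro j
      have h2 : σ (σ j) = j := by
        have := congrArg (fun σ : Equiv.Perm (Fin d) => σ j) h1
        simpa [pow_two] using this
      rw [mul_app, h, h0, h, h0, h2]
    · obtain ⟨p, hp, -⟩ := T.isTree.connected.exists_path_of_dist u (g.1 u)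
      have h1 : (g * g).1 (g.1 u) = g.1 u := congrArg g.1 hu
      have h2 := path_map T (g * g) p hp (p.copy hu.symm h1.symm) (by simpa using hp) 1
      rw [SimpleGraph.Walk.getVert_copy] at h2
      have h3 : T.G.Adj u (p.getVert 1) :=
        p.adj_snd (SimpleGraph.Walk.not_nil_of_ne (Ne.symm h0))
      rw [eq_s T h3] at h2
      exact edge u _ hu h2
  rw [pow_two]
  refine U_ext T fun w => ?_
  refine (induct T u (fun w => (g * g).1 w = w ∧ ∀ j, (g * g).1 (T.s j w) = T.s j w)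
    ⟨hu, base⟩ (fun i w h => ⟨h.2 i, edge _ i (h.2 i) ?_⟩) w).1
  rw [s_s]
  exact h.1

/-- the two universal groups are not isomorphic as abstract groups -/
theorem noniso {d' : ℕ} (T' : LegalTree d') {F : Subgroup (Equiv.Perm (Fin d))}
    {F' : Subgroup (Equiv.Perm (Fin d'))}
    (hA : ∀ σ ∈ F, σ ^ 2 = 1 → ∀ x, σ x = x → σ = 1) (hB : ∀ σ ∈ F, σ ^ 4 = 1 → σ ^ 2 = 1)
    {τ : Equiv.Perm (Fin d')} (hτ : τ ∈ F') (h4 : τ ^ 4 = 1) (h2 : τ ^ 2 ≠ 1) :
    IsEmpty (U T F ≃* U T' F') := by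
  refine ⟨fun e => ?_⟩
  obtain ⟨g, hg, hg'⟩ := order_four T' hτ h4 h2
  have h := no_four T hA hB (e.symm g) (by rw [← map_pow, hg, map_one])
  rw [← map_pow] at h
  exact hg' (e.symm.injective (h.trans (map_one _).symm))

theorem not_permIso {d' : ℕ} {F : Subgroup (Equiv.Perm (Fin d))}
    {F' : Subgroup (Equiv.Perm (Fin d'))} (hB : ∀ σ ∈ F, σ ^ 4 = 1 → σ ^ 2 = 1)
    {τ : Equiv.Perm (Fin d')} (hτ : τ ∈ F') (h4 : τ ^ 4 = 1) (h2 : τ ^ 2 ≠ 1) :
    ¬ PermIso F F' := by
  rintro ⟨e, he⟩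
  have h1 : e.permCongrHom.symm τ ∈ F := by
    rw [he]
    have : e.permCongr (e.permCongrHom.symm τ) = τ := e.permCongrHom.apply_symm_apply τ
    rw [this]
    exact hτ
  have h := hB _ h1 (by rw [← map_pow, h4, map_one])
  rw [← map_pow] at h
  exact h2 (e.permCongrHom.symm.injective (h.trans (map_one _).symm))

/-- an element of `U(F)` supported on a half tree far from `v0` -/
lemma half {F : Subgroup (Equiv.Perm (Fin d))} {τ : Equiv.Perm (Fin d)} (hτ : τ ∈ F) (h1 : τ ≠ 1)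
    {c : Fin d} (hc : τ c = c) (v0 u : T.V) (hu : T.G.dist v0 u < T.G.dist v0 (T.s c u)) :
    ∃ g : U T F, g ≠ 1 ∧ ∀ v, T.G.dist v0 v < T.G.dist v0 (T.s c u) → g.1 v = v := by
  classical
  obtain ⟨r, hr, hr'⟩ := rot T τ u u
  have hr1 : r (T.s c u) = T.s c u := by rw [hr', hc, hr]
  obtain ⟨b, hb, hb'⟩ := princ T
    (fun i v (x : Bool) => if i = c ∧ (v = u ∨ v = T.s c u) then !x else x) (by
      intro i v x
      have : (i = c ∧ (T.s i v = u ∨ T.s i v = T.s c u)) ↔ (i = c ∧ (v = u ∨ v = T.s c u)) := by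
        refine and_congr_right ?_
        rintro rfl
        constructor
        · rintro (h | h)
          · exact Or.inr (by rw [← h, s_s])
          · exact Or.inl (by rw [← s_s T i v, h, s_s])
        · rintro (h | h)
          · exact Or.inr (by rw [h])
          · exact Or.inl (by rw [h, s_s])
      simp only [this]
      split_ifs <;> simp) v0 false
  have low : ∀ n v, T.G.dist v0 v = n → n < T.G.dist v0 (T.s c u) → b v = false := by
    intro n
    induction n with
    | zero =>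
      intro v hv _
      rw [← (T.isTree.connected.dist_eq_zero_iff).1 hv, hb]
    | succ n ih =>
      intro v hv hn
      obtain ⟨i, hi⟩ := ht_down T v0 (v := v) (by omega)
      have h2 := hb' i (T.s i v)
      rw [s_s, ih (T.s i v) (by omega) (by omega), if_neg] at h2
      · exact h2
      · rintro ⟨rfl, h | h⟩
        · rw [← h, s_s] at hn
          omega
        · rw [← h] at hn
          omega
  have bu : b u = false := low _ u rfl hu
  have bu' : b (T.s c u) = true := by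
    rw [hb', bu, if_pos ⟨rfl, Or.inl rfl⟩]
    rfl
  have br : ∀ w, b (r w) = b w := by
    refine induct T u _ (by rw [hr]) fun i w hw => ?_
    have : (τ i = c ∧ (r w = u ∨ r w = T.s c u)) ↔ (i = c ∧ (w = u ∨ w = T.s c u)) := by
      refine and_congr ?_ (or_congr ?_ ?_)
      · rw [← τ.injective.eq_iff (a := i), hc]
      · rw [← r.injective.eq_iff (a := w), hr]
      · rw [← r.injective.eq_iff (a := w), hr1]
    rw [hr', hb', hb', hw]
    simp only [this]
  have br' : ∀ w, b (r.symm w) = b w := fun w => by rw [← br, Equiv.apply_symm_apply]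
  let f : T.V ≃ T.V :=
    ⟨fun w => if b w = true then r w else w, fun w => if b w = true then r.symm w else w,
      fun w => by by_cases h : b w = true <;> simp [h, br],
      fun w => by by_cases h : b w = true <;> simp [h, br']⟩
  have hf : ∀ w, f w = if b w = true then r w else w := fun _ => rfl
  have loc1 : ∀ w, b w = true → ∀ i, f (T.s i w) = T.s (τ i) (f w) := by
    intro w hw i
    rw [hf, hf, if_pos hw]
    by_cases h : i = c ∧ (w = u ∨ w = T.s c u)
    · obtain ⟨rfl, h | h⟩ := h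
      · rw [h, bu] at hw
        exact absurd hw (by simp)
      · rw [h, s_s, bu, hc, hr1, s_s]
        simp
    · rw [hb', if_neg h, if_pos hw, hr']
  have loc2 : ∀ w, ¬ b w = true → ∀ i, f (T.s i w) = T.s i (f w) := by
    intro w hw i
    rw [hf, hf, if_neg hw]
    by_cases h : i = c ∧ (w = u ∨ w = T.s c u)
    · obtain ⟨rfl, h | h⟩ := h
      · rw [h, hr1]
        simp
      · exact absurd (h ▸ bu') hw
    · rw [hb', if_neg h, if_neg hw]
  refine ⟨mkU T f fun w => ?_, fun h => h1 (Equiv.ext fun j => ?_), fun v hv => ?_⟩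
  · by_cases hw : b w = true
    · exact ⟨τ, hτ, loc1 w hw⟩
    · exact ⟨1, F.one_mem, loc2 w hw⟩
  · have h2 : ∀ w, f w = w := fun w => congrArg (fun x : U T F => x.1 w) h
    have h3 := loc1 _ bu' j
    rw [h2, h2] at h3
    exact (s_inj T h3).symm
  · rw [mkU_apply, hf, low _ v rfl hv]
    simp

lemma far {c j : Fin d} (hj : j ≠ c) (v0 : T.V) (n : ℕ) :
    ∃ u, n ≤ T.G.dist v0 u ∧ T.G.dist v0 u < T.G.dist v0 (T.s c u) := by
  induction n with
  | zero =>
    refine ⟨v0, Nat.zero_le _, ?_⟩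
    have := ht_step T v0 c v0
    rw [SimpleGraph.dist_self] at this ⊢
    omega
  | succ n ih =>
    obtain ⟨u, h1, h2⟩ := ih
    have h3 : T.G.dist v0 (T.s c u) < T.G.dist v0 (T.s j (T.s c u)) := by
      rcases ht_step T v0 j (T.s c u) with h | h
      · exact absurd (ht_uniq T v0 (v := T.s c u) (by omega) (by rw [s_s]; exact h2)) hj
      · omega
    refine ⟨T.s j (T.s c u), by omega, ?_⟩
    rcases ht_step T v0 c (T.s j (T.s c u)) with h | h
    · exact absurd (ht_uniq T v0 (v := T.s j (T.s c u)) (by rw [s_s]; exact h3) (by omega)) hj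
    · omega

/-- `U(F)` is not discrete if some point stabiliser of `F` is non-trivial -/
theorem not_discrete {F : Subgroup (Equiv.Perm (Fin d))} {τ : Equiv.Perm (Fin d)} (hτ : τ ∈ F)
    (h1 : τ ≠ 1) {c : Fin d} (hc : τ c = c) : ¬ DiscreteTopology (U T F) := by
  intro hd
  obtain ⟨v0⟩ := T.isTree.connected.nonempty
  obtain ⟨j, hj⟩ : ∃ j, j ≠ c := by
    by_contra h
    push Not at h
    exact h1 (Equiv.ext fun i => (h _).trans (h _).symm)
  have key : ∀ n : ℕ, ∃ g : U T F, g ≠ 1 ∧ ∀ v, T.G.dist v0 v < n → g.1 v = v := by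
    intro n
    obtain ⟨u, h2, h3⟩ := far T hj v0 n
    obtain ⟨g, h4, h5⟩ := half T hτ h1 hc v0 u h3
    exact ⟨g, h4, fun v hv => h5 v (by omega)⟩
  choose g hg hg' using key
  have hind : Topology.IsInducing (fun (g : U T F) (v : T.V) => g.1 v) := ⟨rfl⟩
  have ht : Filter.Tendsto g Filter.atTop (nhds 1) := by
    rw [hind.tendsto_nhds_iff, tendsto_pi_nhds]
    intro v
    refine tendsto_const_nhds.congr' ?_
    filter_upwards [Filter.eventually_gt_atTop (T.G.dist v0 v)] with n hn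
    exact (hg' n v hn).symm
  rw [nhds_discrete, Filter.tendsto_pure] at ht
  obtain ⟨n, hn⟩ := ht.exists
  exact hg n hn

end Tree

section Words

variable {d : ℕ}

/-- one step in the tree of reduced words -/
def stepL (i : Fin d) : List (Fin d) → List (Fin d)
  | [] => [i]
  | j :: l => if i = j then l else i :: j :: l

lemma stepL_chain (i : Fin d) {l : List (Fin d)} (h : l.IsChain (· ≠ ·)) :
    (stepL i l).IsChain (· ≠ ·) := by
  cases l with
  | nil => simp [stepL]
  | cons j l =>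
    by_cases hij : i = j
    · simpa [stepL, hij] using h.tail
    · simpa [stepL, hij] using h

lemma stepL_stepL (i : Fin d) {l : List (Fin d)} (h : l.IsChain (· ≠ ·)) :
    stepL i (stepL i l) = l := by
  match l, h with
  | [], _ => simp [stepL]
  | [j], _ => by_cases hij : i = j <;> simp [stepL, hij]
  | j :: k :: l, h =>
    have hjk : j ≠ k := (List.isChain_cons_cons.1 h).1
    by_cases hij : i = j
    · simp [stepL, hij, hjk]
    · simp [stepL, hij]

lemma stepL_len (i : Fin d) (l : List (Fin d)) :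
    (l.head? = some i ∧ (stepL i l).length + 1 = l.length) ∨
      (l.head? ≠ some i ∧ (stepL i l).length = l.length + 1) := by
  cases l with
  | nil => simp [stepL]
  | cons j l =>
    by_cases hij : i = j
    · simp [stepL, hij]
    · simp [stepL, hij, Ne.symm hij]

/-- the tree of reduced words in `d` involutions -/
def words (d : ℕ) : TreeData d {l : List (Fin d) // l.IsChain (· ≠ ·)} where
  s i w := ⟨stepL i w.1, stepL_chain i w.2⟩
  h w := w.1.length
  root := ⟨[], by simp⟩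
  inv i w := Subtype.ext (stepL_stepL i w.2)
  ne i w := by rcases stepL_len i w.1 with h | h <;> simp only <;> omega
  uniq i j w h1 h2 := by
    simp only at h1 h2
    rcases stepL_len i w.1 with h | h
    · rcases stepL_len j w.1 with h' | h'
      · exact Option.some.inj (h.1.symm.trans h'.1)
      · omega
    · omega
  down := by
    rintro ⟨l, hl⟩ h
    cases l with
    | nil => exact (h rfl).elim
    | cons j l => exact ⟨j, by simp [stepL]⟩

theorem exists_tree (d : ℕ) [NeZero d] : Nonempty (LegalTree d) := ⟨(words d).tree⟩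

end Words

section Sixteen

/-- multiplication by a primitive fifth root of unity in the field with 16 elements -/
def mul1 (x : Fin 16) : Fin 16 := if x.1 < 8 then x + x else (x + x) ^^^ 15

def aff (k : Fin 5) (b x : Fin 16) : Fin 16 := (mul1^[k.1] x) ^^^ b

lemma aff_mul : ∀ (k k' : Fin 5) (b b' x : Fin 16),
    aff k b (aff k' b' x) = aff (k + k') (aff k b b') x := by decide +kernel

lemma aff_inv : ∀ (k : Fin 5) (b x : Fin 16), aff k b (aff (-k) (aff (-k) 0 b) x) = x := by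
  decide +kernel

lemma aff_inv' : ∀ (k : Fin 5) (b x : Fin 16), aff (-k) (aff (-k) 0 b) (aff k b x) = x := by
  decide +kernel

lemma aff_one : ∀ x : Fin 16, aff 0 0 x = x := by decide +kernel

/-- the affine group `2^4 : 5` -/
def F1 : Subgroup (Equiv.Perm (Fin 16)) where
  carrier := {σ | ∃ k b, ∀ x, σ x = aff k b x}
  one_mem' := ⟨0, 0, fun x => (aff_one x).symm⟩
  mul_mem' := by
    rintro σ σ' ⟨k, b, h⟩ ⟨k', b', h'⟩
    exact ⟨k + k', aff k b b', fun x => by rw [Equiv.Perm.mul_apply, h, h', aff_mul]⟩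
  inv_mem' := by
    rintro σ ⟨k, b, h⟩
    refine ⟨-k, aff (-k) 0 b, fun x => σ.injective ?_⟩
    rw [h (aff _ _ _), aff_inv]
    exact σ.apply_symm_apply x

/-- the 2-closure of a permutation group -/
def closure2 {d : ℕ} (F : Subgroup (Equiv.Perm (Fin d))) : Subgroup (Equiv.Perm (Fin d)) where
  carrier := {σ | ∀ x y, ∃ τ ∈ F, τ x = σ x ∧ τ y = σ y}
  one_mem' := fun _ _ => ⟨1, F.one_mem, rfl, rfl⟩
  mul_mem' := by
    intro σ σ' h h' x y
    obtain ⟨τ', h1, h2, h3⟩ := h' x y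
    obtain ⟨τ, h4, h5, h6⟩ := h (σ' x) (σ' y)
    exact ⟨τ * τ', F.mul_mem h4 h1, by simp [h2, h5], by simp [h3, h6]⟩
  inv_mem' := by
    intro σ h x y
    obtain ⟨τ, h1, h2, h3⟩ := h (σ⁻¹ x) (σ⁻¹ y)
    refine ⟨τ⁻¹, F.inv_mem h1, ?_, ?_⟩
    · rw [Equiv.Perm.inv_eq_iff_eq, h2]
      simp
    · rw [Equiv.Perm.inv_eq_iff_eq, h3]
      simp

lemma le_closure2 {d : ℕ} (F : Subgroup (Equiv.Perm (Fin d))) : F ≤ closure2 F :=
  fun σ h _ _ => ⟨σ, h, rfl, rfl⟩

def affP (k : Fin 5) (b : Fin 16) : Equiv.Perm (Fin 16) :=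
  ⟨aff k b, aff (-k) (aff (-k) 0 b), aff_inv' k b, aff_inv k b⟩

lemma affP_mem (k : Fin 5) (b : Fin 16) : affP k b ∈ F1 := ⟨k, b, fun _ => rfl⟩

/-- the semilinear map `x ↦ x ^ 4 + ζ` -/
def tw (x : Fin 16) : Fin 16 := ![2, 3, 13, 12, 10, 11, 5, 4, 6, 7, 9, 8, 14, 15, 1, 0] x

lemma tw4 : ∀ x, tw (tw (tw (tw x))) = x := by decide +kernel

def twP : Equiv.Perm (Fin 16) := ⟨tw, fun x => tw (tw (tw x)), tw4, tw4⟩

lemma tw_pair : ∀ x y : Fin 16, ∃ k b, aff k b x = tw x ∧ aff k b y = tw y := by decide +kernel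

lemma twP_mem : twP ∈ closure2 F1 := fun x y => by
  obtain ⟨k, b, h⟩ := tw_pair x y
  exact ⟨affP k b, affP_mem k b, h⟩

lemma twP_four : twP ^ 4 = 1 := Equiv.ext fun x => tw4 x

lemma twP_two : twP ^ 2 ≠ 1 := fun h => by
  have h1 : tw (tw 0) = 0 := congrArg (fun σ : Equiv.Perm (Fin 16) => σ 0) h
  exact absurd h1 (by decide +kernel)

lemma aff_A : ∀ (k : Fin 5) (b : Fin 16), (∀ x, aff k b (aff k b x) = x) →
    ∀ y, aff k b y = y → ∀ x, aff k b x = x := by decide +kernel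

lemma aff_B : ∀ (k : Fin 5) (b : Fin 16), (∀ x, aff k b (aff k b (aff k b (aff k b x))) = x) →
    ∀ x, aff k b (aff k b x) = x := by decide +kernel

lemma F1_A : ∀ σ ∈ F1, σ ^ 2 = 1 → ∀ x, σ x = x → σ = 1 := by
  rintro σ ⟨k, b, h⟩ h2 y hy
  refine Equiv.ext fun x => ?_
  rw [h]
  refine aff_A k b (fun z => ?_) y (by rw [← h, hy]) x
  rw [← h, ← h]
  exact congrArg (fun σ : Equiv.Perm (Fin 16) => σ z) h2

lemma F1_B : ∀ σ ∈ F1, σ ^ 4 = 1 → σ ^ 2 = 1 := by
  rintro σ ⟨k, b, h⟩ h4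
  refine Equiv.ext fun x => ?_
  change σ (σ x) = x
  rw [h, h]
  refine aff_B k b (fun z => ?_) x
  rw [← h, ← h, ← h, ← h]
  exact congrArg (fun σ : Equiv.Perm (Fin 16) => σ z) h4

lemma aff_tr : ∀ x y : Fin 16, aff 0 (x ^^^ y) x = y := by decide +kernel

lemma aff_fix : ∀ (k : Fin 5) (x : Fin 16), aff k (aff k x x) x = x := by decide +kernel

lemma aff_gen : ∀ x y t : Fin 16, x ≠ y → ∃ j k : Fin 5, aff j (aff j x x) y = t ∨
    aff 0 (x ^^^ aff k (aff k x x) y) (aff j (aff j x x) y) = t := by decide +kernel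

lemma prim {F : Subgroup (Equiv.Perm (Fin 16))} (hF : F1 ≤ F) :
    MulAction.IsPreprimitive F (Fin 16) where
  exists_smul_eq x y := ⟨⟨affP 0 (x ^^^ y), hF (affP_mem _ _)⟩, aff_tr x y⟩
  isTrivialBlock_of_isBlock := by
    intro B hB
    by_cases h : B.Subsingleton
    · exact Or.inl h
    obtain ⟨x, hx, y, hy, hxy⟩ := Set.not_subsingleton_iff.1 h
    have mv : ∀ k b z, aff k b x ∈ B → z ∈ B → aff k b z ∈ B := by
      intro k b z h1 h2
      have h3 := hB.smul_eq_of_mem (g := (⟨affP k b, hF (affP_mem k b)⟩ : F)) hx h1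
      rw [← h3]
      exact Set.smul_mem_smul_set h2
    have rt : ∀ k, aff k (aff k x x) y ∈ B := fun k => mv _ _ _ (by rw [aff_fix]; exact hx) hy
    refine Or.inr (Set.eq_univ_of_forall fun t => ?_)
    obtain ⟨j, k, h1 | h1⟩ := aff_gen x y t hxy
    · exact h1 ▸ rt j
    · exact h1 ▸ mv _ _ _ (by rw [aff_tr]; exact rt k) (rt j)

lemma aff_not : ∀ (k : Fin 5) (b : Fin 16), ¬ (aff k b 0 = 0 ∧ aff k b 1 = 3) := by
  decide +kernel

lemma not_two {F : Subgroup (Equiv.Perm (Fin 16))} (hF : F ≤ closure2 F1) :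
    ¬ MulAction.IsMultiplyPretransitive F (Fin 16) 2 := by
  intro h
  rw [MulAction.is_two_pretransitive_iff] at h
  obtain ⟨g, h1, h2⟩ := h (a := 0) (b := 1) (c := 0) (d := 3) (by decide) (by decide)
  obtain ⟨τ, ⟨k, b, h3⟩, h4, h5⟩ := hF g.2 0 1
  exact aff_not k b ⟨by rw [← h3, h4]; exact h1, by rw [← h3, h5]; exact h2⟩

lemma stab : affP 1 0 ≠ 1 ∧ affP 1 0 0 = 0 :=
  ⟨fun h => absurd (congrArg (fun σ : Equiv.Perm (Fin 16) => σ 1) h) (by decide +kernel),
    by decide +kernel⟩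

/-- the degree 16 example -/
theorem example16 : ∃ F₁ F₂ : Subgroup (Equiv.Perm (Fin 16)), F₁ ≤ F₂ ∧
    MulAction.IsPreprimitive F₁ (Fin 16) ∧ MulAction.IsPreprimitive F₂ (Fin 16) ∧
    ¬ MulAction.IsMultiplyPretransitive F₁ (Fin 16) 2 ∧
    ¬ MulAction.IsMultiplyPretransitive F₂ (Fin 16) 2 ∧
    (∀ σ ∈ F₁, ∀ i j, ∃ τ ∈ F₂, τ i = σ i ∧ τ j = σ j) ∧
    (∀ σ ∈ F₂, ∀ i j, ∃ τ ∈ F₁, τ i = σ i ∧ τ j = σ j) ∧
    (∃ τ ∈ F₁, τ ≠ 1 ∧ ∃ i, τ i = i) ∧ ¬ PermIso F₁ F₂ ∧
    ∀ T₁ T₂ : LegalTree 16, ¬ DiscreteTopology (U T₁ F₁) ∧ ¬ DiscreteTopology (U T₂ F₂) ∧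
      IsEmpty (U T₁ F₁ ≃* U T₂ F₂) :=
  ⟨F1, closure2 F1, le_closure2 F1, prim le_rfl, prim (le_closure2 F1), not_two (le_closure2 F1),
    not_two le_rfl, fun σ h _ _ => ⟨σ, le_closure2 F1 h, rfl, rfl⟩, fun _ h => h,
    ⟨_, affP_mem 1 0, stab.1, 0, stab.2⟩, not_permIso F1_B twP_mem twP_four twP_two,
    fun T₁ T₂ => ⟨not_discrete T₁ (affP_mem 1 0) stab.1 stab.2,
      not_discrete T₂ (le_closure2 F1 (affP_mem 1 0)) stab.1 stab.2,
      noniso T₁ T₂ F1_A F1_B twP_mem twP_four twP_two⟩⟩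

end Sixteen

end Pool.Agent.Lib.MP_9a581e_an.Ex85
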