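import Mathlib
import Pool.Agent.Lib.MP_9a581e_an.General

set_option autoImplicit false

namespace Pool.Agent.Lib.MP_9a581e_an

open MeasureTheory

/-- reduced words -/
def Word : Type := {l : List (Fin 4) // l.IsChain (· ≠ ·)}

def step (i : Fin 4) : Word → Word
  | ⟨[], _⟩ => ⟨[i], by simp⟩
  | ⟨j :: l, h⟩ => if hij : i = j then ⟨l, h.tail⟩ else ⟨i :: j :: l, by
      rw [List.isChain_cons_cons]; exact ⟨hij, h⟩⟩

lemma step_nil (i : Fin 4) (h) : (step i ⟨[], h⟩).1 = [i] := rfl

lemma step_cons (i j : Fin 4) (l) (h) :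
    (step i ⟨j :: l, h⟩).1 = if i = j then l else i :: j :: l := by
  by_cases hij : i = j <;> simp [step, hij]

lemma step_of_eq {i : Fin 4} {w : Word} {l : List (Fin 4)} (h : w.1 = i :: l) :
    (step i w).1 = l := by
  obtain ⟨w, hw⟩ := w
  simp only at h
  subst h
  simp [step_cons]

lemma step_of_ne {i : Fin 4} {w : Word} (h : w.1.head? ≠ some i) : (step i w).1 = i :: w.1 := by
  obtain ⟨w, hw⟩ := w
  cases w with
  | nil => rfl
  | cons j l =>
    have : i ≠ j := by rintro rfl; simp at h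
    simp [step_cons, this]

lemma step_cases (i : Fin 4) (w : Word) :
    (w.1 = i :: (step i w).1) ∨ (w.1.head? ≠ some i ∧ (step i w).1 = i :: w.1) := by
  by_cases h : w.1.head? = some i
  · left
    obtain ⟨l, hl⟩ := List.head?_eq_some_iff.1 h
    rw [step_of_eq hl, hl]
  · exact Or.inr ⟨h, step_of_ne h⟩

lemma step_step (i : Fin 4) (w : Word) : step i (step i w) = w := by
  apply Subtype.ext
  rcases step_cases i w with h | ⟨-, h⟩
  · have h1 : (step i w).1.head? ≠ some i := by
      intro h2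
      obtain ⟨l, hl⟩ := List.head?_eq_some_iff.1 h2
      have h3 := w.2
      rw [h, hl, List.isChain_cons_cons] at h3
      exact h3.1 rfl
    rw [step_of_ne h1, ← h]
  · exact step_of_eq h

lemma step_lt {i : Fin 4} {w : Word} :
    (step i w).1.length < w.1.length ↔ w.1.head? = some i := by
  rcases step_cases i w with h | ⟨h1, h⟩
  · have h2 := congrArg List.length h
    have h3 := congrArg List.head? h
    simp only [List.length_cons, List.head?_cons] at h2 h3
    simp [h3]; omega
  · rw [h]; simp [h1]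

lemma step_len (i : Fin 4) (w : Word) :
    (w.1.head? = some i ∧ (step i w).1.length + 1 = w.1.length) ∨
      (w.1.head? ≠ some i ∧ (step i w).1.head? = some i ∧
        (step i w).1.length = w.1.length + 1) := by
  rcases step_cases i w with h | ⟨h1, h⟩
  · have h2 := congrArg List.length h
    have h3 := congrArg List.head? h
    simp only [List.length_cons, List.head?_cons] at h2 h3
    exact Or.inl ⟨h3, h2.symm⟩
  · right; rw [h]; simp [h1]

def D4 : TreeData 4 Word where
  s := step
  h w := w.1.length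
  root := ⟨[], by simp⟩
  inv := step_step
  ne i w := by rcases step_len i w with h | h <;> omega
  uniq i j w h1 h2 := by
    rw [step_lt] at h1 h2
    exact Option.some.inj (h1.symm.trans h2)
  down := by
    rintro ⟨l, hl⟩ h
    cases l with
    | nil => exact (h rfl).elim
    | cons j l => exact ⟨j, step_lt.2 rfl⟩

def side (i : Fin 4) : Bool := decide (2 ≤ i.1)

def col (ε : Bool) (k : Fin 3) : Fin 4 := if ε then (if k = 0 then 2 else 3) else (if k = 0 then 0 else 1)

def step3 (k : Fin 3) (x : Word × Bool) : Word × Bool :=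
  if k = 2 then (x.1, !x.2) else (step (col x.2 k) x.1, x.2)

def low (w : Word) : Bool := match w.1.head? with
  | none => false
  | some j => side j

def ht3 (x : Word × Bool) : ℕ := 2 * x.1.1.length + if x.2 = low x.1 then 0 else 1

lemma side_col (ε : Bool) (k : Fin 3) : side (col ε k) = ε := by revert ε k; decide

lemma col_inj (ε : Bool) (k k' : Fin 3) (hk : k ≠ 2) (hk' : k' ≠ 2) (h : col ε k = col ε k') :
    k = k' := by revert ε k k'; decide

lemma exists_col (j : Fin 4) : ∃ k, k ≠ 2 ∧ col (side j) k = j := by revert j; decide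

lemma low_of_head {w : Word} {j : Fin 4} (h : w.1.head? = some j) : low w = side j := by
  simp [low, h]

lemma ht3_lt {k : Fin 3} {x : Word × Bool} : ht3 (step3 k x) ≠ ht3 x ∧ (ht3 (step3 k x) < ht3 x ↔
    (k = 2 ∧ x.2 ≠ low x.1) ∨ (k ≠ 2 ∧ x.1.1.head? = some (col x.2 k))) := by
  obtain ⟨w, ε⟩ := x
  by_cases hk : k = 2
  · subst hk
    simp only [ht3, step3, if_true]
    cases ε <;> cases low w <;> simp
  · simp only [ht3, step3, if_neg hk]
    rcases step_len (col ε k) w with ⟨h1, h2⟩ | ⟨h1, h2, h3⟩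
    · have := low_of_head h1
      rw [side_col] at this
      simp only [this, if_true, h1]
      split_ifs <;> simp [hk] <;> omega
    · have := low_of_head h2
      rw [side_col] at this
      simp only [this, if_true, h3]
      split_ifs <;> simp [hk, h1] <;> omega

def D3 : TreeData 3 (Word × Bool) where
  s := step3
  h := ht3
  root := (⟨[], by simp⟩, false)
  inv k x := by
    by_cases hk : k = 2
    · simp [step3, hk]
    · simp [step3, hk, step_step]
  ne k x := ht3_lt.1
  uniq k k' x h1 h2 := by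
    rw [ht3_lt.2] at h1 h2
    rcases h1 with ⟨h1, h1'⟩ | ⟨h1, h1'⟩ <;> rcases h2 with ⟨h2, h2'⟩ | ⟨h2, h2'⟩
    · rw [h1, h2]
    · exact (h1' (by rw [low_of_head h2', side_col])).elim
    · exact (h2' (by rw [low_of_head h1', side_col])).elim
    · exact col_inj _ _ _ h1 h2 (Option.some.inj (h1'.symm.trans h2'))
  down := by
    rintro ⟨⟨l, hl⟩, ε⟩ h
    by_cases h1 : ε = low ⟨l, hl⟩
    · cases l with
      | nil =>
        exfalso
        apply h
        rw [h1]
        rfl
      | cons j l =>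
        obtain ⟨k, hk, hk'⟩ := exists_col j
        refine ⟨k, ht3_lt.2.2 (Or.inr ⟨hk, ?_⟩)⟩
        have : low ⟨j :: l, hl⟩ = side j := rfl
        simp only [h1, this, hk', List.head?_cons]
    · exact ⟨2, ht3_lt.2.2 (Or.inl ⟨rfl, h1⟩)⟩

noncomputable def T4 : LegalTree 4 := D4.tree
noncomputable def T3 : LegalTree 3 := D3.tree

lemma T4_s : T4.s = step := funext fun i => funext fun v => D4.tree_s i v
lemma T3_s : T3.s = step3 := funext fun k => funext fun x => D3.tree_s k x

noncomputable def mk4 {F : Subgroup (Equiv.Perm (Fin 4))} (f : Word ≃ Word)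
    (hf : ∀ v, ∃ σ ∈ F, ∀ i, f (step i v) = step (σ i) (f v)) : U T4 F :=
  mkU T4 f (by rw [T4_s]; exact hf)

noncomputable def mk3 {F : Subgroup (Equiv.Perm (Fin 3))} (f : Word × Bool ≃ Word × Bool)
    (hf : ∀ v, ∃ σ ∈ F, ∀ i, f (step3 i v) = step3 (σ i) (f v)) : U T3 F :=
  mkU T3 f (by rw [T3_s]; exact hf)

def F1 : Subgroup (Equiv.Perm (Fin 3)) := MulAction.stabilizer (Equiv.Perm (Fin 3)) (2 : Fin 3)

def F2 : Subgroup (Equiv.Perm (Fin 4)) where
  carrier := {σ | ∀ i j, side (σ i) = side (σ j) ↔ side i = side j}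
  one_mem' := fun _ _ => Iff.rfl
  mul_mem' := fun {σ τ} hσ hτ i j => (hσ (τ i) (τ j)).trans (hτ i j)
  inv_mem' := fun {σ} hσ i j => by
    have := hσ (σ⁻¹ i) (σ⁻¹ j)
    simpa using this.symm

lemma mem_F1 {σ : Equiv.Perm (Fin 3)} : σ ∈ F1 ↔ σ 2 = 2 := Iff.rfl
lemma mem_F2 {σ : Equiv.Perm (Fin 4)} :
    σ ∈ F2 ↔ ∀ i j, side (σ i) = side (σ j) ↔ side i = side j := Iff.rfl

lemma fin_a : ∀ (σ0 σ1 : Equiv.Perm (Fin 3)) (η : Bool), σ0 2 = 2 → σ1 2 = 2 →
    ∃ τ : Equiv.Perm (Fin 4), (∀ i j, side (τ i) = side (τ j) ↔ side i = side j) ∧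
      (∀ k, k ≠ 2 → τ (col false k) = col η (σ0 k)) ∧
      (∀ k, k ≠ 2 → τ (col true k) = col (!η) (σ1 k)) := by
  decide +kernel

lemma fin_b : ∀ (τ : Equiv.Perm (Fin 4)) (ε : Bool),
    (∀ i j, side (τ i) = side (τ j) ↔ side i = side j) →
    ∃ σ : Equiv.Perm (Fin 3), σ 2 = 2 ∧
      ∀ k, k ≠ 2 → τ (col ε k) = col (xor ε (side (τ 0))) (σ k) := by
  decide +kernel

lemma fin_c : ∀ (τ τ' : Equiv.Perm (Fin 4)) (i : Fin 4),
    (∀ i j, side (τ i) = side (τ j) ↔ side i = side j) →
    (∀ i j, side (τ' i) = side (τ' j) ↔ side i = side j) → τ i = τ' i →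
    side (τ 0) = side (τ' 0) := by
  decide +kernel

lemma perm_ne_two {σ : Equiv.Perm (Fin 3)} (h : σ 2 = 2) {k : Fin 3} (hk : k ≠ 2) : σ k ≠ 2 :=
  fun h' => hk (σ.injective (h'.trans h.symm))

/-- elements of U(T3, F1) as maps on pairs -/
def ap3 (h : U T3 F1) (x : Word × Bool) : Word × Bool := h.1 x

def ap4 (g : U T4 F2) (v : Word) : Word := g.1 v

lemma ap3_local (h : U T3 F1) (x : Word × Bool) :
    ∃ σ : Equiv.Perm (Fin 3), σ 2 = 2 ∧ ∀ k, ap3 h (step3 k x) = step3 (σ k) (ap3 h x) := by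
  have := mem_U T3 h x
  rw [T3_s] at this
  exact this

lemma ap4_local (g : U T4 F2) (v : Word) :
    ∃ τ : Equiv.Perm (Fin 4), (∀ i j, side (τ i) = side (τ j) ↔ side i = side j) ∧
      ∀ i, ap4 g (step i v) = step (τ i) (ap4 g v) := by
  have := mem_U T4 g v
  rw [T4_s] at this
  exact this

lemma ap3_true (h : U T3 F1) (v : Word) :
    ap3 h (v, true) = ((ap3 h (v, false)).1, !(ap3 h (v, false)).2) := by
  obtain ⟨σ, hσ, h1⟩ := ap3_local h (v, false)
  have := h1 2
  rw [hσ] at this
  simpa [step3] using this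

lemma ap3_fst (h : U T3 F1) (x : Word × Bool) : (ap3 h x).1 = (ap3 h (x.1, false)).1 := by
  obtain ⟨v, ε⟩ := x
  cases ε
  · rfl
  · rw [ap3_true]

lemma ap3_mul (h h' : U T3 F1) (x : Word × Bool) : ap3 (h * h') x = ap3 h (ap3 h' x) := rfl
lemma ap3_one (x : Word × Bool) : ap3 1 x = x := rfl

noncomputable def barEquiv (h : U T3 F1) : Word ≃ Word where
  toFun v := (ap3 h (v, false)).1
  invFun v := (ap3 h⁻¹ (v, false)).1
  left_inv v := by
    simp only
    rw [← ap3_fst, ← ap3_mul, inv_mul_cancel, ap3_one]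
  right_inv v := by
    simp only
    rw [← ap3_fst, ← ap3_mul, mul_inv_cancel, ap3_one]

lemma bar_local (h : U T3 F1) (v : Word) :
    ∃ τ : Equiv.Perm (Fin 4), (∀ i j, side (τ i) = side (τ j) ↔ side i = side j) ∧
      side (τ 0) = (ap3 h (v, false)).2 ∧
      ∀ i, barEquiv h (step i v) = step (τ i) (barEquiv h v) := by
  obtain ⟨σ0, hσ0, h0⟩ := ap3_local h (v, false)
  obtain ⟨σ1, hσ1, h1⟩ := ap3_local h (v, true)
  obtain ⟨τ, hτ, h2, h3⟩ := fin_a σ0 σ1 (ap3 h (v, false)).2 hσ0 hσ1
  refine ⟨τ, hτ, ?_, fun i => ?_⟩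
  · have := h2 0 (by decide)
    have e : col false 0 = 0 := rfl
    rw [e] at this
    rw [this, side_col]
  · obtain ⟨k, hk, hk'⟩ := exists_col i
    change (ap3 h (step i v, false)).1 = step (τ i) (ap3 h (v, false)).1
    cases hs : side i
    · rw [hs] at hk'
      have := h0 k
      simp only [step3, if_neg hk, if_neg (perm_ne_two hσ0 hk), hk'] at this
      rw [this, ← hk', h2 k hk]
    · rw [hs] at hk'
      have := h1 k
      simp only [step3, if_neg hk, if_neg (perm_ne_two hσ1 hk), hk'] at this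
      rw [← ap3_fst h (step i v, true), this, ← hk', h3 k hk, ap3_true]

noncomputable def bar (h : U T3 F1) : U T4 F2 :=
  mk4 (barEquiv h) fun v => by
    obtain ⟨τ, hτ, -, h1⟩ := bar_local h v
    exact ⟨τ, hτ, h1⟩

lemma ap4_bar (h : U T3 F1) (v : Word) : ap4 (bar h) v = (ap3 h (v, false)).1 := rfl

noncomputable def flip' (a b : Word) : Bool := side (D4.col s(a, b))

noncomputable def flp (g : U T4 F2) (v : Word) : Bool := flip' (ap4 g v) (ap4 g (step 0 v))

lemma flp_eq (g : U T4 F2) (v : Word) (τ : Equiv.Perm (Fin 4))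
    (h : ∀ i, ap4 g (step i v) = step (τ i) (ap4 g v)) : flp g v = side (τ 0) := by
  rw [flp, flip', h]
  exact congrArg side (D4.col_s (τ 0) (ap4 g v))

lemma flp_step (g : U T4 F2) (v : Word) (i : Fin 4) : flp g (step i v) = flp g v := by
  obtain ⟨τ, hτ, h⟩ := ap4_local g v
  obtain ⟨τ', hτ', h'⟩ := ap4_local g (step i v)
  rw [flp_eq g v τ h, flp_eq g _ τ' h']
  apply fin_c τ' τ i hτ' hτ
  have h1 := h' i
  rw [step_step, h i] at h1
  apply D4.inj (v := step (τ i) (ap4 g v))
  change step (τ' i) _ = step (τ i) _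
  rw [← h1, step_step]

noncomputable def hatEquiv (g : U T4 F2) : Word × Bool ≃ Word × Bool :=
  Equiv.prodShear g.1.toEquiv fun v => if flp g v then Equiv.boolNot else Equiv.refl _

lemma hatEquiv_apply (g : U T4 F2) (v : Word) (ε : Bool) :
    hatEquiv g (v, ε) = (ap4 g v, xor ε (flp g v)) := by
  change (ap4 g v, (if flp g v then Equiv.boolNot else Equiv.refl _ : Bool ≃ Bool) ε) = _
  cases flp g v <;> cases ε <;> rfl

noncomputable def hat (g : U T4 F2) : U T3 F1 :=
  mk3 (hatEquiv g) (by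
    rintro ⟨v, ε⟩
    obtain ⟨τ, hτ, h⟩ := ap4_local g v
    obtain ⟨σ, hσ, h1⟩ := fin_b τ ε hτ
    refine ⟨σ, hσ, fun k => ?_⟩
    by_cases hk : k = 2
    · subst hk
      rw [hσ]
      simp [step3, hatEquiv_apply]
    · simp only [step3, if_neg hk, if_neg (perm_ne_two hσ hk), hatEquiv_apply, flp_step]
      rw [h, h1 k hk, flp_eq g v τ h])

lemma ap3_hat (g : U T4 F2) (v : Word) (ε : Bool) :
    ap3 (hat g) (v, ε) = (ap4 g v, xor ε (flp g v)) := hatEquiv_apply g v ε

noncomputable def iso : U T3 F1 ≃* U T4 F2 where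
  toFun := bar
  invFun := hat
  left_inv h := by
    apply U_ext
    rintro ⟨v, ε⟩
    change ap3 (hat (bar h)) (v, ε) = ap3 h (v, ε)
    obtain ⟨τ, -, h1, h2⟩ := bar_local h v
    rw [ap3_hat, flp_eq (bar h) v τ h2, h1, ap4_bar]
    cases ε
    · simp
    · rw [ap3_true]; simp
  right_inv g := by
    apply U_ext
    intro v
    exact congrArg Prod.fst (ap3_hat g v false)
  map_mul' h h' := by
    apply U_ext
    intro v
    change (ap3 (h * h') (v, false)).1 = (ap3 h ((ap3 h' (v, false)).1, false)).1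
    rw [ap3_mul, ap3_fst]

lemma iso_cont : Continuous iso := by
  refine continuous_induced_rng.2 (continuous_pi fun v => ?_)
  have h1 : Continuous (fun x : T3.V => (show T4.V from Prod.fst (α := Word) (β := Bool) x)) :=
    continuous_of_discreteTopology
  exact h1.comp (continuous_eval T3 F1 (v, false))

lemma iso_symm_cont : Continuous iso.symm := by
  refine continuous_induced_rng.2 (continuous_pi fun x => ?_)
  obtain ⟨v, ε⟩ := x
  have h1 : Continuous (fun p : T4.V × T4.V =>
      (show T3.V from ((p.1, xor ε (flip' p.1 p.2)) : Word × Bool))) :=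
    continuous_of_discreteTopology
  have h2 := h1.comp ((continuous_eval T4 F2 v).prodMk (continuous_eval T4 F2 (step 0 v)))
  convert h2 using 1
  funext g
  exact ap3_hat g v ε

/-! non-discreteness -/

def seen (n : ℕ) : List (Fin 4) → Bool
  | [] => false
  | i :: l => seen n l || (decide (n ≤ l.length) && side i)

def sw (b : Bool) : Equiv.Perm (Fin 4) := if b then Equiv.swap 0 1 else 1

def tw (n : ℕ) : List (Fin 4) → List (Fin 4)
  | [] => []
  | i :: l => sw (seen n l) i :: tw n l

lemma side_sw (b : Bool) (i : Fin 4) : side (sw b i) = side i := by revert b i; decide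
lemma sw_sw (b : Bool) (i : Fin 4) : sw b (sw b i) = i := by revert b i; decide
lemma sw_compat (b c : Bool) (i : Fin 4) : sw (b || (c && side i)) i = sw b i := by
  revert b c i; decide

lemma tw_length (n : ℕ) (l : List (Fin 4)) : (tw n l).length = l.length := by
  induction l with
  | nil => rfl
  | cons i l ih => simp [tw, ih]

lemma seen_tw (n : ℕ) (l : List (Fin 4)) : seen n (tw n l) = seen n l := by
  induction l with
  | nil => rfl
  | cons i l ih => simp [tw, seen, ih, tw_length, side_sw]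

lemma tw_tw (n : ℕ) (l : List (Fin 4)) : tw n (tw n l) = l := by
  induction l with
  | nil => rfl
  | cons i l ih => simp [tw, ih, seen_tw, sw_sw]

lemma tw_chain (n : ℕ) (l : List (Fin 4)) (h : l.IsChain (· ≠ ·)) : (tw n l).IsChain (· ≠ ·) := by
  induction l with
  | nil => exact h
  | cons i l ih =>
    cases l with
    | nil => simp [tw]
    | cons j l =>
      rw [List.isChain_cons_cons] at h
      have h1 := ih h.2
      simp only [tw] at h1 ⊢
      rw [List.isChain_cons_cons]
      refine ⟨?_, h1⟩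
      rw [← sw_compat (seen n l) (decide (n ≤ l.length)) j]
      exact fun h2 => h.1 ((sw _).injective h2)

def twEquiv (n : ℕ) : Word ≃ Word where
  toFun w := ⟨tw n w.1, tw_chain n _ w.2⟩
  invFun w := ⟨tw n w.1, tw_chain n _ w.2⟩
  left_inv w := Subtype.ext (tw_tw n w.1)
  right_inv w := Subtype.ext (tw_tw n w.1)

lemma twEquiv_step (n : ℕ) (w : Word) (i : Fin 4) :
    twEquiv n (step i w) = step (sw (seen n w.1) i) (twEquiv n w) := by
  rcases step_cases i w with h | ⟨h1, h⟩
  · apply Subtype.ext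
    symm
    apply step_of_eq
    change tw n w.1 = _ :: tw n (step i w).1
    conv_lhs => rw [h]
    conv_rhs => rw [h]
    simp only [tw, seen, sw_compat]
  · have h2 : (twEquiv n (step i w)).1 = sw (seen n w.1) i :: (twEquiv n w).1 := by
      change tw n (step i w).1 = _ :: tw n w.1
      rw [h]; rfl
    have h3 := step_of_eq h2
    have h4 : step (sw (seen n w.1) i) (twEquiv n (step i w)) = twEquiv n w := Subtype.ext h3
    rw [← h4, step_step]

noncomputable def twU (n : ℕ) : U T4 F2 :=
  mk4 (twEquiv n) fun v => ⟨sw (seen n v.1), fun i j => by rw [side_sw, side_sw],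
    fun i => twEquiv_step n v i⟩

lemma seen_small (n : ℕ) (l : List (Fin 4)) (h : l.length ≤ n) : seen n l = false := by
  induction l with
  | nil => rfl
  | cons i l ih =>
    simp only [List.length_cons] at h
    simp [seen, ih (by omega)]
    omega

lemma tw_small (n : ℕ) (l : List (Fin 4)) (h : l.length ≤ n) : tw n l = l := by
  induction l with
  | nil => rfl
  | cons i l ih =>
    simp only [List.length_cons] at h
    simp [tw, ih (by omega), seen_small n l (by omega), sw]

lemma exists_long (n : ℕ) : ∃ (j : Fin 4) (l : List (Fin 4)), (j :: l).IsChain (· ≠ ·) ∧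
    l.length = n ∧ side j = true := by
  induction n with
  | zero => exact ⟨2, [], by simp, rfl, rfl⟩
  | succ n ih =>
    obtain ⟨j, l, h1, h2, h3⟩ := ih
    have : ∀ j : Fin 4, ∃ j' : Fin 4, j' ≠ j ∧ side j' = true := by decide
    obtain ⟨j', h4, h5⟩ := this j
    exact ⟨j', j :: l, List.isChain_cons_cons.2 ⟨h4, h1⟩, by simp [h2], h5⟩

lemma twU_ne_one (n : ℕ) : twU n ≠ 1 := by
  intro h
  obtain ⟨j, l, h1, h2, h3⟩ := exists_long n
  have h0 : (0 : Fin 4) ≠ j := by rintro rfl; simp [side] at h3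
  have h4 : ap4 (twU n) ⟨0 :: j :: l, List.isChain_cons_cons.2 ⟨h0, h1⟩⟩ =
      ⟨0 :: j :: l, List.isChain_cons_cons.2 ⟨h0, h1⟩⟩ := by rw [h]; rfl
  have h5 : tw n (0 :: j :: l) = 0 :: j :: l := congrArg Subtype.val h4
  simp [tw, seen, h2, h3, sw] at h5

theorem not_discrete4 : ¬ DiscreteTopology (U T4 F2) := by
  intro hd
  have h1 : Filter.Tendsto twU Filter.atTop (nhds 1) := by
    have hind : Topology.IsInducing (fun (g : U T4 F2) (v : T4.V) => g.1 v) := ⟨rfl⟩
    rw [hind.tendsto_nhds_iff, tendsto_pi_nhds]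
    intro v
    apply tendsto_nhds_of_eventually_eq
    filter_upwards [Filter.eventually_ge_atTop
      (Subtype.val (p := fun l : List (Fin 4) => l.IsChain (· ≠ ·)) v).length] with n hn
    exact Subtype.ext (tw_small n _ hn)
  rw [nhds_discrete, Filter.tendsto_pure] at h1
  obtain ⟨n, hn⟩ := h1.exists
  exact twU_ne_one n hn

theorem not_discrete3 : ¬ DiscreteTopology (U T3 F1) := by
  intro hd
  exact not_discrete4 (Homeomorph.mk iso.toEquiv iso_cont iso_symm_cont).symm.isEmbedding.discreteTopology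

end Pool.Agent.Lib.MP_9a581e_an
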