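import Mathlib

set_option autoImplicit false

namespace Pool.Agent.Lib.MP_9a581e_an.FD20

variable {B : Type} [Ring B] [StarRing B] [Algebra ℂ B] [StarModule ℂ B]

/-- a nonzero selfadjoint element of a finite dimensional star-closed algebra has a spectral
projection, which is a multiple of the element -/
theorem exists_proj (hB : ∀ y : B, star y * y = 0 → y = 0) (M : Submodule ℂ B)
    [FiniteDimensional ℂ M] (hmul : ∀ a ∈ M, ∀ b ∈ M, a * b ∈ M) (x : B) (hx : x ∈ M)
    (hxs : star x = x) (hx0 : x ≠ 0) :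
    ∃ (r : B) (c : ℂ), r ∈ Submodule.span ℂ (Set.range fun k : ℕ => x ^ (k + 1)) ∧ r ∈ M ∧
      star r = r ∧ r * r = r ∧ r ≠ 0 ∧ x * r = c • r := by
  set W : Submodule ℂ B := Submodule.span ℂ (Set.range fun k : ℕ => x ^ (k + 1)) with hW
  have hpow : ∀ k : ℕ, x ^ (k + 1) ∈ M := by
    intro k
    induction k with
    | zero => simpa using hx
    | succ k ih => rw [pow_succ]; exact hmul _ ih _ hx
  have hWM : W ≤ M := Submodule.span_le.2 (by rintro _ ⟨k, rfl⟩; exact hpow k)
  have hfin : FiniteDimensional ℂ W := Submodule.finiteDimensional_of_le hWM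
  have hxW : x ∈ W := Submodule.subset_span ⟨0, by simp⟩
  have hL : ∀ y ∈ W, x * y ∈ W := by
    intro y hy
    refine Submodule.span_induction (p := fun y _ => x * y ∈ W) ?_ ?_ ?_ ?_ hy
    · rintro _ ⟨k, rfl⟩
      exact Submodule.subset_span ⟨k + 1, (pow_succ' x (k + 1))⟩
    · simp
    · intro a b _ _ ha hb
      rw [mul_add]; exact W.add_mem ha hb
    · intro c a _ ha
      rw [mul_smul_comm]; exact W.smul_mem c ha
  have hcomm : ∀ y ∈ W, x * y = y * x := by
    intro y hy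
    refine Submodule.span_induction (p := fun y _ => x * y = y * x) ?_ ?_ ?_ ?_ hy
    · rintro _ ⟨k, rfl⟩
      exact ((Commute.refl x).pow_right (k + 1)).eq
    · simp
    · intro a b _ _ ha hb
      rw [mul_add, add_mul, ha, hb]
    · intro c a _ ha
      rw [mul_smul_comm, smul_mul_assoc, ha]
  have hstar : ∀ y ∈ W, star y ∈ W := by
    intro y hy
    refine Submodule.span_induction (p := fun y _ => star y ∈ W) ?_ ?_ ?_ ?_ hy
    · rintro _ ⟨k, rfl⟩
      exact Submodule.subset_span ⟨k, by simp [star_pow, hxs]⟩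
    · simp
    · intro a b _ _ ha hb
      rw [star_add]; exact W.add_mem ha hb
    · intro c a _ ha
      rw [star_smul]; exact W.smul_mem _ ha
  have hWmul : ∀ a ∈ W, ∀ b ∈ W, a * b ∈ W := by
    intro a ha b hb
    refine Submodule.span_induction (p := fun a _ => a * b ∈ W) ?_ ?_ ?_ ?_ ha
    · rintro _ ⟨k, rfl⟩
      induction k with
      | zero => simpa using hL b hb
      | succ k ih =>
        have := hL _ ih
        simpa [pow_succ' x (k + 1), mul_assoc] using this
    · simp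
    · intro a b _ _ ha hb
      rw [add_mul]; exact W.add_mem ha hb
    · intro c a _ ha
      rw [smul_mul_assoc]; exact W.smul_mem _ ha
  have hev : ∀ (z : B) (c : ℂ), x * z = c • z → ∀ a ∈ W, ∃ t : ℂ, a * z = t • z := by
    intro z c hz a ha
    refine Submodule.span_induction (p := fun a _ => ∃ t : ℂ, a * z = t • z) ?_ ?_ ?_ ?_ ha
    · rintro _ ⟨k, rfl⟩
      induction k with
      | zero => exact ⟨c, by simpa using hz⟩
      | succ k ih =>
        obtain ⟨t, ht⟩ := ih
        refine ⟨t * c, ?_⟩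
        change x ^ (k + 1 + 1) * z = _
        change x ^ (k + 1) * z = _ at ht
        rw [pow_succ' x (k + 1), mul_assoc, ht, mul_smul_comm, hz, smul_smul]
    · exact ⟨0, by simp⟩
    · rintro a b _ _ ⟨s, hs⟩ ⟨t, ht⟩
      exact ⟨s + t, by rw [add_mul, hs, ht, add_smul]⟩
    · rintro c a _ ⟨s, hs⟩
      exact ⟨c * s, by rw [smul_mul_assoc, hs, smul_smul]⟩
  have hnt : Nontrivial W := ⟨⟨⟨x, hxW⟩, 0, fun h => hx0 (congrArg Subtype.val h)⟩⟩
  let L : Module.End ℂ W := (LinearMap.mulLeft ℂ x).restrict (fun y hy => hL y hy)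
  obtain ⟨c, hc⟩ := Module.End.exists_eigenvalue L
  obtain ⟨y, hy⟩ := hc.exists_hasEigenvector
  have hy0 : (y : B) ≠ 0 := fun h => hy.2 (Subtype.ext h)
  have hyc : x * (y : B) = c • (y : B) := congrArg Subtype.val hy.apply_eq_smul
  set z : B := star (y : B) * y with hz
  have hzW : z ∈ W := hWmul _ (hstar _ y.2) _ y.2
  have hz0 : z ≠ 0 := fun h => hy0 (hB _ h)
  have hzs : star z = z := by rw [hz, star_mul, star_star]
  have hzc : x * z = c • z := by
    rw [hz, ← mul_assoc, hcomm _ (hstar _ y.2), mul_assoc, hyc, mul_smul_comm]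
  obtain ⟨t, ht⟩ := hev z c hzc z hzW
  have ht0 : t ≠ 0 := by
    rintro rfl
    apply hz0
    apply hB
    rw [hzs, ht, zero_smul]
  have hts : star t = t := by
    have h1 : star (z * z) = z * z := by rw [star_mul, hzs]
    rw [ht, star_smul, hzs] at h1
    have h2 : (star t - t) • z = 0 := by rw [sub_smul, h1, sub_self]
    rcases smul_eq_zero.1 h2 with h | h
    · exact sub_eq_zero.1 h
    · exact absurd h hz0
  refine ⟨t⁻¹ • z, c, W.smul_mem _ hzW, hWM (W.smul_mem _ hzW), ?_, ?_, ?_, ?_⟩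
  · rw [star_smul, hzs, star_inv₀, hts]
  · rw [smul_mul_smul_comm, ht, smul_smul, mul_assoc, inv_mul_cancel₀ ht0, mul_one]
  · exact smul_ne_zero (inv_ne_zero ht0) hz0
  · rw [mul_smul_comm, hzc, smul_comm]

/-- the corner of a subspace -/
def corner (M : Submodule ℂ B) (p : B) : Submodule ℂ B where
  carrier := {x | x ∈ M ∧ p * x = x ∧ x * p = x}
  add_mem' := by
    rintro a b ⟨h1, h2, h3⟩ ⟨h4, h5, h6⟩
    exact ⟨M.add_mem h1 h4, by rw [mul_add, h2, h5], by rw [add_mul, h3, h6]⟩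
  zero_mem' := ⟨M.zero_mem, mul_zero p, zero_mul p⟩
  smul_mem' := by
    rintro c a ⟨h1, h2, h3⟩
    exact ⟨M.smul_mem c h1, by rw [mul_smul_comm, h2], by rw [smul_mul_assoc, h3]⟩

/-- every projection of a finite dimensional star-closed algebra is a finite sum of minimal
projections -/
theorem sum_minimal (hB : ∀ y : B, star y * y = 0 → y = 0) (M : Submodule ℂ B)
    [FiniteDimensional ℂ M] (hmul : ∀ a ∈ M, ∀ b ∈ M, a * b ∈ M) (hst : ∀ a ∈ M, star a ∈ M)
    (p : B) (hp : p ∈ M) (hps : star p = p) (hpp : p * p = p) :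
    ∃ l : List B, l.sum = p ∧ ∀ q ∈ l, q ∈ M ∧ star q = q ∧ q * q = q ∧ q ≠ 0 ∧ p * q = q ∧
      ∀ m ∈ M, ∃ c : ℂ, q * m * q = c • q := by
  have hle : ∀ p : B, corner M p ≤ M := fun p x hx => hx.1
  induction hn : Module.finrank ℂ (corner M p) using Nat.strong_induction_on generalizing p with
  | _ n ih =>
  by_cases hp0 : p = 0
  · exact ⟨[], by simp [hp0], by simp⟩
  by_cases hmin : ∀ m ∈ M, ∃ c : ℂ, p * m * p = c • p
  · exact ⟨[p], by simp, by simpa using ⟨hp, hps, hpp, hp0, hpp, hmin⟩⟩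
  have hx : ∃ x ∈ corner M p, star x = x ∧ ∀ c : ℂ, x ≠ c • p := by
    by_contra hcon
    apply hmin
    intro m hm
    have key : ∀ a ∈ M, star a = a → ∃ c : ℂ, p * a * p = c • p := by
      intro a ha has
      by_contra h2
      apply hcon
      refine ⟨p * a * p, ⟨hmul _ (hmul _ hp _ ha) _ hp, ?_, ?_⟩, ?_, fun c hc => h2 ⟨c, hc⟩⟩
      · rw [← mul_assoc, ← mul_assoc, hpp]
      · rw [mul_assoc _ p p, hpp]
      · rw [star_mul, star_mul, hps, has, mul_assoc]
    obtain ⟨c1, h1⟩ := key (m + star m) (M.add_mem hm (hst m hm)) (by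
      rw [star_add, star_star, add_comm])
    obtain ⟨c2, h2⟩ := key (Complex.I • (m - star m))
      (M.smul_mem _ (M.sub_mem hm (hst m hm))) (by
      rw [star_smul, star_sub, star_star, Complex.star_def, Complex.conj_I, neg_smul, ← smul_neg,
        neg_sub])
    refine ⟨2⁻¹ * (c1 - Complex.I * c2), ?_⟩
    have h3 : m = (2⁻¹ : ℂ) • ((m + star m) - Complex.I • (Complex.I • (m - star m))) := by
      rw [smul_smul, Complex.I_mul_I, neg_smul, one_smul, sub_neg_eq_add]
      have : m + star m + (m - star m) = (2 : ℂ) • m := by rw [two_smul]; abel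
      rw [this, smul_smul]; simp
    conv_lhs => rw [h3]
    rw [mul_smul_comm, smul_mul_assoc, mul_sub, sub_mul, h1, mul_smul_comm Complex.I p,
      smul_mul_assoc, h2, smul_smul, ← sub_smul, smul_smul]
  obtain ⟨x, hxc, hxs, hxn⟩ := hx
  have hx0 : x ≠ 0 := by simpa using hxn 0
  have hfin : ∀ p : B, FiniteDimensional ℂ (corner M p) :=
    fun p => Submodule.finiteDimensional_of_le (hle p)
  have := hfin p
  obtain ⟨r, c, -, hr, hrs, hrr, hr0, hxr⟩ := exists_proj hB (corner M p) (by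
    rintro a ⟨h1, h2, h3⟩ b ⟨h4, h5, h6⟩
    exact ⟨hmul _ h1 _ h4, by rw [← mul_assoc, h2], by rw [mul_assoc, h6]⟩) x hxc hxs hx0
  have hrp : r ≠ p := by
    rintro rfl
    exact hxn c (by rw [← hxr, hxc.2.2])
  have hlt : ∀ s : B, s ≠ p → p * s = s → s * p = s →
      Module.finrank ℂ (corner M s) < n := by
    intro s hs h1 h2
    rw [← hn]
    refine Submodule.finrank_lt_finrank_of_lt (lt_of_le_of_ne ?_ ?_)
    · rintro a ⟨h3, h4, h5⟩
      exact ⟨h3, by rw [← h4, ← mul_assoc, h1], by rw [← h5, mul_assoc, h2]⟩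
    · intro h
      have h3 : p ∈ corner M s := h ▸ (⟨hp, hpp, hpp⟩ : p ∈ corner M p)
      exact hs (by rw [← h2, h3.2.1])
  have e1 : p * (p - r) = p - r := by rw [mul_sub, hpp, hr.2.1]
  have e2 : (p - r) * p = p - r := by rw [sub_mul, hpp, hr.2.2]
  obtain ⟨l1, s1, m1⟩ := ih _ (hlt r hrp hr.2.1 hr.2.2) r hr.1 hrs hrr rfl
  obtain ⟨l2, s2, m2⟩ := ih _ (hlt (p - r) (fun h => hr0 (by simpa using h)) e1 e2) (p - r)
    (M.sub_mem hp hr.1) (by rw [star_sub, hps, hrs])
    (by rw [mul_sub, e2, sub_mul, hr.2.1, hrr, sub_self, sub_zero]) rfl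
  refine ⟨l1 ++ l2, by rw [List.sum_append, s1, s2, add_sub_cancel], fun q hq => ?_⟩
  rcases List.mem_append.1 hq with h | h
  · obtain ⟨a1, a2, a3, a4, a5, a6⟩ := m1 q h
    exact ⟨a1, a2, a3, a4, by rw [← a5, ← mul_assoc, hr.2.1], a6⟩
  · obtain ⟨a1, a2, a3, a4, a5, a6⟩ := m2 q h
    exact ⟨a1, a2, a3, a4, by rw [← a5, ← mul_assoc, e1], a6⟩

end Pool.Agent.Lib.MP_9a581e_an.FD20
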