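import Pool.Agent.Lib.MP_9a581e_an.Defs

/-! Equal Gram matrices and equal matrix coefficients give a spatial isomorphism. -/

set_option autoImplicit false

namespace Pool.Agent.Lib.MP_9a581e_an.Glue86

open Submodule

variable {H K : Type} [NormedAddCommGroup H] [InnerProductSpace ℂ H] [CompleteSpace H]
  [NormedAddCommGroup K] [InnerProductSpace ℂ K] [CompleteSpace K] {ι κ : Type}

omit [CompleteSpace H] in
theorem dr {x : κ → H} (hx : Dense (span ℂ (Set.range x) : Set H)) :
    DenseRange (Finsupp.linearCombination ℂ x) := by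
  rw [← Finsupp.range_linearCombination] at hx
  exact hx

/-- a unitary matching two total families with the same Gram matrix -/
theorem exists_unitary {x : κ → H} {y : κ → K} (hx : Dense (span ℂ (Set.range x) : Set H))
    (hy : Dense (span ℂ (Set.range y) : Set K))
    (hG : ∀ a b, inner ℂ (x a) (x b) = inner ℂ (y a) (y b)) :
    ∃ W : H ≃ₗᵢ[ℂ] K, ∀ a, W (x a) = y a := by
  have hn : ∀ c : κ →₀ ℂ, ‖Finsupp.linearCombination ℂ y (LinearEquiv.refl ℂ _ c)‖ =
      ‖Finsupp.linearCombination ℂ x c‖ := fun c => by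
    rw [norm_eq_sqrt_re_inner (𝕜 := ℂ), norm_eq_sqrt_re_inner (𝕜 := ℂ)]
    simp only [LinearEquiv.refl_apply, Finsupp.linearCombination_apply, Finsupp.sum, sum_inner,
      inner_sum, inner_smul_left, inner_smul_right, hG]
  refine ⟨(LinearEquiv.refl ℂ (κ →₀ ℂ)).extendOfIsometry _ _ (dr hx) (dr hy) hn, fun a => ?_⟩
  simpa using (LinearEquiv.refl ℂ (κ →₀ ℂ)).extendOfIsometry_eq _ _ (dr hx) (dr hy) hn
    (Finsupp.single a 1)

omit [CompleteSpace K] in
/-- operators are determined by their matrix coefficients on a total family -/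
theorem ext_coeff {y : κ → K} (hy : Dense (span ℂ (Set.range y) : Set K)) {A B : K →L[ℂ] K}
    (h : ∀ a b, inner ℂ (y a) (A (y b)) = inner ℂ (y a) (B (y b))) : A = B := by
  refine ContinuousLinearMap.ext_on hy ?_
  rintro _ ⟨b, rfl⟩
  have : innerSL ℂ (A (y b)) = innerSL ℂ (B (y b)) := ContinuousLinearMap.ext_on hy (by
    rintro _ ⟨a, rfl⟩
    rw [innerSL_apply_apply, innerSL_apply_apply, ← inner_conj_symm, h, inner_conj_symm])
  exact ext_inner_right ℂ fun v => congrArg (fun f : K →L[ℂ] ℂ => f v) this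

/-- conjugation by a unitary carries closed spans to closed spans -/
theorem starIso_of_unitary (W : H ≃ₗᵢ[ℂ] K) {S : ι → H →L[ℂ] H} {T : ι → K →L[ℂ] K}
    (h : ∀ i, W.conjStarAlgEquiv (S i) = T i) :
    StarIso (closure (span ℂ (Set.range S) : Set (H →L[ℂ] H)))
      (closure (span ℂ (Set.range T) : Set (K →L[ℂ] K))) := by
  have hc : ∀ {A B : Type} [NormedAddCommGroup A] [InnerProductSpace ℂ A] [CompleteSpace A]
      [NormedAddCommGroup B] [InnerProductSpace ℂ B] [CompleteSpace B] (X : A ≃ₗᵢ[ℂ] B),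
      Continuous X.conjStarAlgEquiv := by
    intro A B _ _ _ _ _ _ X
    have : (X.conjStarAlgEquiv : (A →L[ℂ] A) → (B →L[ℂ] B)) =
        fun x => (X : A →L[ℂ] B) ∘L x ∘L (X.symm : B →L[ℂ] A) := rfl
    rw [this]
    exact continuous_const.clm_comp (continuous_id.clm_comp continuous_const)
  let Hm : (H →L[ℂ] H) ≃ₜ (K →L[ℂ] K) :=
    Homeomorph.mk W.conjStarAlgEquiv.toEquiv (hc W) (hc W.symm)
  refine ⟨W.conjStarAlgEquiv, (Hm.image_closure _).trans (congrArg closure ?_)⟩
  have := Submodule.map_span (W.conjStarAlgEquiv.toAlgEquiv.toLinearEquiv.toLinearMap) (Set.range S)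
  rw [← Set.range_comp] at this
  rw [← funext h]
  exact congrArg SetLike.coe this

theorem glue {x : κ → H} {y : κ → K} (hx : Dense (span ℂ (Set.range x) : Set H))
    (hy : Dense (span ℂ (Set.range y) : Set K))
    (hG : ∀ a b, inner ℂ (x a) (x b) = inner ℂ (y a) (y b))
    {S : ι → H →L[ℂ] H} {T : ι → K →L[ℂ] K}
    (hM : ∀ i a b, inner ℂ (x a) (S i (x b)) = inner ℂ (y a) (T i (y b))) :
    StarIso (closure (span ℂ (Set.range S) : Set (H →L[ℂ] H)))
      (closure (span ℂ (Set.range T) : Set (K →L[ℂ] K))) := by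
  obtain ⟨W, hW⟩ := exists_unitary hx hy hG
  refine starIso_of_unitary W fun i => ext_coeff hy fun a b => ?_
  rw [← hM, LinearIsometryEquiv.conjStarAlgEquiv_apply_apply, ← hW, ← hW, W.symm_apply_apply,
    W.inner_map_map]

end Pool.Agent.Lib.MP_9a581e_an.Glue86
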