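import Mathlib
import Pool.Agent.Lib.MP_9a581e_an.Cusp38
import Pool.Agent.Lib.MP_9a581e_an.FD20
import Pool.Agent.Lib.MP_9a581e_an.Grp38Defs

set_option autoImplicit false
set_option linter.unusedSectionVars false

namespace Pool.Agent.Lib.MP_9a581e_an.Grp

open Submodule MulAction Pool.Agent.Lib.MP_9a581e_an.Cusp

variable {H : Type} [NormedAddCommGroup H] [InnerProductSpace ℂ H] [CompleteSpace H]

theorem exists_supp (M : Submodule ℂ (H →L[ℂ] H)) [FiniteDimensional ℂ M]
    (hmul : ∀ a ∈ M, ∀ b ∈ M, a * b ∈ M) (x : H →L[ℂ] H) (hx : x ∈ M) (hxs : star x = x) :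
    ∃ q ∈ span ℂ (Set.range fun k : ℕ => x ^ (k + 1)), star q = q ∧ q * q = q ∧ x * q = x := by
  let W := span ℂ (Set.range fun k : ℕ => x ^ (k + 1))
  have hpow : ∀ k : ℕ, x ^ (k + 1) ∈ M := by
    intro k
    induction k with
    | zero => simpa using hx
    | succ k ih => rw [pow_succ]; exact hmul _ ih _ hx
  have hWM : W ≤ M := span_le.2 (Set.range_subset_iff.2 hpow)
  have : FiniteDimensional ℂ W := finiteDimensional_of_le hWM
  have h1 : ∀ w ∈ W, x * w ∈ W ∧ star w ∈ W ∧ ∃ w', w = x * w' ∧ w = w' * x := by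
    intro w hw
    induction hw using span_induction with
    | mem w hw =>
      obtain ⟨k, rfl⟩ := hw
      refine ⟨subset_span ⟨k + 1, pow_succ' _ _⟩, subset_span ⟨k, ?_⟩, x ^ k, pow_succ' _ _,
        pow_succ _ _⟩
      simp only [star_pow, hxs]
    | zero => exact ⟨by simp, by simp, 0, by simp, by simp⟩
    | add y z _ _ hy hz =>
      obtain ⟨a1, a2, a, a3, a4⟩ := hy
      obtain ⟨b1, b2, b, b3, b4⟩ := hz
      refine ⟨by rw [mul_add]; exact W.add_mem a1 b1, by rw [star_add]; exact W.add_mem a2 b2,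
        a + b, by rw [mul_add, ← a3, ← b3], by rw [add_mul, ← a4, ← b4]⟩
    | smul c y _ hy =>
      obtain ⟨a1, a2, a, a3, a4⟩ := hy
      refine ⟨by rw [mul_smul_comm]; exact W.smul_mem _ a1,
        by rw [star_smul]; exact W.smul_mem _ a2, c • a, by rw [mul_smul_comm, ← a3],
        by rw [smul_mul_assoc, ← a4]⟩
  let L : W →ₗ[ℂ] W := (LinearMap.mulLeft ℂ x).restrict fun w hw => (h1 w hw).1
  have hL : Function.Injective L := by
    rw [injective_iff_map_eq_zero]
    intro w hw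
    have h2 : x * w.1 = 0 := congrArg Subtype.val hw
    obtain ⟨-, -, w', h3, -⟩ := h1 w.1 w.2
    have h4 : star w.1 * w.1 = 0 := by
      calc star w.1 * w.1 = star (x * w') * w.1 := by rw [← h3]
        _ = 0 := by rw [star_mul, hxs, mul_assoc, h2, mul_zero]
    exact Subtype.ext ((CStarRing.star_mul_self_eq_zero_iff _).1 h4)
  obtain ⟨q, hq⟩ := LinearMap.surjective_of_injective hL ⟨x, subset_span ⟨0, by simp⟩⟩
  have h2 : x * q.1 = x := congrArg Subtype.val hq
  have h3 : ∀ w ∈ W, w * q.1 = w := by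
    intro w hw
    obtain ⟨-, -, w', -, h4⟩ := h1 w hw
    rw [h4, mul_assoc, h2]
  have h4 := h3 _ (h1 _ q.2).2.1
  refine ⟨q.1, q.2, ?_, h3 _ q.2, h2⟩
  have h5 := congrArg star h4
  rw [star_mul, star_star, h4] at h5
  exact h5

theorem proj_zero {ι : Type*} (s : Finset ι) (p : ι → H →L[ℂ] H) (h1 : ∀ i, star (p i) = p i)
    (h2 : ∀ i, p i * p i = p i) {z : H} (hz : (∑ i ∈ s, p i) z = 0) : ∀ i ∈ s, p i z = 0 := by
  have h3 : ∑ i ∈ s, ‖p i z‖ ^ 2 = 0 := by
    have h4 : ∀ i, inner ℂ z (p i z) = ((‖p i z‖ ^ 2 : ℝ) : ℂ) := by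
      intro i
      have := inner_op (p i) (p i) z z
      rw [h1, h2] at this
      rw [← this, inner_self_eq_norm_sq_to_K]
      simp
    have h5 : inner ℂ z ((∑ i ∈ s, p i) z) = ∑ i ∈ s, ((‖p i z‖ ^ 2 : ℝ) : ℂ) := by
      rw [sum_apply, inner_sum]
      exact Finset.sum_congr rfl fun i _ => h4 i
    rw [hz, inner_zero_right] at h5
    exact_mod_cast h5.symm
  intro i hi
  have := (Finset.sum_eq_zero_iff_of_nonneg fun i _ => sq_nonneg _).1 h3 i hi
  simpa using this

variable {G : Type} [Group G] {Ty : Type} [MulAction G Ty]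

variable {lam : G →* (H →L[ℂ] H)} {p : Ty → H →L[ℂ] H} {K : Ty → Subgroup G}
  {size : Ty → ℕ} {sub : Ty → Set Ty}

theorem span_mul_mem {s : Set (H →L[ℂ] H)} {C : Submodule ℂ (H →L[ℂ] H)} (a b : H →L[ℂ] H)
    (h : ∀ x ∈ s, a * x * b ∈ C) {x : H →L[ℂ] H} (hx : x ∈ span ℂ s) : a * x * b ∈ C := by
  induction hx using span_induction with
  | mem x hx => exact h x hx
  | zero => simp
  | add y z _ _ hy hz => rw [mul_add, add_mul]; exact C.add_mem hy hz
  | smul c y _ hy => rw [mul_smul_comm, smul_mul_assoc]; exact C.smul_mem _ hy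

theorem clos_mul_mem {M C : Submodule ℂ (H →L[ℂ] H)} (hC : IsClosed (C : Set (H →L[ℂ] H)))
    (a b : H →L[ℂ] H) (h : ∀ x ∈ M, a * x * b ∈ C) {x : H →L[ℂ] H}
    (hx : x ∈ M.topologicalClosure) : a * x * b ∈ C :=
  closure_minimal (t := {x | a * x * b ∈ C}) h
    (hC.preimage ((continuous_const.mul continuous_id).mul continuous_const)) hx

theorem gen_mem (g : G) {T : Ty} {Z : Set Ty} (hT : T ∈ Z) : lam g * p T ∈ L lam p Z :=
  subset_span ⟨g, T, hT, rfl⟩

theorem p_mem {T : Ty} {Z : Set Ty} (hT : T ∈ Z) : p T ∈ L lam p Z := by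
  simpa using gen_mem (lam := lam) (p := p) 1 hT

theorem lam_mul_mem (g : G) {Z : Set Ty} {a : H →L[ℂ] H} (ha : a ∈ L lam p Z) :
    lam g * a ∈ L lam p Z := by
  have := span_mul_mem (C := L lam p Z) (lam g) 1 ?_ ha
  · simpa using this
  · rintro _ ⟨h, T, hT, rfl⟩
    rw [mul_one, ← mul_assoc, ← map_mul]
    exact gen_mem _ hT

theorem L_mono {Z Z' : Set Ty} (h : Z ⊆ Z') : L lam p Z ≤ L lam p Z' :=
  span_mono fun _ ⟨g, T, hT, e⟩ => ⟨g, T, h hT, e⟩

theorem B_le (S : Ty) : B lam p S ≤ L lam p {S} :=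
  span_mono fun _ ⟨s, _, e⟩ => ⟨s, S, rfl, e⟩

namespace Sys

variable (Y : Sys lam p K)
include Y

theorem p_lam (g : G) (T : Ty) : p T * lam g = lam g * p (g⁻¹ • T) := by
  rw [Y.equiv, smul_inv_smul]

theorem p_mul_mem (S : Ty) {Z : Set Ty} {a : H →L[ℂ] H} (ha : a ∈ L lam p Z) :
    p S * a ∈ L lam p Z := by
  have := span_mul_mem (C := L lam p Z) (p S) 1 ?_ ha
  · simpa using this
  · rintro _ ⟨h, T, hT, rfl⟩
    rw [mul_one, ← mul_assoc, Y.p_lam, mul_assoc]
    refine lam_mul_mem h (span_mono ?_ (Y.avg _ T))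
    rintro _ ⟨k, -, rfl⟩
    exact ⟨k, T, hT, rfl⟩

theorem L_mul {Z Z' : Set Ty} {a b : H →L[ℂ] H} (ha : a ∈ L lam p Z') (hb : b ∈ L lam p Z) :
    a * b ∈ L lam p Z := by
  have := span_mul_mem (C := L lam p Z) 1 b ?_ ha
  · simpa using this
  · rintro _ ⟨h, T, -, rfl⟩
    rw [one_mul, mul_assoc]
    exact lam_mul_mem h (Y.p_mul_mem T hb)

theorem L_star {a : H →L[ℂ] H} (ha : a ∈ L lam p Set.univ) : star a ∈ L lam p Set.univ := by
  induction ha using span_induction with
  | mem x hx =>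
    obtain ⟨g, T, -, rfl⟩ := hx
    rw [star_mul, Y.p_star, Y.lam_star, Y.p_lam]
    exact gen_mem _ trivial
  | zero => simp
  | add y z _ _ hy hz => rw [star_add]; exact add_mem hy hz
  | smul c y _ hy => rw [star_smul]; exact smul_mem _ _ hy

theorem comm {S : Ty} {s : G} (hs : s ∈ stabilizer G S) : p S * lam s = lam s * p S := by
  rw [Y.equiv, mem_stabilizer_iff.1 hs]

theorem B_mul {S : Ty} {a b : H →L[ℂ] H} (ha : a ∈ B lam p S) (hb : b ∈ B lam p S) :
    a * b ∈ B lam p S := by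
  have := span_mul_mem (C := B lam p S) 1 b ?_ ha
  · simpa using this
  rintro _ ⟨s, hs, rfl⟩
  have := span_mul_mem (C := B lam p S) (lam s * p S) 1 ?_ hb
  · simpa using this
  rintro _ ⟨t, ht, rfl⟩
  refine subset_span ⟨s * t, mul_mem hs ht, ?_⟩
  rw [mul_one, mul_assoc, ← mul_assoc (p S), Y.comm ht, mul_assoc, Y.p_idem, map_mul, mul_assoc]

theorem B_star {S : Ty} {a : H →L[ℂ] H} (ha : a ∈ B lam p S) : star a ∈ B lam p S := by
  induction ha using span_induction with
  | mem x hx =>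
    obtain ⟨s, hs, rfl⟩ := hx
    rw [star_mul, Y.p_star, Y.lam_star, Y.comm (inv_mem hs)]
    exact subset_span ⟨_, inv_mem hs, rfl⟩
  | zero => simp
  | add y z _ _ hy hz => rw [star_add]; exact add_mem hy hz
  | smul c y _ hy => rw [star_smul]; exact smul_mem _ _ hy

theorem B_p {S : Ty} {a : H →L[ℂ] H} (ha : a ∈ B lam p S) : a * p S = a := by
  induction ha using span_induction with
  | mem x hx => obtain ⟨s, hs, rfl⟩ := hx; rw [mul_assoc, Y.p_idem]
  | zero => simp
  | add y z _ _ hy hz => rw [add_mul, hy, hz]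
  | smul c y _ hy => rw [smul_mul_assoc, hy]

theorem p_B {S : Ty} {a : H →L[ℂ] H} (ha : a ∈ B lam p S) : p S * a = a := by
  have := congrArg star (Y.B_p (Y.B_star ha))
  rwa [star_mul, star_star, Y.p_star] at this

theorem p_le {S S' : Ty} (h : K S ≤ K S') : p S' * p S = p S' := by
  have h1 : p S * p S' = p S' := ContinuousLinearMap.ext fun x =>
    Y.fix S (p S' x) fun k hk => by rw [← mul_apply_eq_comp, Y.lam_p S' k (h hk)]
  have := congrArg star h1
  rwa [star_mul, Y.p_star, Y.p_star] at this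

theorem B_span (S : Ty) : B lam p S ≤ span ℂ (Set.range
    fun c : stabilizer G S ⧸ (K S).subgroupOf (stabilizer G S) => lam c.out.1 * p S) := by
  refine span_le.2 ?_
  rintro _ ⟨s, hs, rfl⟩
  obtain ⟨k, hk⟩ := QuotientGroup.mk_out_eq_mul ((K S).subgroupOf (stabilizer G S)) ⟨s, hs⟩
  refine subset_span ⟨QuotientGroup.mk ⟨s, hs⟩, ?_⟩
  simp only [hk]
  have h1 : (k.1.1 : G) ∈ K S := k.2
  rw [Subgroup.coe_mul, map_mul, mul_assoc, Y.lam_p S _ h1]

theorem lam_ne {g : G} {a : H →L[ℂ] H} (h : lam g * a = 0) : a = 0 := by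
  have : lam g⁻¹ * (lam g * a) = a := by rw [← mul_assoc, ← map_mul]; simp
  rw [← this, h, mul_zero]

theorem inner_lam (s t : G) (x y : H) :
    inner ℂ (lam s x) (lam t y) = inner ℂ x (lam (s⁻¹ * t) y) := by
  rw [inner_op, Y.lam_star, map_mul]

end Sys

/-- the cuspidal projection of `S` -/
structure IsCusp (lam : G →* (H →L[ℂ] H)) (p : Ty → H →L[ℂ] H) (size : Ty → ℕ)
    (sub : Ty → Set Ty) (S : Ty) (e : H →L[ℂ] H) : Prop where
  mem : e ∈ B lam p S
  st : star e = e
  idem : e * e = e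
  low : p S - e ∈ L lam p {T | size T < size S}
  kill : ∀ T, size T ≤ size S → T ≠ S → e * p T = 0
  fix : ∀ x, p S x = x → (∀ S' ∈ sub S, p S' x = 0) → e x = x

theorem B_fin (Y : Sys lam p K) (C : Comb size sub K) {S : Ty} (hS : 1 ≤ size S) :
    FiniteDimensional ℂ (B lam p S) :=
  have := C.fin S hS
  have := FiniteDimensional.span_of_finite ℂ (Set.finite_range
    fun c : stabilizer G S ⧸ (K S).subgroupOf (stabilizer G S) => lam c.out.1 * p S)
  finiteDimensional_of_le (Y.B_span S)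

theorem exists_cusp (Y : Sys lam p K) (C : Comb size sub K) {S : Ty} (hS : 1 ≤ size S) :
    ∃ e, IsCusp lam p size sub S e := by
  have := B_fin Y C hS
  let F := (C.sub_fin S).toFinset
  have hF : ∀ S', S' ∈ F ↔ S' ∈ sub S := fun S' => Set.Finite.mem_toFinset _
  have hp : ∀ S' ∈ sub S, p S' ∈ B lam p S := by
    intro S' h
    rw [← Y.p_le (C.K_le S S' h)]
    refine span_mono ?_ (Y.avg S' S)
    rintro _ ⟨k, hk, rfl⟩
    exact ⟨k, C.sub_stab S S' h hk, rfl⟩
  have hx : ∑ S' ∈ F, p S' ∈ B lam p S := sum_mem fun S' h => hp S' ((hF S').1 h)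
  have hxs : star (∑ S' ∈ F, p S') = ∑ S' ∈ F, p S' := by
    rw [star_sum]
    exact Finset.sum_congr rfl fun S' _ => Y.p_star S'
  obtain ⟨q, hq, h1, h2, h3⟩ := exists_supp (B lam p S) (fun a ha b hb => Y.B_mul ha hb) _ hx hxs
  have hgen : ∀ M : Submodule ℂ (H →L[ℂ] H), (∑ S' ∈ F, p S') ∈ M →
      (∀ a ∈ M, (∑ S' ∈ F, p S') * a ∈ M) → q ∈ M := by
    intro M a1 a2
    refine (span_le.2 (Set.range_subset_iff.2 fun k => ?_)) hq
    induction k with
    | zero => simpa using a1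
    | succ k ih => rw [pow_succ']; exact a2 _ ih
  have hqB : q ∈ B lam p S := hgen _ hx fun a ha => Y.B_mul hx ha
  have hxL : ∑ S' ∈ F, p S' ∈ L lam p {T | size T < size S} :=
    sum_mem fun S' h => p_mem (C.sub_size S S' ((hF S').1 h))
  have hpS : p S ∈ B lam p S := subset_span ⟨1, one_mem _, by simp⟩
  have hst : star (p S - q) = p S - q := by rw [star_sub, Y.p_star, h1]
  have h4 : ∀ S' ∈ sub S, (p S - q) * p S' = 0 := by
    intro S' h
    have h5 : p S' * (p S - q) = 0 := ContinuousLinearMap.ext fun z => by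
      refine proj_zero F p Y.p_star Y.p_idem (z := (p S - q) z) ?_ S' ((hF S').2 h)
      rw [← mul_apply_eq_comp, mul_sub, Y.B_p hx, h3, sub_self]
      rfl
    have := congrArg star h5
    rwa [star_mul, hst, Y.p_star, star_zero] at this
  refine ⟨p S - q, sub_mem hpS hqB, hst, ?_, ?_, fun T h5 h6 => ?_, fun z h5 h6 => ?_⟩
  · rw [sub_mul, mul_sub, mul_sub, Y.p_idem, Y.p_B hqB, Y.B_p hqB, h2, sub_self, sub_zero]
  · rw [sub_sub_cancel]
    exact hgen _ hxL fun a ha => Y.L_mul hxL ha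
  · obtain ⟨S', h7, h8⟩ := C.fact S T hS h5 h6
    have h9 : p S' * (p S * p T) = p S * p T := ContinuousLinearMap.ext fun z => by
      refine Y.fix S' ((p S * p T) z) fun k hk => ?_
      obtain ⟨k₁, a1, k₂, a2, e⟩ := h8 k hk
      have a3 : p S * lam k₁ = p S := by rw [Y.comm (C.K_stab S a1), Y.lam_p S _ a1]
      rw [← mul_apply_eq_comp, ← mul_assoc, ← Y.comm (C.sub_stab S S' h7 hk), e, map_mul,
        ← mul_assoc, a3, mul_assoc, Y.lam_p T _ a2]
    rw [← Y.B_p (sub_mem hpS hqB), mul_assoc, ← h9, ← mul_assoc, h4 S' h7, zero_mul]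
  · have h7 : (∑ S' ∈ F, p S') z = 0 := by
      rw [sum_apply]
      exact Finset.sum_eq_zero fun S' h => h6 S' ((hF S').1 h)
    have h9 : q z = 0 := by
      refine (span_le (p := LinearMap.ker (ContinuousLinearMap.apply ℂ H z).toLinearMap)).2
        (Set.range_subset_iff.2 fun k => ?_) hq
      change ((∑ S' ∈ F, p S') ^ (k + 1)) z = 0
      rw [pow_succ, mul_apply_eq_comp, h7, map_zero]
    rw [sub_apply, h5, h9, sub_zero]

/-- minimal projections under a cuspidal projection -/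
structure IsMin (lam : G →* (H →L[ℂ] H)) (p : Ty → H →L[ℂ] H) (size : Ty → ℕ) (S : Ty)
    (r : H →L[ℂ] H) : Prop where
  pos : 1 ≤ size S
  mem : r ∈ B lam p S
  st : star r = r
  idem : r * r = r
  ne : r ≠ 0
  min : ∀ m ∈ B lam p S, ∃ c : ℂ, r * m * r = c • r
  kill : ∀ T, size T ≤ size S → T ≠ S → r * p T = 0

theorem cusp_sum (Y : Sys lam p K) (C : Comb size sub K) {S : Ty} (hS : 1 ≤ size S)
    {e : H →L[ℂ] H} (he : IsCusp lam p size sub S e) :
    ∃ l : List (H →L[ℂ] H), l.sum = e ∧ ∀ r ∈ l, IsMin lam p size S r := by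
  have := B_fin Y C hS
  obtain ⟨l, h1, h2⟩ := FD20.sum_minimal (fun y hy => (CStarRing.star_mul_self_eq_zero_iff y).1 hy)
    (B lam p S) (fun a ha b hb => Y.B_mul ha hb) (fun a ha => Y.B_star ha) e he.mem he.st he.idem
  refine ⟨l, h1, fun r hr => ?_⟩
  obtain ⟨a1, a2, a3, a4, a5, a6⟩ := h2 r hr
  refine ⟨hS, a1, a2, a3, a4, a6, fun T b1 b2 => ?_⟩
  have h3 := congrArg star a5
  rw [star_mul, a2, he.st] at h3
  rw [← h3, mul_assoc, he.kill T b1 b2, mul_zero]

namespace IsMin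

variable {S : Ty} {r : H →L[ℂ] H} (M : IsMin lam p size S r) (Y : Sys lam p K)
  (C : Comb size sub K)
include M Y C

theorem kill_gen (g : G) {T : Ty} (h1 : size T ≤ size S) (h2 : g • T ≠ S) :
    r * (lam g * p T) = 0 := by
  rw [Y.equiv, ← mul_assoc, M.kill _ ((C.size_smul g T).le.trans h1) h2, zero_mul]

theorem kill_low {T : Ty} (h : size T < size S) {a : H →L[ℂ] H}
    (ha : a ∈ (L lam p Set.univ).topologicalClosure) : r * a * p T = 0 := by
  refine clos_mul_mem (C := ⊥) isClosed_singleton r (p T) (fun x hx => ?_) ha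
  have h1 := span_mul_mem (C := ⊥) r 1 ?_ (Y.L_mul hx (p_mem (Set.mem_singleton T)))
  · rwa [mul_one, ← mul_assoc] at h1
  · rintro _ ⟨g, T', rfl, rfl⟩
    rw [mul_one, M.kill_gen Y C g h.le fun h0 => h.ne (by rw [← h0, C.size_smul])]
    exact zero_mem _

theorem min_all {a : H →L[ℂ] H} (ha : a ∈ (L lam p Set.univ).topologicalClosure) :
    ∃ c : ℂ, r * a * r = c • r := by
  have h0 : r * a * r ∈ span ℂ {r} := by
    refine clos_mul_mem (closed_of_finiteDimensional _) r r (fun x hx => ?_) ha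
    have h1 := span_mul_mem (C := span ℂ {r}) r r ?_ (Y.L_mul hx (p_mem (Set.mem_singleton S)))
    · rwa [mul_assoc, mul_assoc, Y.p_B M.mem, ← mul_assoc] at h1
    · rintro _ ⟨g, T', rfl, rfl⟩
      by_cases hg : g • T' = T'
      · obtain ⟨c, hc⟩ := M.min _ (subset_span ⟨g, hg, rfl⟩)
        rw [hc]
        exact smul_mem _ _ (mem_span_singleton_self r)
      · rw [M.kill_gen Y C g le_rfl hg, zero_mul]
        exact zero_mem _
  obtain ⟨c, hc⟩ := mem_span_singleton.1 h0
  exact ⟨c, hc.symm⟩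

theorem seq : ∃ g : ℕ → G, Function.Injective fun n => g n • S := by
  let e := (C.orb S M.pos).natEmbedding
  choose g hg using fun n => (e n).2
  refine ⟨g, fun n m h => e.injective (Subtype.ext ?_)⟩
  rw [← hg n, ← hg m]
  exact h

theorem alg : ∃ z : ℕ → H →L[ℂ] H, (∀ n, z n ∈ (L lam p Set.univ).topologicalClosure) ∧
    (∀ n, z n * r ≠ 0) ∧ Pairwise fun n m => r * star (z n) * z m * r = 0 := by
  obtain ⟨g, hg⟩ := M.seq Y C
  refine ⟨fun n => lam (g n) * p S, fun n => le_topologicalClosure _ (gen_mem _ trivial),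
    fun n h => M.ne (Y.lam_ne (g := g n) ?_), fun n m h => ?_⟩
  · rwa [mul_assoc, Y.p_B M.mem] at h
  · have h1 : r * (lam ((g n)⁻¹ * g m) * p S) = 0 := M.kill_gen Y C _ le_rfl fun h0 =>
      h (hg (by rw [mul_smul, inv_smul_eq_iff] at h0; exact h0.symm))
    change r * star (lam (g n) * p S) * (lam (g m) * p S) * r = 0
    rw [star_mul, Y.p_star, Y.lam_star, ← mul_assoc r, Y.B_p M.mem, mul_assoc r,
      ← mul_assoc (lam _), ← map_mul, h1, zero_mul]

theorem vec : ∃ y : ℕ → H, (∀ n, r (y n) ≠ 0) ∧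
    Pairwise fun n m => inner ℂ (r (y n)) (r (y m)) = 0 := by
  obtain ⟨g, hg⟩ := M.seq Y C
  obtain ⟨y, h1, h2, h3⟩ := Y.vec S
  refine ⟨fun n => y (g n)⁻¹, fun n h => M.ne ?_, fun n m h => ?_⟩
  · have := C.fin S M.pos
    have := Fintype.ofFinite (stabilizer G S ⧸ (K S).subgroupOf (stabilizer G S))
    obtain ⟨c, hc⟩ := (mem_span_range_iff_exists_fun ℂ).1 (Y.B_span S M.mem)
    have h4 : LinearIndependent ℂ fun i : stabilizer G S ⧸ (K S).subgroupOf (stabilizer G S) =>
        lam i.out.1 (y (g n)⁻¹) := by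
      refine linearIndependent_of_ne_zero_of_inner_eq_zero (fun i h0 => h1 (g n)⁻¹ ?_)
        fun i j hij => ?_
      · have h5 := congrArg (lam i.out.1⁻¹) h0
        rw [← mul_apply_eq_comp, ← map_mul, map_zero] at h5
        simpa using h5
      · change inner ℂ (lam i.out.1 (y (g n)⁻¹)) (lam j.out.1 (y (g n)⁻¹)) = 0
        rw [Y.inner_lam]
        refine h3 _ _ _ fun k hk k' hk' h0 => hij ?_
        rw [← i.out_eq', ← j.out_eq', QuotientGroup.eq, Subgroup.mem_subgroupOf]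
        have h5 : i.out.1⁻¹ * j.out.1 = k * k'⁻¹ := by
          rw [mul_right_cancel h0, mul_inv_cancel_right]
        change i.out.1⁻¹ * j.out.1 ∈ K S
        rw [h5]
        exact mul_mem hk (inv_mem hk')
    have h5 := Fintype.linearIndependent_iff.1 h4 c (by
      rw [← hc, sum_apply] at h
      rw [← h]
      exact Finset.sum_congr rfl fun i _ => by rw [smul_apply, mul_apply_eq_comp, h2])
    rw [← hc]
    exact Finset.sum_eq_zero fun i _ => by rw [h5 i, zero_smul]
  · change inner ℂ (r (y (g n)⁻¹)) (r (y (g m)⁻¹)) = 0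
    rw [inner_op, M.st, M.idem]
    refine (span_le (p := LinearMap.ker ((innerSL ℂ (y (g n)⁻¹)).comp
      (ContinuousLinearMap.apply ℂ H (y (g m)⁻¹))).toLinearMap)).2 ?_ M.mem
    rintro _ ⟨s, hs, rfl⟩
    change inner ℂ (y (g n)⁻¹) (lam s (p S (y (g m)⁻¹))) = 0
    rw [h2]
    refine h3 _ _ _ fun k hk k' hk' h0 => h (hg ?_)
    have h5 : (g n)⁻¹ * g m ∈ stabilizer G S := by
      have h6 : (g n)⁻¹ * g m = k⁻¹ * (s * k') := by
        rw [eq_inv_mul_iff_mul_eq, ← mul_assoc, h0, inv_mul_cancel_right]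
      rw [h6]
      exact mul_mem (inv_mem (C.K_stab S hk)) (mul_mem hs (C.K_stab S hk'))
    rw [mem_stabilizer_iff, mul_smul, inv_smul_eq_iff] at h5
    exact h5.symm

end IsMin

theorem exists_min (Y : Sys lam p K) (C : Comb size sub K) (N : ℕ) :
    ∃ S r, N < size S ∧ IsMin lam p size S r := by
  obtain ⟨S, hS, k₁, a1, k₂, a2, hc, b1, b2, b3, hs⟩ := C.nz N
  have hS1 : 1 ≤ size S := by omega
  obtain ⟨e, he⟩ := exists_cusp Y C hS1
  obtain ⟨l, h1, h2⟩ := cusp_sum Y C hS1 he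
  obtain ⟨y, c1, c2, c3⟩ := Y.vec S
  have h3 : ∀ s, s ∉ K S → inner ℂ (y 1) (lam s (y 1)) = 0 := fun s hs =>
    c3 s 1 1 fun k hk k' hk' h0 => hs (by
      rw [mul_one, mul_one, ← mul_inv_eq_iff_eq_mul] at h0
      rw [← h0]
      exact mul_mem hk (inv_mem hk'))
  have h4 : (1 - lam k₁) * (1 - lam k₂) = (1 - lam k₂) * (1 - lam k₁) := by
    have := (hc.map lam).eq
    simp only [sub_mul, mul_sub, one_mul, mul_one, this]
    abel
  have h5 : ∀ T, ∀ k ∈ K T, p T * (1 - lam k) = 0 := by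
    intro T k hk
    rw [mul_sub, mul_one, Y.comm (C.K_stab T hk), Y.lam_p T k hk, sub_self]
  have h6 : ∀ k ∈ stabilizer G S, p S * (1 - lam k) = (1 - lam k) * p S := by
    intro k hk
    rw [mul_sub, sub_mul, mul_one, one_mul, Y.comm hk]
  have h7 := he.fix (((1 - lam k₁) * (1 - lam k₂)) (y 1))
    (by rw [← mul_apply_eq_comp, ← mul_assoc, h6 _ a1, mul_assoc, h6 _ a2, ← mul_assoc,
      mul_apply_eq_comp, c2])
    (fun S' h => by
      rcases hs S' h with h | h
      · rw [← mul_apply_eq_comp, ← mul_assoc, h5 _ _ h, zero_mul]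
        rfl
      · rw [h4, ← mul_apply_eq_comp, ← mul_assoc, h5 _ _ h, zero_mul]
        rfl)
  have h8 : inner ℂ (y 1) (((1 - lam k₁) * (1 - lam k₂)) (y 1)) = inner ℂ (y 1) (y 1) := by
    have h9 : (1 - lam k₁) * (1 - lam k₂) = 1 - lam k₂ - (lam k₁ - lam (k₁ * k₂)) := by
      rw [map_mul, sub_mul, one_mul, mul_sub, mul_one]
    rw [h9, sub_apply, sub_apply, sub_apply, inner_sub_right, inner_sub_right, inner_sub_right,
      h3 _ b1, h3 _ b2, h3 _ b3]
    simp
  cases l with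
  | nil =>
    rw [← h7, ← h1] at h8
    exact absurd (by simpa using h8.symm) (c1 1)
  | cons r l => exact ⟨S, r, hS, h2 r List.mem_cons_self⟩

theorem data (Y : Sys lam p K) (C : Comb size sub K) {P Q : Type} (u : P → H)
    (T : Q → H →L[ℂ] H) (hT1 : ∀ q, T q ∈ L lam p {b | size b = 0})
    (hT2 : ∀ g b, size b = 0 → lam g * p b ∈ span ℂ (Set.range T))
    (hu1 : ∀ b x, size b = 0 → p b x ∈ closure (span ℂ (Set.range u) : Set H))
    (hu2 : ∀ q, ∃ b, size b = 0 ∧ p b (u q) = u q) :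
    ∃ R, Data (L lam p Set.univ).topologicalClosure u T R := by
  have hA : ∀ {Z : Set Ty} {a}, a ∈ L lam p Z → a ∈ (L lam p Set.univ).topologicalClosure :=
    fun ha => le_topologicalClosure _ (L_mono (Set.subset_univ _) ha)
  have hcl := isClosed_topologicalClosure (L lam p Set.univ)
  have hmul : ∀ a ∈ (L lam p Set.univ).topologicalClosure,
      ∀ b ∈ (L lam p Set.univ).topologicalClosure,
      a * b ∈ (L lam p Set.univ).topologicalClosure := by
    intro a ha b hb
    have h1 := clos_mul_mem hcl 1 b (fun x hx => ?_) ha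
    · rwa [one_mul] at h1
    · have h2 := clos_mul_mem hcl x 1 (fun y hy => ?_) hb
      · rwa [mul_one, ← one_mul x] at h2
      · rw [mul_one]
        exact hA (Y.L_mul hx hy)
  have hst : ∀ a ∈ (L lam p Set.univ).topologicalClosure,
      star a ∈ (L lam p Set.univ).topologicalClosure := fun a ha =>
    closure_minimal (t := {a | star a ∈ (L lam p Set.univ).topologicalClosure})
      (fun x hx => hA (Y.L_star hx)) (hcl.preimage continuous_star) ha
  have hran : ∀ a ∈ L lam p {b | size b = 0}, ∀ x,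
      a x ∈ (span ℂ (Set.range u)).topologicalClosure ∧
      star a x ∈ (span ℂ (Set.range u)).topologicalClosure := by
    intro a ha x
    induction ha using span_induction with
    | mem a ha =>
      obtain ⟨g, b, hb, rfl⟩ := ha
      constructor
      · rw [Y.equiv]
        exact hu1 _ _ ((C.size_smul g b).trans hb)
      · rw [star_mul, Y.p_star]
        exact hu1 _ _ hb
    | zero => simp
    | add y z _ _ hy hz =>
      rw [star_add]
      exact ⟨add_mem hy.1 hz.1, add_mem hy.2 hz.2⟩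
    | smul c y _ hy =>
      rw [star_smul]
      exact ⟨smul_mem _ _ hy.1, smul_mem _ _ hy.2⟩
  refine ⟨{r | ∃ S, IsMin lam p size S r}, hcl, hmul, hst, fun q => hA (hT1 q),
    fun q x => (hran _ (hT1 q) x).1, fun q x => (hran _ (hT1 q) x).2,
    fun r ⟨S, M⟩ => hA (B_le S M.mem), fun r ⟨S, M⟩ => M.st, fun r ⟨S, M⟩ => M.idem,
    fun r ⟨S, M⟩ => M.ne, fun r ⟨S, M⟩ a ha => M.min_all Y C ha, ?_,
    fun r ⟨S, M⟩ => M.alg Y C, fun r ⟨S, M⟩ => M.vec Y C, ?_, ?_, ?_⟩
  · rintro r ⟨S, M⟩ a ha q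
    obtain ⟨b, hb, h⟩ := hu2 q
    have h1 := M.kill_low Y C (T := b) (hb.trans_lt M.pos) ha
    rw [← h]
    change (r * a * p b) (u q) = 0
    rw [h1]
    rfl
  · intro a ha
    refine closure_mono (span_le.2 ?_) ha
    rintro _ ⟨g, S, -, rfl⟩
    induction hn : size S using Nat.strong_induction_on generalizing S g with
    | _ n ih =>
    rcases Nat.eq_zero_or_pos n with h0 | h0
    · exact span_mono Set.subset_union_left (hT2 g S (hn.trans h0))
    · have hS : 1 ≤ size S := hn ▸ h0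
      obtain ⟨e, he⟩ := exists_cusp Y C hS
      obtain ⟨l, h1, h2⟩ := cusp_sum Y C hS he
      have h3 : lam g * p S = lam g * (p S - e) + (l.map fun r => lam g * id r).sum := by
        rw [List.sum_map_mul_left, List.map_id, h1, ← mul_add, sub_add_cancel]
      rw [h3]
      refine add_mem ((span_le.2 ?_) (lam_mul_mem g he.low)) (list_sum_mem fun x hx => ?_)
      · rintro _ ⟨g', S', h4, rfl⟩
        exact ih _ (hn ▸ h4) g' S' rfl
      · obtain ⟨r, hr, rfl⟩ := List.mem_map.1 hx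
        have M := h2 r hr
        refine subset_span (Or.inr ⟨r, ⟨S, M⟩, lam g * r, hA (lam_mul_mem g (B_le S M.mem)), r,
          hA (B_le S M.mem), ?_⟩)
        rw [mul_assoc, mul_assoc, M.idem, M.idem, id]
  · refine Y.dense.mono (span_mono ?_)
    rintro _ ⟨S, x, rfl⟩
    exact ⟨p S, hA (p_mem (Set.mem_univ S)), x, rfl⟩
  · choose S r h1 h2 using exists_min Y C
    let s : ℕ → ℕ := fun k => (fun N => size (S N))^[k] 0
    have hs : ∀ k, s (k + 1) = size (S (s k)) := fun k => Function.iterate_succ_apply' _ _ _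
    have hm : StrictMono s := strictMono_nat_of_lt_succ fun k => (hs k).symm ▸ h1 (s k)
    have h3 : ∀ n m, m < n → ∀ a ∈ (L lam p Set.univ).topologicalClosure,
        r (s n) * a * r (s m) = 0 := by
      intro n m h a ha
      have h4 := (h2 (s n)).kill_low Y C (T := S (s m))
        (by rw [← hs, ← hs]; exact hm (Nat.succ_lt_succ h)) ha
      rw [← Y.p_B (h2 (s m)).mem, ← mul_assoc, h4, zero_mul]
    refine ⟨fun n => r (s n), fun n => ⟨_, h2 _⟩, fun n m h a ha => ?_⟩
    rcases h.lt_or_gt with h | h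
    · have h4 := congrArg star (h3 m n h _ (hst a ha))
      rwa [star_mul, star_mul, star_star, (h2 _).st, (h2 _).st, star_zero, ← mul_assoc] at h4
    · exact h3 n m h a ha

end Pool.Agent.Lib.MP_9a581e_an.Grp
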