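import Pool.Agent.Lib.MP_9a581e_an.An88

/-! The depth zero part: a group acting on a set with compact open stabilisers. The Gram matrix of
the vectors `1_{t x = y}` and the matrix coefficients of the operators `λ(g) p_a` only depend on
the orbits on pairs. -/

set_option autoImplicit false
set_option linter.unusedSectionVars false

noncomputable section

namespace Pool.Agent.Lib.MP_9a581e_an.J78

open MeasureTheory MulAction An88 Submodule
open scoped Pointwise

section One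

variable (G : Type) [Group G] {E : Type} [MulAction G E]

/-- the elements moving `x` to `y` -/
def S (x y : E) : Set G := {t | t • x = y}

/-- the possible images of `y` under the elements moving `a` to `b` -/
def Orb (a b y : E) : Set E := {w | ∃ h : G, h • a = b ∧ h • y = w}

variable {G}

lemma smul_S (g : G) (x y : E) : g • S G x y = S G x (g • y) := by
  ext t
  rw [Set.mem_smul_set_iff_inv_smul_mem]
  change (g⁻¹ * t) • x = y ↔ t • x = g • y
  rw [mul_smul, inv_smul_eq_iff]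

lemma S_self (x : E) : S G x x = (stabilizer G x : Set G) := rfl

variable [TopologicalSpace G] [IsTopologicalGroup G] [MeasurableSpace G] [BorelSpace G]
  (μ : Measure G) [μ.IsHaarMeasure]

lemma co_empty : CO (∅ : Set G) := ⟨isOpen_empty, isCompact_empty⟩

lemma co_biUnion {ι : Type} (s : Finset ι) {f : ι → Set G} (hf : ∀ i, CO (f i)) :
    CO (⋃ i ∈ s, f i) :=
  ⟨isOpen_biUnion fun i _ => (hf i).1, s.isCompact_biUnion fun i _ => (hf i).2⟩

lemma ind_biUnion {ι : Type} (s : Finset ι) {f : ι → Set G} (hf : ∀ i, CO (f i))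
    (hd : Pairwise fun i j => Disjoint (f i) (f j)) :
    ind μ (⋃ i ∈ s, f i) = ∑ i ∈ s, ind μ (f i) := by
  classical
  induction s using Finset.induction_on with
  | empty => simpa using indp_empty μ 2
  | insert a s ha ih =>
    rw [Finset.set_biUnion_insert, Finset.sum_insert ha, ← ih]
    refine indp_union μ 2 (hf a) (co_biUnion s hf) ?_
    exact Set.disjoint_iUnion₂_right.2 fun i hi => hd fun e => ha (e ▸ hi)

variable (hE : ∀ x : E, CO (stabilizer G x : Set G))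
include hE

lemma co_S (x y : E) : CO (S G x y) := by
  by_cases h : ∃ g : G, g • x = y
  · obtain ⟨g, rfl⟩ := h
    rw [← smul_S]
    exact (hE x).smul g
  · have : S G x y = ∅ := Set.eq_empty_of_forall_notMem fun t ht => h ⟨t, ht⟩
    rw [this]
    exact co_empty

lemma closed_S (x y : E) : IsClosed (S G x y) := by
  rw [← isOpen_compl_iff]
  have : (S G x y)ᶜ = ⋃ z : {z : E // z ≠ y}, S G x z.1 := by
    ext t
    simp only [Set.mem_compl_iff, Set.mem_iUnion]
    exact ⟨fun h => ⟨⟨t • x, h⟩, rfl⟩, fun ⟨z, hz⟩ h => z.2 (hz.symm.trans h)⟩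
  rw [this]
  exact isOpen_iUnion fun z => (co_S hE x z.1).1

lemma co_inter (x y x' y' : E) : CO (S G x y ∩ S G x' y') :=
  ⟨(co_S hE x y).1.inter (co_S hE x' y').1, (co_S hE x y).2.inter_right (closed_S hE x' y')⟩

lemma finite_orb (a b y : E) : (Orb G a b y).Finite := by
  obtain ⟨t, ht⟩ := (co_S hE a b).2.elim_finite_subcover (fun w => S G y w)
    (fun w => (co_S hE y w).1) (fun h _ => Set.mem_iUnion.2 ⟨h • y, rfl⟩)
  refine t.finite_toSet.subset ?_
  rintro w ⟨h, h1, rfl⟩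
  obtain ⟨w, hw, h2⟩ := Set.mem_iUnion₂.1 (ht h1)
  exact (show h • y = w from h2) ▸ hw

/-- the indicator function of the set of elements moving `x` to `y` -/
def v (x y : E) : H μ := ind μ (S G x y)

lemma lam_v (g : G) (x y : E) : lam μ g (v μ x y) = v μ x (g • y) := by
  rw [v, lam_ind μ g (co_S hE x y), smul_S, v]

/-- measure of the common stabiliser -/
def m (x x' : E) : ℝ := μ.real (S G x x ∩ S G x' x')

omit hE in
lemma m_comm (x x' : E) : m μ x x' = m μ x' x := by rw [m, m, Set.inter_comm]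

lemma m_pos (x x' : E) : 0 < m μ x x' :=
  (co_inter hE x x x' x').pos μ ⟨1, one_smul _ _, one_smul _ _⟩

omit hE in
lemma real_inter {x x' y y' : E} (h : y' ∈ Orb G x y x') :
    μ.real (S G x y ∩ S G x' y') = m μ x x' := by
  obtain ⟨g, rfl, rfl⟩ := h
  rw [← smul_S, ← smul_S, ← Set.smul_set_inter, m, Measure.real, Measure.real, measure_smul]

open Classical in
lemma inner_v (x y x' y' : E) :
    inner ℂ (v μ x y) (v μ x' y') = if y' ∈ Orb G x y x' then (m μ x x' : ℂ) else 0 := by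
  rw [v, v, inner_ind μ (co_S hE x y) (co_S hE x' y')]
  split_ifs with h
  · rw [real_inter μ h]
  · have : S G x y ∩ S G x' y' = ∅ := Set.eq_empty_of_forall_notMem fun t ht => h ⟨t, ht.1, ht.2⟩
    simp [this]

lemma m_eq (x x' : E) : m μ x x = (Orb G x x x').ncard * m μ x x' := by
  have hf := finite_orb hE x x x'
  have h1 : S G x x ∩ S G x x = ⋃ z ∈ hf.toFinset, (S G x x ∩ S G x' z) := by
    ext t
    simp only [Set.inter_self, Set.mem_iUnion, Set.Finite.mem_toFinset, Set.mem_inter_iff]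
    exact ⟨fun h => ⟨t • x', ⟨t, h, rfl⟩, h, rfl⟩, fun ⟨_, _, h, _⟩ => h⟩
  rw [m, h1, measureReal_biUnion_finset
    (fun z _ w _ hzw => Set.disjoint_left.2 fun t h1 h2 => hzw (h1.2.symm.trans h2.2))
    (fun z _ => (co_inter hE x x x' z).meas) (fun z _ => (co_inter hE x x x' z).fin μ),
    Finset.sum_congr rfl fun z hz => real_inter μ (hf.mem_toFinset.1 hz), Finset.sum_const,
    Set.ncard_eq_toFinset_card _ hf, nsmul_eq_mul]

lemma ncard_pos (x x' : E) : (0 : ℝ) < (Orb G x x x').ncard :=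
  Nat.cast_pos.2 ((Set.ncard_pos (finite_orb hE x x x')).2 ⟨x', 1, one_smul _ _, one_smul _ _⟩)

lemma m_div (x0 x x' : E) : m μ x x' / m μ x0 x0 =
    (Orb G x x x0).ncard / ((Orb G x0 x0 x).ncard * (Orb G x x x').ncard) := by
  have h1 := m_eq μ hE x x'
  have h2 := m_eq μ hE x x0
  have h3 := m_eq μ hE x0 x
  rw [m_comm μ x0 x] at h3
  have := m_pos μ hE x x0
  have := ncard_pos hE x x'
  have := ncard_pos hE x0 x
  rw [h3, div_eq_div_iff (by positivity) (by positivity)]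
  linear_combination ((Orb G x0 x0 x).ncard : ℝ) * (h2 - h1)

/-- the normalised vectors -/
def u (x0 : E) (p : E × E) : H μ := (((√(m μ x0 x0))⁻¹ : ℝ) : ℂ) • v μ p.1 p.2

open Classical in
/-- the operator `λ(g) p_a` with `g a = b` -/
def T (q : E × E) : H μ →L[ℂ] H μ :=
  if h : ∃ g : G, g • q.1 = q.2 then lam μ h.choose * pr μ (stabilizer G q.1) else 0

omit hE in
lemma T_eq (g : G) (a : E) : T μ (a, g • a) = lam μ g * pr μ (stabilizer G a) := by
  have h : ∃ k : G, k • a = g • a := ⟨g, rfl⟩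
  have h1 : g⁻¹ * h.choose ∈ stabilizer G a := by
    rw [mem_stabilizer_iff, mul_smul, h.choose_spec, inv_smul_smul]
  rw [T, dif_pos h]
  conv_rhs => rw [← lam_pr μ h1, ← mul_assoc, ← lam_mul, mul_inv_cancel_left]

omit hE in
lemma T_cases (q : E × E) :
    T μ q = 0 ∨ ∃ g : G, g • q.1 = q.2 ∧ T μ q = lam μ g * pr μ (stabilizer G q.1) := by
  by_cases h : ∃ g : G, g • q.1 = q.2
  · exact Or.inr ⟨_, h.choose_spec, dif_pos h⟩
  · exact Or.inl (dif_neg h)

lemma T_v (a b x y : E) (s : Finset E) (hs : (s : Set E) = Orb G a b y) :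
    T μ (a, b) (v μ x y) = (s.card : ℂ)⁻¹ • ∑ w ∈ s, v μ x w := by
  by_cases h : ∃ g : G, g • a = b
  · obtain ⟨g, rfl⟩ := h
    have h1 : ∀ w : s, ∃ h : G, h • a = g • a ∧ h • y = w := fun w =>
      show w.1 ∈ Orb G a (g • a) y from hs ▸ w.2
    choose r r1 r2 using h1
    have h2 : Trans (stabilizer G a) (stabilizer G y) fun w => g⁻¹ * r w := by
      refine ⟨fun w => ?_, fun k hk => ?_⟩
      · rw [mem_stabilizer_iff, mul_smul, r1, inv_smul_smul]
      · have key : ∀ w : s, (g⁻¹ * r w)⁻¹ * k ∈ stabilizer G y ↔ (g * k) • y = w := by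
          intro w
          rw [mem_stabilizer_iff, mul_smul, inv_smul_eq_iff, mul_smul, r2, eq_inv_smul_iff, mul_smul]
        have h3 : (g * k) • y ∈ (s : Set E) := by
          rw [hs]
          exact ⟨g * k, by rw [mul_smul, mem_stabilizer_iff.1 hk], rfl⟩
        exact ⟨⟨_, h3⟩, (key _).2 rfl, fun w hw => Subtype.ext ((key w).1 hw).symm⟩
    have h4 := pr_avg_vec μ h2 (ξ := v μ x y) fun k hk => by
      rw [lam_v μ hE, mem_stabilizer_iff.1 hk]
    rw [T_eq, mul_apply_eq_comp, h4, map_smul, map_sum, Fintype.card_coe,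
      ← Finset.sum_coe_sort s]
    congr 1
    refine Finset.sum_congr rfl fun w _ => ?_
    rw [lam_lam, mul_inv_cancel_left, lam_v μ hE, r2]
  · have : s = ∅ := Finset.eq_empty_of_forall_notMem fun w hw => by
      obtain ⟨g, h1, -⟩ : w ∈ Orb G a b y := hs ▸ hw
      exact h ⟨g, h1⟩
    rw [T, dif_neg h, this]
    simp

open Classical in
lemma inner_u (x0 : E) (p q : E × E) : inner ℂ (u μ x0 p) (u μ x0 q) =
    if q.2 ∈ Orb G p.1 p.2 q.1 then ((m μ p.1 q.1 / m μ x0 x0 : ℝ) : ℂ) else 0 := by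
  have h0 := m_pos μ hE x0 x0
  rw [u, u, inner_smul_left, inner_smul_right,
    inner_v μ hE, Complex.conj_ofReal]
  split_ifs
  · rw [← Complex.ofReal_mul, ← Complex.ofReal_mul, ← mul_assoc, ← mul_inv,
      Real.mul_self_sqrt h0.le, div_eq_inv_mul]
  · simp

lemma T_u (x0 a b x y : E) (s : Finset E) (hs : (s : Set E) = Orb G a b y) :
    T μ (a, b) (u μ x0 (x, y)) = (s.card : ℂ)⁻¹ • ∑ w ∈ s, u μ x0 (x, w) := by
  simp only [u]
  rw [map_smul, T_v μ hE a b x y s hs, ← Finset.smul_sum, smul_comm]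

lemma lam_u (x0 : E) (g : G) (x y : E) : lam μ g (u μ x0 (x, y)) = u μ x0 (x, g • y) := by
  simp only [u]
  rw [map_smul, lam_v μ hE]

lemma pr_u (x0 : E) (p : E × E) : pr μ (stabilizer G p.2) (u μ x0 p) = u μ x0 p :=
  (pr_eq μ).2 fun k hk => by rw [lam_u μ hE x0 k p.1 p.2, mem_stabilizer_iff.1 hk]

lemma v_mem (x0 x y : E) : v μ x y ∈ span ℂ (Set.range (u μ x0)) := by
  have h0 : √(m μ x0 x0) ≠ 0 := (Real.sqrt_pos.2 (m_pos μ hE x0 x0)).ne'
  have : v μ x y = ((√(m μ x0 x0) : ℝ) : ℂ) • u μ x0 (x, y) := by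
    rw [u, smul_smul, ← Complex.ofReal_mul, mul_inv_cancel₀ h0, Complex.ofReal_one, one_smul]
  rw [this]
  exact smul_mem _ _ (subset_span ⟨_, rfl⟩)

/-- a compact open set that is left invariant under the stabiliser of `a` -/
lemma ind_mem (x0 a : E) {W : Set G} (hW : CO W) (h : ∀ k ∈ stabilizer G a, ∀ t ∈ W, k * t ∈ W) :
    ind μ W ∈ span ℂ (Set.range (u μ x0)) := by
  classical
  obtain ⟨s, hs⟩ := hW.2.elim_finite_subcover (fun x => S G x a) (fun x => (co_S hE x a).1)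
    (fun t _ => Set.mem_iUnion.2 ⟨t⁻¹ • a, smul_inv_smul t a⟩)
  have h1 : W = ⋃ x ∈ s.filter fun x => (W ∩ S G x a).Nonempty, S G x a := by
    ext t
    simp only [Set.mem_iUnion, Finset.mem_filter]
    constructor
    · intro ht
      obtain ⟨x, hx, h2⟩ := Set.mem_iUnion₂.1 (hs ht)
      exact ⟨x, ⟨hx, t, ht, h2⟩, h2⟩
    · rintro ⟨x, ⟨-, t', h2, h3⟩, h4⟩
      have h5 : t * t'⁻¹ ∈ stabilizer G a := by
        rw [mem_stabilizer_iff, mul_smul, inv_smul_eq_iff.2 (show a = t' • x from h3.symm)]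
        exact h4
      simpa using h _ h5 _ h2
  rw [h1, ind_biUnion μ _ (fun x => co_S hE x a)]
  · exact sum_mem fun x _ => v_mem μ hE x0 x a
  · intro x y hxy
    exact Set.disjoint_left.2 fun t h1 h2 =>
      hxy (MulAction.injective t ((show t • x = a from h1).trans (show t • y = a from h2).symm))

lemma pr_ind_mem (x0 a : E) (g : G) {L : Subgroup G} (hL : CO (L : Set G)) :
    pr μ (stabilizer G a) (ind μ (g • (L : Set G))) ∈ span ℂ (Set.range (u μ x0)) := by
  let L' : Subgroup G := L.comap (MulAut.conj g⁻¹).toMonoidHom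
  have hm : ∀ k, k ∈ L' ↔ g⁻¹ * k * g ∈ L := fun k => by simp [L']
  have ho : IsOpen (L' : Set G) :=
    hL.1.preimage (f := fun k => g⁻¹ * k * g⁻¹⁻¹) (by fun_prop)
  obtain ⟨n, r, hr⟩ := exists_trans (hE a).2 ho
  have hc : ∀ (k t : G), t ∈ k • g • (L : Set G) ↔ g⁻¹ * (k⁻¹ * t) ∈ L := fun k t => by
    rw [Set.mem_smul_set_iff_inv_smul_mem, Set.mem_smul_set_iff_inv_smul_mem]
    rfl
  have h1 := pr_avg_vec μ hr (ξ := ind μ (g • (L : Set G))) fun k hk => by
    rw [lam_ind μ k (hL.smul g)]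
    congr 1
    ext t
    rw [hc, Set.mem_smul_set_iff_inv_smul_mem]
    change _ ↔ g⁻¹ * t ∈ L
    rw [← L.mul_mem_cancel_left ((hm k).1 hk)]
    simp [mul_assoc]
  rw [h1]
  refine smul_mem _ _ ?_
  rw [Finset.sum_congr rfl fun i _ => lam_ind μ (r i) (hL.smul g),
    ← ind_biUnion μ _ fun i => (hL.smul g).smul (r i)]
  · refine ind_mem μ hE x0 a (co_biUnion _ fun i => (hL.smul g).smul (r i)) fun k hk t ht => ?_
    obtain ⟨i, -, hi⟩ := Set.mem_iUnion₂.1 ht
    obtain ⟨j, hj, -⟩ := hr.2 (k * r i) (mul_mem hk (hr.1 i))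
    refine Set.mem_iUnion₂.2 ⟨j, Finset.mem_univ _, (hc _ _).2 ?_⟩
    have := L.mul_mem ((hm _).1 hj) ((hc _ _).1 hi)
    simpa [mul_assoc] using this
  · intro i j hij
    refine Set.disjoint_left.2 fun t h1 h2 => hij ?_
    refine (hr.2 (r j) (hr.1 j)).unique ((hm _).2 ?_) (by simp)
    have := L.mul_mem ((hc _ _).1 h1) (L.inv_mem ((hc _ _).1 h2))
    simpa [mul_assoc] using this

/-- the vectors fixed by the stabiliser of `a` lie in the closed span of the `u` -/
theorem pr_ran (hd : Dense (span ℂ {ξ : H μ | ∃ (g : G) (L : Subgroup G), CO (L : Set G) ∧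
      ξ = ind μ (g • (L : Set G))} : Set (H μ))) (x0 a : E) (ξ : H μ) :
    pr μ (stabilizer G a) ξ ∈ closure (span ℂ (Set.range (u μ x0)) : Set (H μ)) := by
  refine map_mem_closure (pr μ (stabilizer G a)).continuous (hd ξ) fun η hη => ?_
  refine (span_le (p := (span ℂ (Set.range (u μ x0))).comap
    (pr μ (stabilizer G a) : H μ →ₗ[ℂ] H μ))).2 ?_ hη
  rintro _ ⟨g, L, hL, rfl⟩
  exact pr_ind_mem μ hE x0 a g hL

lemma lam_ran (x0 : E) (g : G) {ξ : H μ}
    (h : ξ ∈ closure (span ℂ (Set.range (u μ x0)) : Set (H μ))) :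
    lam μ g ξ ∈ closure (span ℂ (Set.range (u μ x0)) : Set (H μ)) := by
  refine map_mem_closure (lam μ g).continuous h fun η hη => ?_
  refine (span_le (p := (span ℂ (Set.range (u μ x0))).comap (lam μ g : H μ →ₗ[ℂ] H μ))).2 ?_ hη
  rintro _ ⟨⟨x, y⟩, rfl⟩
  exact subset_span ⟨(x, g • y), (lam_u μ hE x0 g x y).symm⟩

theorem T_ran (hd : Dense (span ℂ {ξ : H μ | ∃ (g : G) (L : Subgroup G), CO (L : Set G) ∧
      ξ = ind μ (g • (L : Set G))} : Set (H μ))) (x0 : E) (q : E × E) (ξ : H μ) :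
    T μ q ξ ∈ closure (span ℂ (Set.range (u μ x0)) : Set (H μ)) := by
  rcases T_cases μ q with h | ⟨g, -, h⟩
  · rw [h]
    exact subset_closure (zero_mem (span ℂ _))
  · rw [h]
    exact lam_ran μ hE x0 g (pr_ran μ hE hd x0 q.1 ξ)

theorem T_star_ran (hd : Dense (span ℂ {ξ : H μ | ∃ (g : G) (L : Subgroup G), CO (L : Set G) ∧
      ξ = ind μ (g • (L : Set G))} : Set (H μ))) (x0 : E) (q : E × E) (ξ : H μ) :
    star (T μ q) ξ ∈ closure (span ℂ (Set.range (u μ x0)) : Set (H μ)) := by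
  rcases T_cases μ q with h | ⟨g, -, h⟩
  · rw [h, star_zero]
    exact subset_closure (zero_mem (span ℂ _))
  · rw [h, star_mul, star_pr]
    exact pr_ran μ hE hd x0 q.1 _

end One

section Two

variable {G₁ G₂ E : Type} [Group G₁] [MulAction G₁ E] [Group G₂] [MulAction G₂ E]
  [TopologicalSpace G₁] [IsTopologicalGroup G₁] [MeasurableSpace G₁] [BorelSpace G₁]
  (μ₁ : Measure G₁) [μ₁.IsHaarMeasure]
  [TopologicalSpace G₂] [IsTopologicalGroup G₂] [MeasurableSpace G₂] [BorelSpace G₂]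
  (μ₂ : Measure G₂) [μ₂.IsHaarMeasure]
  (h₁ : ∀ x : E, CO (stabilizer G₁ x : Set G₁)) (h₂ : ∀ x : E, CO (stabilizer G₂ x : Set G₂))
  (hR : ∀ a b y : E, Orb G₁ a b y = Orb G₂ a b y)
include h₁ h₂ hR

theorem gram_eq (x0 : E) (p q : E × E) :
    inner ℂ (u μ₁ x0 p) (u μ₁ x0 q) = inner ℂ (u μ₂ x0 p) (u μ₂ x0 q) := by
  rw [inner_u μ₁ h₁, inner_u μ₂ h₂, m_div μ₁ h₁, m_div μ₂ h₂, hR, hR, hR, hR]

theorem coeff_eq (x0 : E) (p b q : E × E) :
    inner ℂ (u μ₁ x0 p) (T μ₁ b (u μ₁ x0 q)) = inner ℂ (u μ₂ x0 p) (T μ₂ b (u μ₂ x0 q)) := by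
  have hf := finite_orb h₁ b.1 b.2 q.2
  rw [T_u μ₁ h₁ x0 b.1 b.2 q.1 q.2 hf.toFinset hf.coe_toFinset,
    T_u μ₂ h₂ x0 b.1 b.2 q.1 q.2 hf.toFinset (hf.coe_toFinset.trans (hR _ _ _)),
    inner_smul_right, inner_smul_right, inner_sum, inner_sum]
  simp only [gram_eq μ₁ μ₂ h₁ h₂ hR]

end Two

end Pool.Agent.Lib.MP_9a581e_an.J78
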