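import Pool.Agent.Lib.MP_9a581e_an.An88b
import Pool.Agent.Lib.MP_9a581e_an.Grp38Defs

/-! The regular representation satisfies the analytic axioms `Grp.Sys`. -/

set_option autoImplicit false
set_option linter.unusedSectionVars false

noncomputable section

namespace Pool.Agent.Lib.MP_9a581e_an.Sys86

open MeasureTheory An88
open scoped Pointwise

variable {G : Type} [Group G] [TopologicalSpace G] [IsTopologicalGroup G] [MeasurableSpace G]
  [BorelSpace G] (μ : Measure G) [μ.IsHaarMeasure]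

/-- the left regular representation as a monoid homomorphism -/
def lamHom : G →* (H μ →L[ℂ] H μ) where
  toFun := lam μ
  map_one' := lam_one μ
  map_mul' := lam_mul μ

@[simp] lemma lamHom_apply (g : G) : lamHom μ g = lam μ g := rfl

/-- the right coset `K g` -/
def rc (K : Subgroup G) (g : G) : Set G := {t | t * g⁻¹ ∈ K}

lemma co_rc {K : Subgroup G} (hK : CO (K : Set G)) (g : G) : CO (rc K g) :=
  ⟨hK.1.preimage (continuous_mul_const _), (Homeomorph.mulRight g⁻¹).isCompact_preimage.2 hK.2⟩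

lemma smul_rc {K : Subgroup G} (g : G) {u : G} (hu : u ∈ K) : u • rc K g = rc K g := by
  ext x
  rw [Set.mem_smul_set_iff_inv_smul_mem, smul_eq_mul, rc, Set.mem_ofPred_eq, mul_assoc]
  exact K.mul_mem_cancel_left (K.inv_mem hu)

lemma exists_y {K : Subgroup G} (hK : CO (K : Set G)) : ∃ y : G → H μ, (∀ g, y g ≠ 0) ∧
    (∀ g, pr μ K (y g) = y g) ∧ ∀ g h s, (∀ k ∈ K, ∀ k' ∈ K, k * g ≠ s * k' * h) →
      inner ℂ (y g) (lam μ s (y h)) = 0 := by
  refine ⟨fun g => ind μ (rc K g), fun g => ind_ne μ (co_rc hK g) ⟨g, by simp [rc]⟩,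
    fun g => pr_ind μ (co_rc hK g) fun u hu => smul_rc g hu, fun g h s hs => ?_⟩
  rw [lam_ind μ s (co_rc hK h), inner_ind μ (co_rc hK g) ((co_rc hK h).smul s)]
  have : rc K g ∩ s • rc K h = ∅ := Set.eq_empty_of_forall_notMem fun t ht =>
    hs (t * g⁻¹) ht.1 (s⁻¹ * t * h⁻¹)
      (Set.mem_smul_set_iff_inv_smul_mem (A := rc K h).1 ht.2) (by simp [mul_assoc])
  simp [this]

lemma pr_pr_span {K L : Subgroup G} (hK : CO (K : Set G)) (hL : CO (L : Set G)) :
    pr μ K * pr μ L ∈ Submodule.span ℂ {a | ∃ k ∈ K, a = lam μ k * pr μ L} := by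
  obtain ⟨n, r, h⟩ := exists_trans hK.2 hL.1
  rw [pr_pr_avg μ h]
  exact Submodule.smul_mem _ _ (Submodule.sum_mem _ fun i _ =>
    Submodule.subset_span ⟨r i, h.1 i, rfl⟩)

lemma pr_ind_smul {K L : Subgroup G} (hK : CO (K : Set G)) {g : G}
    (h : ∀ u, u ∈ L ↔ g⁻¹ * u * g ∈ K) : pr μ L (ind μ (g • (K : Set G))) = ind μ (g • (K : Set G)) :=
  pr_ind μ (hK.smul g) fun u hu => by
    rw [← mul_smul, show u * g = g * (g⁻¹ * u * g) by group, mul_smul, smul_self ((h u).1 hu)]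

theorem sys_of_dense {Ty : Type} [MulAction G Ty] (K : Ty → Subgroup G)
    (hK : ∀ S, CO (K S : Set G)) (hc : ∀ (g : G) S u, u ∈ K (g • S) ↔ g⁻¹ * u * g ∈ K S)
    (hd : Dense (Submodule.span ℂ {y | ∃ (g : G) (S : Ty), y = ind μ (g • (K S : Set G))} :
      Set (H μ))) :
    Grp.Sys (lamHom μ) (fun S => pr μ (K S)) K where
  lam_star := star_lam μ
  p_star _ := star_pr μ _
  p_idem _ := pr_pr μ _
  lam_p _ _ := lam_pr μ
  fix _ _ := (pr_eq μ).2
  equiv g T := lam_pr_conj μ (hc g T)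
  avg S T := pr_pr_span μ (hK S) (hK T)
  dense := hd.mono (Submodule.span_mono (by
    rintro _ ⟨g, S, rfl⟩
    exact ⟨g • S, _, (pr_ind_smul μ (hK S) (hc g S)).symm⟩))
  vec T := by
    obtain ⟨y, h1, h2, h3⟩ := exists_y μ (hK T)
    exact ⟨y, h1, h2, fun s g h => h3 g h s⟩

variable [SecondCountableTopology G] [LocallyCompactSpace G] {Ty : Type} [MulAction G Ty]
  {K : Ty → Subgroup G}

theorem sys (hB : Bas K) (hc : ∀ (g : G) S u, u ∈ K (g • S) ↔ g⁻¹ * u * g ∈ K S) :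
    Grp.Sys (lamHom μ) (fun S => pr μ (K S)) K :=
  sys_of_dense μ K hB.1 hc ((Submodule.dense_iff_topologicalClosure_eq_top.2 (dense_ind μ hB)).mono
    (Submodule.span_mono (by rintro _ ⟨x, rfl⟩; exact ⟨x.1, x.2, rfl⟩)))

omit [MulAction G Ty] in
/-- the reduced C*-algebra is the closure of the span of the `lam g * p T` -/
theorem cstar_L (hB : Bas K) : CstarRed μ =
    ((Grp.L (lamHom μ) (fun S => pr μ (K S)) Set.univ).topologicalClosure :
      Set (H μ →L[ℂ] H μ)) := by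
  rw [cstar_eq μ hB, Submodule.topologicalClosure_coe, Grp.L]
  congr 3
  ext a
  simp [eq_comm]

end Pool.Agent.Lib.MP_9a581e_an.Sys86
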