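import Pool.Agent.Lib.MP_9a581e_an.J78
import Pool.Agent.Lib.MP_9a581e_an.Sys86
import Pool.Agent.Lib.MP_9a581e_an.Grp38
import Pool.Agent.Lib.MP_9a581e_an.Comb20

/-! The depth zero part for Burger-Mozes groups, and the isomorphism of the reduced algebras. -/

set_option autoImplicit false
set_option linter.unusedSectionVars false

noncomputable section

namespace Pool.Agent.Lib.MP_9a581e_an.J78

open MeasureTheory MulAction An88 Submodule T20
open scoped Pointwise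

variable {d : ℕ} {T : LegalTree d}

lemma KT_dart (F : Subgroup (Equiv.Perm (Fin d))) (x : Dart T) :
    KT F (Ty.dart x) = stabilizer (U T F) x := Subgroup.ext fun _ => mem_KT_dart

lemma orb_subset {F₁ F₂ : Subgroup (Equiv.Perm (Fin d))}
    (h : ∀ σ ∈ F₁, ∀ i j, ∃ τ ∈ F₂, τ i = σ i ∧ τ j = σ j) (a b y : Dart T) :
    Orb (U T F₁) a b y ⊆ Orb (U T F₂) a b y := by
  rintro _ ⟨g, rfl, rfl⟩
  obtain ⟨v, k, rfl⟩ := exists_mkDart a
  obtain ⟨w, l, rfl⟩ := exists_mkDart y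
  obtain ⟨g', h1, h2, h3, h4⟩ := orb T h g v k w l
  exact ⟨g', Subtype.ext (Prod.ext h1 h2), Subtype.ext (Prod.ext h3 h4)⟩

section

variable {F : Subgroup (Equiv.Perm (Fin d))} (μ : Measure (U T F)) [μ.IsHaarMeasure]
  [SecondCountableTopology (U T F)] [LocallyCompactSpace (U T F)] (hB : Bas (KT (T := T) F))
include hB

lemma co_stab (x : Dart T) : CO (stabilizer (U T F) x : Set (U T F)) := KT_dart F x ▸ hB.1 _

theorem data {τ : Equiv.Perm (Fin d)} (hτ : τ ∈ F) (h1 : τ ≠ 1) {i : Fin d} (hi : τ i = i)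
    (x0 : Dart T) : ∃ R, Cusp.Data (Grp.L (Sys86.lamHom μ) (fun S : Ty T => pr μ (KT F S))
      Set.univ).topologicalClosure (u μ x0) (J78.T (E := Dart T) μ) R := by
  have hd : Dense (span ℂ {ξ : H μ | ∃ (g : U T F) (L : Subgroup (U T F)), CO (L : Set (U T F)) ∧
      ξ = ind μ (g • (L : Set (U T F)))} : Set (H μ)) :=
    (dense_iff_topologicalClosure_eq_top.2 (dense_ind μ hB)).mono
      (span_mono (by rintro _ ⟨x, rfl⟩; exact ⟨x.1, _, hB.1 x.2, rfl⟩))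
  refine Grp.data (Sys86.sys μ hB fun g S k => mem_KT_smul g k S) (comb hτ h1 hi) _ _
    (fun q => ?_) (fun g b hb => ?_) (fun b ξ hb => ?_) fun q => ?_
  · rcases T_cases μ q with h | ⟨g, -, h⟩
    · rw [h]
      exact zero_mem _
    · rw [h, ← KT_dart]
      exact subset_span ⟨g, Ty.dart q.1, size_dart _, rfl⟩
  · obtain ⟨x, rfl⟩ := size_eq_zero.1 hb
    refine subset_span ⟨(x, g • x), ?_⟩
    rw [T_eq, ← KT_dart]
    rfl
  · obtain ⟨x, rfl⟩ := size_eq_zero.1 hb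
    simp only [KT_dart]
    exact pr_ran μ (co_stab hB) hd x0 x ξ
  · refine ⟨Ty.dart q.2, size_dart _, ?_⟩
    simp only [KT_dart]
    exact pr_u μ (co_stab hB) x0 q

end

/-- the reduced algebra only depends on the orbits of the local group on ordered pairs -/
theorem iso {F₁ F₂ : Subgroup (Equiv.Perm (Fin d))}
    (μ₁ : Measure (U T F₁)) [μ₁.IsHaarMeasure] (μ₂ : Measure (U T F₂)) [μ₂.IsHaarMeasure]
    [SecondCountableTopology (U T F₁)] [SecondCountableTopology (U T F₂)]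
    (hB₁ : Bas (KT (T := T) F₁)) (hB₂ : Bas (KT (T := T) F₂))
    (h₁₂ : ∀ σ ∈ F₁, ∀ i j, ∃ τ ∈ F₂, τ i = σ i ∧ τ j = σ j)
    (h₂₁ : ∀ σ ∈ F₂, ∀ i j, ∃ τ ∈ F₁, τ i = σ i ∧ τ j = σ j)
    {τ : Equiv.Perm (Fin d)} (hτ : τ ∈ F₁) (h1 : τ ≠ 1) {i : Fin d} (hi : τ i = i) :
    CstarRedIso μ₁ μ₂ := by
  have := locallyCompact T F₁
  have := locallyCompact T F₂
  obtain ⟨j, hj⟩ : ∃ j, τ j ≠ j := by
    by_contra h
    exact h1 (Equiv.ext fun j => not_not.1 fun hj => h ⟨j, hj⟩)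
  obtain ⟨τ', hτ', e1, e2⟩ := h₁₂ τ hτ i j
  obtain ⟨v⟩ := T.isTree.connected.nonempty
  obtain ⟨R₁, D₁⟩ := data μ₁ hB₁ hτ h1 hi (mkDart v i)
  obtain ⟨R₂, D₂⟩ := data μ₂ hB₂ hτ' (fun e => hj (by rw [← e2, e]; rfl)) (e1.trans hi) (mkDart v i)
  have hR : ∀ a b y : Dart T, Orb (U T F₁) a b y = Orb (U T F₂) a b y := fun a b y =>
    (orb_subset h₁₂ a b y).antisymm (orb_subset h₂₁ a b y)
  have := separable μ₁
  have := separable μ₂
  rw [CstarRedIso, Sys86.cstar_L μ₁ hB₁, Sys86.cstar_L μ₂ hB₂]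
  exact Cusp.abstract_iso D₁ D₂ (gram_eq μ₁ μ₂ (co_stab hB₁) (co_stab hB₂) hR _)
    (coeff_eq μ₁ μ₂ (co_stab hB₁) (co_stab hB₂) hR _)

end Pool.Agent.Lib.MP_9a581e_an.J78
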