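import Mathlib
import Pool.Agent.Lib.MP_9a581e_an.Tree20

set_option autoImplicit false

namespace Pool.Agent.Lib.MP_9a581e_an.T20

open Pool.Agent.Lib.MP_9a581e_an MeasureTheory

variable {d : ℕ}

lemma exists_map₂ (T T' : LegalTree d) (v : T.V) (v' : T'.V) :
    ∃ f : T.V → T'.V, f v = v' ∧ ∀ u i, f (T.s i u) = T'.s i (f u) := by
  classical
  let dir : (u : T.V) → v ≠ u → Fin d := fun u h => (half_exists T h).choose
  have hdir : ∀ u h, v ∈ half T u (dir u h) := fun u h => (half_exists T h).choose_spec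
  let φ : ℕ → T.V → T'.V := fun n => Nat.rec (fun _ => v')
    (fun _ ih u => if h : v ≠ u then T'.s (dir u h) (ih (T.s (dir u h) u)) else v') n
  have key : ∀ u i, v ∈ half T u i →
      φ (T.G.dist v u) u = T'.s i (φ (T.G.dist v (T.s i u)) (T.s i u)) := by
    intro u i h
    have hne : v ≠ u := fun e => self_not_mem T u i (e ▸ h)
    rw [dist_of_mem T h]
    change (if h : v ≠ u then T'.s (dir u h) (φ _ (T.s (dir u h) u)) else v') = _
    rw [dif_pos hne, half_uniq T (hdir u hne) h]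
  refine ⟨fun u => φ (T.G.dist v u) u, by simp [φ], fun u i => ?_⟩
  by_cases h : v ∈ half T u i
  · simp only [key u i h, s_s]
  · have := key _ i ((not_mem_half_iff T).1 h)
    rw [s_s] at this
    exact this

/-- any two legally coloured trees of the same degree are colour isomorphic -/
theorem exists_equiv (T T' : LegalTree d) :
    ∃ e : T.V ≃ T'.V, ∀ u i, e (T.s i u) = T'.s i (e u) := by
  obtain ⟨v⟩ := T.isTree.connected.nonempty
  obtain ⟨v'⟩ := T'.isTree.connected.nonempty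
  obtain ⟨f, f0, f1⟩ := exists_map₂ T T' v v'
  obtain ⟨f', g0, g1⟩ := exists_map₂ T' T v' v
  have l1 : ∀ u, f' (f u) = u := induct T v _ (by rw [f0, g0]) fun i u h => by rw [f1, g1, h]
  have l2 : ∀ u, f (f' u) = u := induct T' v' _ (by rw [g0, f0]) fun i u h => by rw [g1, f1, h]
  exact ⟨⟨f, f', l1, l2⟩, f1⟩

variable {T T' : LegalTree d} {F : Subgroup (Equiv.Perm (Fin d))}

lemma symm_s (e : T.V ≃ T'.V) (he : ∀ u i, e (T.s i u) = T'.s i (e u)) (u : T'.V) (i : Fin d) :
    e.symm (T'.s i u) = T.s i (e.symm u) := by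
  rw [Equiv.symm_apply_eq, he, Equiv.apply_symm_apply]

/-- conjugation by a colour isomorphism -/
def conjU (e : T.V ≃ T'.V) (he : ∀ u i, e (T.s i u) = T'.s i (e u)) (g : U T F) : U T' F :=
  mkU T' (e.symm.trans (g.1.toEquiv.trans e)) fun v => by
    obtain ⟨σ, hσ, hs⟩ := mem_U T g (e.symm v)
    refine ⟨σ, hσ, fun i => ?_⟩
    change e (g.1 (e.symm (T'.s i v))) = T'.s (σ i) (e (g.1 (e.symm v)))
    rw [symm_s e he, hs, he]

lemma conjU_apply (e : T.V ≃ T'.V) (he : ∀ u i, e (T.s i u) = T'.s i (e u)) (g : U T F)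
    (v : T'.V) : (conjU e he g).1 v = e (g.1 (e.symm v)) := rfl

lemma conjU_cont (e : T.V ≃ T'.V) (he : ∀ u i, e (T.s i u) = T'.s i (e u)) :
    Continuous (conjU (F := F) e he) :=
  continuous_induced_rng.2 (continuous_pi fun v =>
    (continuous_of_discreteTopology (f := e)).comp (continuous_eval T F (e.symm v)))

/-- the Burger-Mozes group does not depend on the legally coloured tree -/
theorem exists_iso (T T' : LegalTree d) (F : Subgroup (Equiv.Perm (Fin d))) :
    ∃ φ : U T F ≃* U T' F, Continuous φ ∧ Continuous φ.symm := by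
  obtain ⟨e, he⟩ := exists_equiv T T'
  refine ⟨⟨⟨conjU e he, conjU e.symm (symm_s e he), fun g => U_ext T fun v => ?_,
    fun g => U_ext T' fun v => ?_⟩, fun g h => U_ext T' fun v => ?_⟩, conjU_cont e he,
    conjU_cont e.symm (symm_s e he)⟩
  · simp only [conjU_apply, Equiv.symm_symm, Equiv.symm_apply_apply]
  · simp only [conjU_apply, Equiv.symm_symm, Equiv.apply_symm_apply]
  · simp only [conjU_apply, mul_app, Equiv.symm_apply_apply]

theorem starIso_trans {H K L : Type} [NormedAddCommGroup H] [InnerProductSpace ℂ H]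
    [CompleteSpace H] [NormedAddCommGroup K] [InnerProductSpace ℂ K] [CompleteSpace K]
    [NormedAddCommGroup L] [InnerProductSpace ℂ L] [CompleteSpace L] {A : Set (H →L[ℂ] H)}
    {B : Set (K →L[ℂ] K)} {C : Set (L →L[ℂ] L)} (h1 : StarIso A B) (h2 : StarIso B C) :
    StarIso A C := by
  obtain ⟨Φ, rfl⟩ := h1
  obtain ⟨Ψ, rfl⟩ := h2
  exact ⟨Φ.trans Ψ, (Set.image_image Ψ Φ A).symm⟩

/-- transfer of a Haar measure to another tree -/
theorem transfer (T T' : LegalTree d) (F : Subgroup (Equiv.Perm (Fin d))) (μ : Measure (U T' F))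
    [μ.IsHaarMeasure] : ∃ (ν : Measure (U T F)) (_ : ν.IsHaarMeasure), CstarRedIso ν μ := by
  obtain ⟨φ, h1, h2⟩ := exists_iso T T' F
  have hν : (Measure.map φ.symm μ).IsHaarMeasure := φ.symm.isHaarMeasure_map μ h2 h1
  refine ⟨Measure.map φ.symm μ, hν, cstar_iso _ _ φ h1 h2 ⟨h1.measurable, ?_⟩⟩
  rw [Measure.map_map h1.measurable h2.measurable]
  have : (φ : U T F → U T' F) ∘ φ.symm = id := funext fun x => φ.apply_symm_apply x
  rw [this, Measure.map_id]

/-- an isomorphism statement on one tree gives the statement for two trees -/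
theorem two_trees {F₁ F₂ : Subgroup (Equiv.Perm (Fin d))} (T₁ T₂ : LegalTree d)
    (μ₁ : Measure (U T₁ F₁)) [μ₁.IsHaarMeasure] (μ₂ : Measure (U T₂ F₂)) [μ₂.IsHaarMeasure]
    (h : ∀ (ν : Measure (U T₁ F₂)) [ν.IsHaarMeasure], CstarRedIso μ₁ ν) : CstarRedIso μ₁ μ₂ := by
  obtain ⟨ν, hν, h1⟩ := transfer T₁ T₂ F₂ μ₂
  exact starIso_trans (h ν) h1

end Pool.Agent.Lib.MP_9a581e_an.T20
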