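import Mathlib
import Pool.Agent.Lib.MP_9a581e_an.Sys86
import Pool.Agent.Lib.MP_9a581e_an.Comb20
import Pool.Agent.Lib.MP_9a581e_an.Grp38
import Pool.Agent.Lib.MP_9a581e_an.J78
import Pool.Agent.Lib.MP_9a581e_an.Uniq20

set_option autoImplicit false

namespace Pool.Agent.Lib.MP_9a581e_an.Main81

open MeasureTheory MulAction Pool.Agent.Lib.MP_9a581e_an An88 T20
open scoped Pointwise

variable {d : ℕ} (T : LegalTree d)

lemma KT_dart (F : Subgroup (Equiv.Perm (Fin d))) (x : Dart T) :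
    KT F (Ty.dart x) = stabilizer (U T F) x := Subgroup.ext fun _ => mem_KT_dart

lemma second (F : Subgroup (Equiv.Perm (Fin d))) : SecondCountableTopology (U T F) := by
  have := countable_V T
  have hind : Topology.IsInducing (fun (g : U T F) (v : T.V) => g.1 v) := ⟨rfl⟩
  exact hind.secondCountableTopology

lemma compact_stab (F : Subgroup (Equiv.Perm (Fin d))) (v0 : T.V) :
    IsCompact {g : U T F | g.1 v0 = v0} := by
  let K : Set (U T F) := {g | g.1 v0 = v0}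
  change IsCompact K
  have hind : Topology.IsInducing (fun (g : U T F) (v : T.V) => g.1 v) := ⟨rfl⟩
  rw [hind.isCompact_iff]
  have hfin : ∀ w, ∃ B : Set T.V, B.Finite ∧ ∀ g ∈ K, g.1 w ∈ B := by
    refine induct T v0 _ ⟨{v0}, Set.finite_singleton _, fun g hg => hg⟩ ?_
    rintro i v ⟨B, hB, h⟩
    refine ⟨⋃ j, T.s j '' B, Set.finite_iUnion fun j => hB.image _, fun g hg => ?_⟩
    obtain ⟨σ, -, h1⟩ := mem_U T g v
    rw [h1]
    exact Set.mem_iUnion.2 ⟨σ i, Set.mem_image_of_mem _ (h g hg)⟩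
  choose B hB1 hB2 using hfin
  have hcomp : IsCompact (Set.pi Set.univ B) := isCompact_univ_pi fun w => (hB1 w).isCompact
  refine hcomp.of_isClosed_subset ?_ ?_
  · have : (fun (g : U T F) (v : T.V) => g.1 v) '' K =
        {f : T.V → T.V | f v0 = v0} ∩ ((⋂ a, ⋂ b, {f : T.V → T.V | f a = f b → a = b}) ∩
          ⋂ v, ⋃ σ : F, ⋂ i, {f : T.V → T.V | f (T.s i v) = T.s (σ.1 i) (f v)}) := by
      ext f
      simp only [Set.mem_image, Set.mem_inter_iff, Set.mem_ofPred_eq, Set.mem_iInter,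
        Set.mem_iUnion]
      constructor
      · rintro ⟨g, hg, rfl⟩
        refine ⟨hg, fun a b h => g.1.injective h, fun v => ?_⟩
        obtain ⟨σ, hσ, h⟩ := mem_U T g v
        exact ⟨⟨σ, hσ⟩, h⟩
      · rintro ⟨h0, h1, h2⟩
        have hsurj : Function.Surjective f := by
          refine induct T v0 (fun w => ∃ u, f u = w) ⟨v0, h0⟩ ?_
          rintro i _ ⟨u, rfl⟩
          obtain ⟨σ, h⟩ := h2 u
          exact ⟨T.s (σ.1.symm i) u, by rw [h, Equiv.apply_symm_apply]⟩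
        refine ⟨mkU T (Equiv.ofBijective f ⟨fun a b h => h1 a b h, hsurj⟩) fun v => ?_, h0, rfl⟩
        obtain ⟨σ, h⟩ := h2 v
        exact ⟨σ.1, σ.2, h⟩
    rw [this]
    have key : ∀ (a b : T.V) (S : Set (T.V × T.V)),
        IsClosed ((fun f : T.V → T.V => (f a, f b)) ⁻¹' S) := fun a b S =>
      (isClosed_discrete S).preimage ((continuous_apply a).prodMk (continuous_apply b))
    refine IsClosed.inter (key v0 v0 {p | p.1 = v0}) (IsClosed.inter ?_ ?_)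
    · exact isClosed_iInter fun a => isClosed_iInter fun b => key a b {p | p.1 = p.2 → a = b}
    · exact isClosed_iInter fun v => isClosed_iUnion_of_finite fun σ => isClosed_iInter fun i =>
        key (T.s i v) v {p | p.1 = T.s (σ.1 i) p.2}
  · rintro _ ⟨g, hg, rfl⟩ w _
    exact hB2 w g hg

lemma open_fix (F : Subgroup (Equiv.Perm (Fin d))) {X : Set T.V} (hX : X.Finite) :
    IsOpen {g : U T F | ∀ y ∈ X, g.1 y = y} := by
  have : {g : U T F | ∀ y ∈ X, g.1 y = y} = ⋂ y ∈ X, (fun g : U T F => g.1 y) ⁻¹' {y} := by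
    ext g
    simp only [Set.mem_iInter]
    rfl
  rw [this]
  exact hX.isOpen_biInter fun y _ => (continuous_eval T F y).isOpen_preimage _ (isOpen_discrete _)

theorem bas (F : Subgroup (Equiv.Perm (Fin d))) : Bas (KT F : Ty T → Subgroup (U T F)) := by
  refine ⟨fun S => ?_, fun W hW => ?_⟩
  · have ho : IsOpen (KT F S : Set (U T F)) := open_fix T F (supp_finite S)
    obtain ⟨v, hv⟩ := supp_nonempty S
    exact ⟨ho, (compact_stab T F v).of_isClosed_subset ((KT F S).isClosed_of_isOpen ho)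
      fun g hg => hg v hv⟩
  · have hind : Topology.IsInducing (fun (g : U T F) (v : T.V) => g.1 v) := ⟨rfl⟩
    rw [hind.nhds_eq_comap, nhds_pi, Filter.mem_comap] at hW
    obtain ⟨s, hs, h1⟩ := hW
    obtain ⟨I, hI, t, ht, h2⟩ := Filter.mem_pi.1 hs
    obtain ⟨S, hS⟩ := exists_supp hI
    refine ⟨S, fun g hg => h1 (h2 fun y hy => ?_)⟩
    have h3 : g.1 y = y := hg y (hS hy)
    change g.1 y ∈ t y
    rw [h3]
    exact mem_of_mem_nhds (ht y)

theorem nonsemi {F : Subgroup (Equiv.Perm (Fin d))} (h : ¬ DiscreteTopology (U T F)) :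
    ∃ τ ∈ F, τ ≠ 1 ∧ ∃ i, τ i = i := by
  by_contra hn
  apply h
  obtain ⟨v⟩ := T.isTree.connected.nonempty
  have ho := open_fix T F (nb_finite T (Set.finite_singleton v))
  have : {g : U T F | ∀ y ∈ nb T {v}, g.1 y = y} = {1} := by
    refine Set.eq_singleton_iff_unique_mem.2 ⟨fun _ _ => rfl, fun g hg => U_ext T fun w => ?_⟩
    refine (induct T v (fun u => g.1 u = u ∧ ∀ k, g.1 (T.s k u) = T.s k u)
      ⟨hg v ⟨v, rfl, Or.inl rfl⟩, fun k => hg _ ⟨v, rfl, Or.inr ⟨k, rfl⟩⟩⟩ ?_ w).1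
    rintro k u ⟨h1, h2⟩
    obtain ⟨σ, hσ, h3⟩ := mem_U T g (T.s k u)
    have h4 : σ k = k := by
      have := h3 k
      rw [s_s, h1, h2] at this
      exact s_inj T (this.symm.trans (s_s T k u).symm)
    have h5 : σ = 1 := by_contra fun e => hn ⟨σ, hσ, e, k, h4⟩
    exact ⟨h2 k, fun l => by rw [h3, h5, h2]; rfl⟩
  rw [this] at ho
  exact discreteTopology_of_isOpen_singleton_one ho

theorem data (F : Subgroup (Equiv.Perm (Fin d))) (μ : Measure (U T F)) [μ.IsHaarMeasure]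
    (hB : Bas (KT F : Ty T → Subgroup (U T F)))
    (hns : ∃ τ ∈ F, τ ≠ 1 ∧ ∃ i, τ i = i) (x0 : Dart T) :
    ∃ (A : Submodule ℂ (H μ →L[ℂ] H μ)) (R : Set (H μ →L[ℂ] H μ)),
      CstarRed μ = (A : Set (H μ →L[ℂ] H μ)) ∧ Cusp.Data A (J78.u μ x0) (J78.T (E := Dart T) μ) R := by
  have := second T F
  have := locallyCompact T F
  obtain ⟨τ, hτ, h1, i, hi⟩ := hns
  have hE : ∀ x : Dart T, CO (stabilizer (U T F) x : Set (U T F)) := fun x =>
    KT_dart T F x ▸ hB.1 (Ty.dart x)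
  have hd : Dense (Submodule.span ℂ {ξ : H μ | ∃ (g : U T F) (L : Subgroup (U T F)),
      CO (L : Set (U T F)) ∧ ξ = ind μ (g • (L : Set (U T F)))} : Set (H μ)) :=
    (Submodule.dense_iff_topologicalClosure_eq_top.2 (dense_ind μ hB)).mono
      (Submodule.span_mono (by rintro _ ⟨x, rfl⟩; exact ⟨x.1, _, hB.1 x.2, rfl⟩))
  obtain ⟨R, hR⟩ := Grp.data (Sys86.sys μ hB fun g S u => mem_KT_smul g u S) (comb hτ h1 hi)
    (J78.u μ x0) (J78.T (E := Dart T) μ)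
    (fun q => by
      rcases J78.T_cases μ q with h | ⟨g, -, h⟩
      · rw [h]
        exact Submodule.zero_mem _
      · rw [h, ← KT_dart]
        exact Grp.gen_mem (lam := Sys86.lamHom μ) (p := fun S => pr μ (KT F S)) g
          (size_dart q.1))
    (fun g b hb => by
      obtain ⟨x, rfl⟩ := size_eq_zero.1 hb
      refine Submodule.subset_span ⟨(x, g • x), ?_⟩
      rw [J78.T_eq, KT_dart]
      rfl)
    (fun b ξ hb => by
      obtain ⟨x, rfl⟩ := size_eq_zero.1 hb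
      rw [KT_dart]
      exact J78.pr_ran μ hE hd x0 x ξ)
    (fun q => ⟨Ty.dart q.2, rfl, by
      rw [KT_dart]
      exact J78.pr_u μ hE x0 q⟩)
  exact ⟨_, R, Sys86.cstar_L μ hB, hR⟩

lemma orb_le {F₁ F₂ : Subgroup (Equiv.Perm (Fin d))}
    (h : ∀ σ ∈ F₁, ∀ i j, ∃ τ ∈ F₂, τ i = σ i ∧ τ j = σ j) (a b y : Dart T) :
    J78.Orb (U T F₁) a b y ⊆ J78.Orb (U T F₂) a b y := by
  rintro _ ⟨g, rfl, rfl⟩
  exact orb_dart h g a y

theorem main_of {F₁ F₂ : Subgroup (Equiv.Perm (Fin d))} (μ₁ : Measure (U T F₁))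
    (μ₂ : Measure (U T F₂)) [μ₁.IsHaarMeasure] [μ₂.IsHaarMeasure]
    (hB₁ : Bas (KT F₁ : Ty T → Subgroup (U T F₁))) (hB₂ : Bas (KT F₂ : Ty T → Subgroup (U T F₂)))
    (h12 : ∀ σ ∈ F₁, ∀ i j, ∃ τ ∈ F₂, τ i = σ i ∧ τ j = σ j)
    (h21 : ∀ σ ∈ F₂, ∀ i j, ∃ τ ∈ F₁, τ i = σ i ∧ τ j = σ j)
    (hns : ∃ τ ∈ F₁, τ ≠ 1 ∧ ∃ i, τ i = i) : CstarRedIso μ₁ μ₂ := by
  have hns2 : ∃ τ ∈ F₂, τ ≠ 1 ∧ ∃ i, τ i = i := by
    obtain ⟨τ, hτ, h1, i, hi⟩ := hns
    obtain ⟨l, hl⟩ : ∃ l, τ l ≠ l := by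
      by_contra h
      exact h1 (Equiv.ext fun l => by_contra fun e => h ⟨l, e⟩)
    obtain ⟨σ, hσ, a, b⟩ := h12 τ hτ i l
    exact ⟨σ, hσ, fun e => hl (by rw [← b, e]; rfl), i, a.trans hi⟩
  obtain ⟨v⟩ := T.isTree.connected.nonempty
  let x0 : Dart T := mkDart v hns.choose_spec.2.2.choose
  obtain ⟨A₁, R₁, e₁, D₁⟩ := data T F₁ μ₁ hB₁ hns x0
  obtain ⟨A₂, R₂, e₂, D₂⟩ := data T F₂ μ₂ hB₂ hns2 x0
  have hE₁ : ∀ x : Dart T, CO (stabilizer (U T F₁) x : Set (U T F₁)) := fun x =>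
    KT_dart T F₁ x ▸ hB₁.1 (Ty.dart x)
  have hE₂ : ∀ x : Dart T, CO (stabilizer (U T F₂) x : Set (U T F₂)) := fun x =>
    KT_dart T F₂ x ▸ hB₂.1 (Ty.dart x)
  have hR : ∀ a b y : Dart T, J78.Orb (U T F₁) a b y = J78.Orb (U T F₂) a b y := fun a b y =>
    (orb_le T h12 a b y).antisymm (orb_le T h21 a b y)
  have := second T F₁
  have := locallyCompact T F₁
  have := second T F₂
  have := locallyCompact T F₂
  have := separable μ₁
  have := separable μ₂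
  unfold CstarRedIso
  rw [e₁, e₂]
  exact Cusp.abstract_iso D₁ D₂ (J78.gram_eq μ₁ μ₂ hE₁ hE₂ hR x0)
    (J78.coeff_eq μ₁ μ₂ hE₁ hE₂ hR x0)

theorem main {F₁ F₂ : Subgroup (Equiv.Perm (Fin d))} (T₁ T₂ : LegalTree d)
    (μ₁ : Measure (U T₁ F₁)) (μ₂ : Measure (U T₂ F₂)) [μ₁.IsHaarMeasure] [μ₂.IsHaarMeasure]
    (h12 : ∀ σ ∈ F₁, ∀ i j, ∃ τ ∈ F₂, τ i = σ i ∧ τ j = σ j)
    (h21 : ∀ σ ∈ F₂, ∀ i j, ∃ τ ∈ F₁, τ i = σ i ∧ τ j = σ j)
    (hns : ∃ τ ∈ F₁, τ ≠ 1 ∧ ∃ i, τ i = i) : CstarRedIso μ₁ μ₂ :=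
  two_trees T₁ T₂ μ₁ μ₂ fun ν _ => main_of T₁ μ₁ ν (bas T₁ F₁) (bas T₁ F₂) h12 h21 hns

end Pool.Agent.Lib.MP_9a581e_an.Main81
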