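import Mathlib
import Pool.Agent.Lib.MP_9a581e_an.Ty20
import Pool.Agent.Lib.MP_9a581e_an.An88b

/-! Topology of the Burger-Mozes group: compact open fixators, second countability,
discreteness for semiregular local action. -/

set_option autoImplicit false

namespace Pool.Agent.Lib.MP_9a581e_an.Top86

open Pool.Agent.Lib.MP_9a581e_an Topology Filter

variable {d : ℕ} (T : LegalTree d) (F : Subgroup (Equiv.Perm (Fin d)))

lemma inducing : IsInducing (fun (g : U T F) (v : T.V) => g.1 v) := ⟨rfl⟩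

theorem secondCountable : SecondCountableTopology (U T F) := by
  have := T20.countable_V T
  have : SecondCountableTopology T.V := inferInstance
  exact (inducing T F).secondCountableTopology

theorem t2 : T2Space (U T F) :=
  T2Space.of_injective_continuous (f := fun (g : U T F) (v : T.V) => g.1 v)
    (fun _ _ h => U_ext T fun v => congrFun h v) (inducing T F).continuous

/-- vertex stabilisers are compact -/
theorem compact_stab (v0 : T.V) : IsCompact {g : U T F | g.1 v0 = v0} := by
  set K : Set (U T F) := {g | g.1 v0 = v0} with hKdef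
  rw [(inducing T F).isCompact_iff]
  have hfin : ∀ w, ∃ B : Set T.V, B.Finite ∧ ∀ g ∈ K, g.1 w ∈ B := by
    refine induct T v0 _ ⟨{v0}, Set.finite_singleton _, fun g hg => hg⟩ ?_
    rintro i v ⟨B, hB, h⟩
    refine ⟨⋃ j, T.s j '' B, Set.finite_iUnion fun j => hB.image _, fun g hg => ?_⟩
    obtain ⟨σ, -, h1⟩ := mem_U T g v
    rw [h1]
    exact Set.mem_iUnion.2 ⟨σ i, Set.mem_image_of_mem _ (h g hg)⟩
  choose B hB1 hB2 using hfin
  have hcomp : IsCompact (Set.pi Set.univ B) := isCompact_univ_pi fun w => (hB1 w).isCompact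
  refine hcomp.of_isClosed_subset ?_ ?_
  · have : (fun (g : U T F) (v : T.V) => g.1 v) '' K =
        {f : T.V → T.V | f v0 = v0} ∩ ((⋂ a, ⋂ b, {f : T.V → T.V | f a = f b → a = b}) ∩
          ⋂ v, ⋃ σ : F, ⋂ i, {f : T.V → T.V | f (T.s i v) = T.s (σ.1 i) (f v)}) := by
      ext f
      simp only [Set.mem_image, Set.mem_inter_iff, Set.mem_ofPred_eq, Set.mem_iInter,
        Set.mem_iUnion]
      constructor
      · rintro ⟨g, hg, rfl⟩
        refine ⟨hg, fun a b h => g.1.injective h, fun v => ?_⟩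
        obtain ⟨σ, hσ, h⟩ := mem_U T g v
        exact ⟨⟨σ, hσ⟩, h⟩
      · rintro ⟨h0, h1, h2⟩
        have hsurj : Function.Surjective f := by
          refine induct T v0 (fun w => ∃ u, f u = w) ⟨v0, h0⟩ ?_
          rintro i _ ⟨u, rfl⟩
          obtain ⟨σ, h⟩ := h2 u
          exact ⟨T.s (σ.1.symm i) u, by rw [h, Equiv.apply_symm_apply]⟩
        refine ⟨mkU T (Equiv.ofBijective f ⟨fun a b h => h1 a b h, hsurj⟩) fun v => ?_, h0, rfl⟩
        obtain ⟨σ, h⟩ := h2 v
        exact ⟨σ.1, σ.2, h⟩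
    rw [this]
    have key : ∀ (a b : T.V) (S : Set (T.V × T.V)),
        IsClosed ((fun f : T.V → T.V => (f a, f b)) ⁻¹' S) := fun a b S =>
      (isClosed_discrete S).preimage ((continuous_apply a).prodMk (continuous_apply b))
    refine IsClosed.inter (key v0 v0 {p | p.1 = v0}) (IsClosed.inter ?_ ?_)
    · exact isClosed_iInter fun a => isClosed_iInter fun b => key a b {p | p.1 = p.2 → a = b}
    · exact isClosed_iInter fun v => isClosed_iUnion_of_finite fun σ => isClosed_iInter fun i =>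
        key (T.s i v) v {p | p.1 = T.s (σ.1 i) p.2}
  · rintro _ ⟨g, hg, rfl⟩ w _
    exact hB2 w g hg

lemma open_fix {X : Set T.V} (hX : X.Finite) : IsOpen {g : U T F | ∀ y ∈ X, g.1 y = y} := by
  have : {g : U T F | ∀ y ∈ X, g.1 y = y} = ⋂ y ∈ X, (fun g : U T F => g.1 y) ⁻¹' {y} := by
    ext g
    simp only [Set.mem_ofPred_eq, Set.mem_iInter, Set.mem_preimage, Set.mem_singleton_iff]
  rw [this]
  exact hX.isOpen_biInter fun y _ =>
    (continuous_eval T F y).isOpen_preimage _ (isOpen_discrete _)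

lemma closed_fix (X : Set T.V) : IsClosed {g : U T F | ∀ y ∈ X, g.1 y = y} := by
  have : {g : U T F | ∀ y ∈ X, g.1 y = y} = ⋂ y ∈ X, (fun g : U T F => g.1 y) ⁻¹' {y} := by
    ext g
    simp only [Set.mem_ofPred_eq, Set.mem_iInter, Set.mem_preimage, Set.mem_singleton_iff]
  rw [this]
  exact isClosed_biInter fun y _ => (isClosed_discrete _).preimage (continuous_eval T F y)

/-- fixators of finite nonempty vertex sets are compact open -/
theorem co_fix {X : Set T.V} (hX : X.Finite) (hne : X.Nonempty) :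
    An88.CO {g : U T F | ∀ y ∈ X, g.1 y = y} := by
  obtain ⟨v, hv⟩ := hne
  exact ⟨open_fix T F hX,
    (compact_stab T F v).of_isClosed_subset (closed_fix T F X) fun g hg => hg v hv⟩

/-- every neighbourhood of the identity contains the fixator of a finite vertex set -/
theorem nhds_fix {V : Set (U T F)} (hV : V ∈ 𝓝 (1 : U T F)) :
    ∃ X : Set T.V, X.Finite ∧ {g : U T F | ∀ y ∈ X, g.1 y = y} ⊆ V := by
  rw [(inducing T F).nhds_eq_comap, mem_comap] at hV
  obtain ⟨W, hW, hWV⟩ := hV
  rw [nhds_pi, mem_pi] at hW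
  obtain ⟨I, hI, t, ht, hsub⟩ := hW
  refine ⟨I, hI, fun g hg => hWV (hsub fun y hy => ?_)⟩
  have h1 : (1 : U T F).1 y ∈ t y := mem_of_mem_nhds (ht y)
  change g.1 y ∈ t y
  rw [hg y hy]
  exact h1

theorem co_KT (S : T20.Ty T) : An88.CO (T20.KT F S : Set (U T F)) :=
  co_fix T F (T20.supp_finite S) (T20.supp_nonempty S)

/-- the fixators of types form a basis of compact open subgroups -/
theorem bas : An88.Bas (T20.KT F : T20.Ty T → Subgroup (U T F)) := by
  refine ⟨co_KT T F, fun V hV => ?_⟩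
  obtain ⟨X, hX, hsub⟩ := nhds_fix T F hV
  obtain ⟨S, hS⟩ := T20.exists_supp hX
  exact ⟨S, fun g hg => hsub fun y hy => hg y (hS hy)⟩

lemma stab_eq (x : T20.Dart T) :
    MulAction.stabilizer (U T F) x = T20.KT F (T20.Ty.dart x) :=
  Subgroup.ext fun _ => MulAction.mem_stabilizer_iff.trans T20.mem_KT_dart.symm

theorem co_stab (x : T20.Dart T) :
    An88.CO (MulAction.stabilizer (U T F) x : Set (U T F)) := by
  rw [stab_eq]
  exact co_KT T F _

variable {F}

/-- a non-discrete universal group has a non-semiregular local group -/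
theorem nonsemi (h : ¬ DiscreteTopology (U T F)) : ∃ τ ∈ F, τ ≠ 1 ∧ ∃ i, τ i = i := by
  by_contra hn
  apply h
  obtain ⟨v0⟩ := T.isTree.connected.nonempty
  have hfin : (T20.nb T {v0}).Finite := T20.nb_finite T (Set.finite_singleton _)
  have heq : {g : U T F | ∀ y ∈ T20.nb T {v0}, g.1 y = y} = {1} := by
    ext g
    refine ⟨fun hg => U_ext T fun v => ?_, fun hg y _ => by rw [hg]; rfl⟩
    refine (induct T v0 (fun w => g.1 w = w ∧ ∀ i, g.1 (T.s i w) = T.s i w)
      ⟨hg _ ⟨v0, rfl, Or.inl rfl⟩, fun i => hg _ ⟨v0, rfl, Or.inr ⟨i, rfl⟩⟩⟩ ?_ v).1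
    rintro i w ⟨h1, h2⟩
    refine ⟨h2 i, fun j => ?_⟩
    obtain ⟨σ, hσ, hs⟩ := mem_U T g (T.s i w)
    have hi : σ i = i := by
      have := hs i
      rw [s_s, h1, h2 i] at this
      exact s_inj T (this.symm.trans (s_s T i w).symm)
    have h1' : σ = 1 := by
      by_contra hne
      exact hn ⟨σ, hσ, hne, i, hi⟩
    rw [hs j, h1', h2 i]
    rfl
  exact discreteTopology_of_isOpen_singleton_one (heq ▸ open_fix T F hfin)

end Pool.Agent.Lib.MP_9a581e_an.Top86
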